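import Pool.Agent.Q1.M3.Pg.Step

set_option autoImplicit false
open Finset Filter Topology

/-! Module M3: the lattice region of a component of `P \ H` consists of the lattice points whose unit
box belongs to the component; its labels are the labels with both ends in the region. -/

namespace Pool.Agent.Q1.M3.Pg

open Pool.Agent.H75.Perc (dir dir_cases mem_Bx)
open Pool.Agent.H75.Four (eu ev)
open Pool.Agent.H49.Q1 (gcell gs mem_gs)
open Pool.Agent.Q1.M4 (Adj4 Conn4 Good IsSide inV inRect)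
open Pool.Agent.H81.Q1 (pt)

/-! ### One coordinate -/

/-- Column of a lattice coordinate. -/
noncomputable def col (K : ℕ) (o δ : ℝ) (a : ℤ) : ℤ := ⌊(δ * a - o) / mesh (K + 1)⌋

/-- No lattice coordinate on a grid line. -/
def Gen (K : ℕ) (o δ : ℝ) : Prop := ∀ N a : ℤ, o + N * mesh (K + 1) ≠ δ * a

/-- Types which are rounded to the right. -/
def RT (t : LT) : Prop := t = LT.loF ∨ t = LT.hiC

variable {K : ℕ} {o δ : ℝ}

lemma le_col_iff (hδ : 0 < δ) (hg : Gen K o δ) {N a : ℤ} :
    N ≤ col K o δ a ↔ (o + N * mesh (K + 1)) / δ < a := by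
  have hm := mesh_pos (K + 1)
  unfold col
  rw [Int.le_floor, le_div_iff₀ hm, div_lt_iff₀ hδ]
  have hne := hg N a
  constructor
  · intro h
    have : o + N * mesh (K + 1) ≤ δ * a := by linarith
    have := lt_of_le_of_ne this hne
    linarith
  · intro h; linarith

lemma LX_right (hδ : 0 < δ) (hg : Gen K o δ) {N : ℤ} (ht : RT (lty N)) {a : ℤ} :
    LX K o δ N ≤ a ↔ N ≤ col K o δ a := by
  rw [le_col_iff hδ hg]
  have hne : (o + N * mesh (K + 1)) / δ ≠ a := by
    intro h
    rw [div_eq_iff hδ.ne'] at h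
    exact hg N a (by linarith)
  unfold LX
  rcases ht with h | h
  · rw [h]
    simp only [rnd]
    rw [Int.add_one_le_iff, Int.floor_lt]
  · rw [h]
    simp only [rnd]
    rw [Int.ceil_le]
    exact ⟨fun h1 => lt_of_le_of_ne h1 hne, le_of_lt⟩

lemma LX_left (hδ : 0 < δ) (hg : Gen K o δ) {N : ℤ} (ht : ¬ RT (lty N)) {a : ℤ} :
    a ≤ LX K o δ N ↔ col K o δ a < N := by
  rw [← not_le (a := N), ← not_lt (a := LX K o δ N), not_iff_not, le_col_iff hδ hg]
  have hne : (o + N * mesh (K + 1)) / δ ≠ a := by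
    intro h
    rw [div_eq_iff hδ.ne'] at h
    exact hg N a (by linarith)
  unfold LX
  unfold RT at ht
  cases h : lty N
  all_goals rw [h] at ht
  all_goals simp only [rnd]
  · rw [Int.floor_lt]
  · exact absurd (Or.inl rfl) ht
  · rw [Int.sub_one_lt_iff, Int.ceil_le]
    exact ⟨fun h1 => lt_of_le_of_ne h1 hne, le_of_lt⟩
  · rw [Int.floor_lt]
  · exact absurd (Or.inr rfl) ht

lemma LX_le (hδ : 0 < δ) (hg : Gen K o δ) {N a : ℤ} (h : N ≤ col K o δ a) :
    LX K o δ N ≤ a := by
  by_cases ht : RT (lty N)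
  · exact (LX_right hδ hg ht).2 h
  · by_contra hc
    push Not at hc
    have := (LX_left hδ hg ht).1 hc.le
    omega

lemma le_LX (hδ : 0 < δ) (hg : Gen K o δ) {N a : ℤ} (h : col K o δ a < N) :
    a ≤ LX K o δ N := by
  by_cases ht : RT (lty N)
  · by_contra hc
    push Not at hc
    have := (LX_right hδ hg ht).1 hc.le
    omega
  · exact (LX_left hδ hg ht).2 h

/-- The lattice columns containing a coordinate. -/
lemma col_near (hδ : 0 < δ) (hm : 3 * δ ≤ mesh (K + 1)) (hg : Gen K o δ) {N a : ℤ}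
    (h1 : LX K o δ N ≤ a) (h2 : a ≤ LX K o δ (N + 1)) :
    N = col K o δ a ∨ (N = col K o δ a + 1 ∧ ¬ RT (lty N)) ∨
      (N + 1 = col K o δ a ∧ RT (lty (N + 1))) := by
  have hmono := LX_mono (K := K) (o := o) hδ hm
  have e1 : N ≤ col K o δ a + 1 := by
    by_contra hc
    push Not at hc
    have h3 := le_LX hδ hg (N := col K o δ a + 1) (a := a) (by omega)
    have h4 := hmono hc
    omega
  have e2 : col K o δ a - 1 ≤ N := by
    by_contra hc
    push Not at hc
    have h3 := LX_le hδ hg (N := col K o δ a) (a := a) le_rfl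
    have h4 := hmono (show N + 1 < col K o δ a by omega)
    omega
  rcases lt_trichotomy N (col K o δ a) with h | h | h
  · right; right
    have e : N + 1 = col K o δ a := by omega
    refine ⟨e, ?_⟩
    by_contra ht
    have := (LX_left hδ hg ht).1 h2
    omega
  · exact Or.inl h
  · right; left
    have e : N = col K o δ a + 1 := by omega
    refine ⟨e, fun ht => ?_⟩
    have := (LX_right hδ hg ht).1 h1
    omega

/-- Columns of neighbouring coordinates. -/
lemma col_succ (hδ : 0 < δ) (hm : 3 * δ ≤ mesh (K + 1)) (hg : Gen K o δ) (a : ℤ) :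
    col K o δ (a + 1) = col K o δ a ∨ col K o δ (a + 1) = col K o δ a + 1 := by
  have hmono := LX_mono (K := K) (o := o) hδ hm
  have hp := mesh_pos (K + 1)
  have e1 : col K o δ a ≤ col K o δ (a + 1) := by
    unfold col
    refine Int.floor_le_floor ?_
    gcongr
    push_cast
    linarith
  have e2 : col K o δ (a + 1) ≤ col K o δ a + 1 := by
    unfold col
    rw [← Int.floor_add_one]
    refine Int.floor_le_floor ?_
    rw [div_add_one hp.ne']
    gcongr
    push_cast
    linarith
  omega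

/-! ### The lattice region -/

variable {o : ℂ}

/-- The unit box of a vertex. -/
lemma box_eq (K : ℕ) (o : ℂ) (δ : ℝ) (v : ℤ × ℤ) :
    box δ o K v = (col K o.re δ v.1, col K o.im δ v.2) := rfl

/-- No lattice point on a grid line. -/
def Gen2 (K : ℕ) (o : ℂ) (δ : ℝ) : Prop := Gen K o.re δ ∧ Gen K o.im δ

variable {P H : Finset (ℤ × ℤ)} {ct : ℤ × ℤ}

lemma shift_col (hδ : 0 < δ) (hm : 3 * δ ≤ mesh (K + 1)) (hg : Gen2 K o δ)
    (hT : Typed lty P H) {N M a : ℤ} (hc : (N, M) ∈ comp (P \ H) ct)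
    (h1 : LX K o.re δ N ≤ a) (h2 : a ≤ LX K o.re δ (N + 1)) :
    (col K o.re δ a, M) ∈ comp (P \ H) ct := by
  have hc' := mem_sdiff.1 (comp_subset _ _ hc)
  rcases col_near hδ hm hg.1 h1 h2 with h | ⟨h, ht⟩ | ⟨h, ht⟩
  · rwa [← h]
  · -- the cell is to the right of the line `N`, the point to the left
    have e : col K o.re δ a = N - 1 := by omega
    rw [e]
    refine comp_adj hc (mem_sdiff.2 ⟨?_, ?_⟩) (adj_left N M)
    · by_contra hP
      exact ht (Or.inl (hT.xO1 N M hc'.1 hc'.2 hP))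
    · intro hH
      exact ht (Or.inr (hT.xH2 N M hc'.1 hc'.2 hH))
  · rw [← h]
    have hadj : Adj4 ((N, M) : ℤ × ℤ) (N + 1, M) := by
      have := adj_right (N + 1) M
      rwa [add_sub_cancel_right] at this
    have k1 := hT.xO2 (N + 1) M
    have k2 := hT.xH1 (N + 1) M
    simp only [add_sub_cancel_right] at k1 k2
    refine comp_adj hc (mem_sdiff.2 ⟨?_, ?_⟩) hadj
    · by_contra hP
      have := k1 hc'.1 hc'.2 hP
      rw [this] at ht
      rcases ht with h3 | h3 <;> exact absurd h3 (by decide)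
    · intro hH
      have := k2 hc'.1 hc'.2 hH
      rw [this] at ht
      rcases ht with h3 | h3 <;> exact absurd h3 (by decide)

lemma shift_row (hδ : 0 < δ) (hm : 3 * δ ≤ mesh (K + 1)) (hg : Gen2 K o δ)
    (hT : Typed lty P H) {N M a : ℤ} (hc : (N, M) ∈ comp (P \ H) ct)
    (h1 : LX K o.im δ M ≤ a) (h2 : a ≤ LX K o.im δ (M + 1)) :
    (N, col K o.im δ a) ∈ comp (P \ H) ct := by
  have hc' := mem_sdiff.1 (comp_subset _ _ hc)
  rcases col_near hδ hm hg.2 h1 h2 with h | ⟨h, ht⟩ | ⟨h, ht⟩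
  · rwa [← h]
  · have e : col K o.im δ a = M - 1 := by omega
    rw [e]
    refine comp_adj hc (mem_sdiff.2 ⟨?_, ?_⟩) (adj_down N M)
    · by_contra hP
      exact ht (Or.inl (hT.yO1 N M hc'.1 hc'.2 hP))
    · intro hH
      exact ht (Or.inr (hT.yH2 N M hc'.1 hc'.2 hH))
  · rw [← h]
    have hadj : Adj4 ((N, M) : ℤ × ℤ) (N, M + 1) := by
      have := adj_up N (M + 1)
      rwa [add_sub_cancel_right] at this
    have k1 := hT.yO2 N (M + 1)
    have k2 := hT.yH1 N (M + 1)
    simp only [add_sub_cancel_right] at k1 k2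
    refine comp_adj hc (mem_sdiff.2 ⟨?_, ?_⟩) hadj
    · by_contra hP
      have := k1 hc'.1 hc'.2 hP
      rw [this] at ht
      rcases ht with h3 | h3 <;> exact absurd h3 (by decide)
    · intro hH
      have := k2 hc'.1 hc'.2 hH
      rw [this] at ht
      rcases ht with h3 | h3 <;> exact absurd h3 (by decide)

/-- A vertex is in the lattice rectangle of its box. -/
lemma inRect_box (hδ : 0 < δ) (hg : Gen2 K o δ) (v : ℤ × ℤ) :
    inRect (LX K o.re δ) (LX K o.im δ) (box δ o K v) v := by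
  rw [box_eq]
  exact ⟨⟨LX_le hδ hg.1 le_rfl, le_LX hδ hg.1 (by omega)⟩,
    LX_le hδ hg.2 le_rfl, le_LX hδ hg.2 (by omega)⟩

/-- **The lattice region of a component** consists of the vertices with box in the component. -/
theorem inV_iff (hδ : 0 < δ) (hm : 3 * δ ≤ mesh (K + 1)) (hg : Gen2 K o δ)
    (hT : Typed lty P H) {v : ℤ × ℤ} :
    inV (comp (P \ H) ct) (LX K o.re δ) (LX K o.im δ) v ↔ box δ o K v ∈ comp (P \ H) ct := by
  constructor
  · rintro ⟨⟨N, M⟩, hc, ⟨h1, h2⟩, h3, h4⟩
    have := shift_col hδ hm hg hT hc h1 h2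
    exact shift_row hδ hm hg hT this h3 h4
  · intro h
    exact ⟨_, h, inRect_box hδ hg v⟩

/-- The ends of an edge lie in the same box or in neighbouring boxes. -/
lemma box_adj (hδ : 0 < δ) (hm : 3 * δ ≤ mesh (K + 1)) (hg : Gen2 K o δ) {e : ℤ × ℤ}
    (he : (e.1 + e.2) % 2 = 1) :
    box δ o K (ev e) = box δ o K (eu e) ∨ Adj4 (box δ o K (eu e)) (box δ o K (ev e)) := by
  obtain ⟨x, y⟩ := e
  simp only at he
  rw [box_eq, box_eq]
  unfold eu ev
  simp only
  have h : (x % 2 = 1 ∧ y % 2 = 0) ∨ (x % 2 = 0 ∧ y % 2 = 1) := by omega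
  rcases h with ⟨h1, h2⟩ | ⟨h1, h2⟩
  · have e1 : (x + 1) / 2 = x / 2 + 1 := by omega
    have e2 : (y + 1) / 2 = y / 2 := by omega
    rw [e1, e2]
    rcases col_succ hδ hm hg.1 (x / 2) with h3 | h3
    · left; rw [h3]
    · right
      rw [h3]
      have := adj_right (col K o.re δ (x / 2) + 1) (col K o.im δ (y / 2))
      rwa [add_sub_cancel_right] at this
  · have e1 : (x + 1) / 2 = x / 2 := by omega
    have e2 : (y + 1) / 2 = y / 2 + 1 := by omega
    rw [e1, e2]
    rcases col_succ hδ hm hg.2 (y / 2) with h3 | h3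
    · left; rw [h3]
    · right
      rw [h3]
      have := adj_up (col K o.re δ (x / 2)) (col K o.im δ (y / 2) + 1)
      rwa [add_sub_cancel_right] at this

/-- Membership in the labels of a lattice rectangle. -/
lemma mem_gcell_iff {X Y : ℤ → ℤ} {c e : ℤ × ℤ} (he : (e.1 + e.2) % 2 = 1) :
    e ∈ gcell X Y c ↔ inRect X Y c (eu e) ∧ inRect X Y c (ev e) := by
  unfold gcell inRect eu ev
  rw [mem_Bx]
  simp only
  omega

lemma odd_gs {X Y : ℤ → ℤ} {S : Finset (ℤ × ℤ)} {e : ℤ × ℤ} (h : e ∈ gs X Y S) :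
    (e.1 + e.2) % 2 = 1 := by
  obtain ⟨c, -, h1⟩ := mem_gs.1 h
  unfold gcell at h1
  exact (mem_Bx.1 h1).2.2

/-- **The labels of a component** are the labels with both ends in its lattice region. -/
theorem mem_gs_iff (hδ : 0 < δ) (hm : 3 * δ ≤ mesh (K + 1)) (hg : Gen2 K o δ)
    (hT : Typed lty P H) {e : ℤ × ℤ} (he : (e.1 + e.2) % 2 = 1) :
    e ∈ gs (LX K o.re δ) (LX K o.im δ) (comp (P \ H) ct) ↔
      box δ o K (eu e) ∈ comp (P \ H) ct ∧ box δ o K (ev e) ∈ comp (P \ H) ct := by
  constructor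
  · intro h
    obtain ⟨c, hc, h1⟩ := mem_gs.1 h
    obtain ⟨h2, h3⟩ := (mem_gcell_iff he).1 h1
    exact ⟨(inV_iff hδ hm hg hT).1 ⟨c, hc, h2⟩, (inV_iff hδ hm hg hT).1 ⟨c, hc, h3⟩⟩
  · rintro ⟨h1, h2⟩
    rw [mem_gs]
    have r1 := inRect_box hδ hg (eu e)
    have r2 := inRect_box hδ hg (ev e)
    obtain ⟨x, y⟩ := e
    simp only at he
    rw [box_eq] at h1 h2 r1 r2
    unfold eu at h1 r1
    unfold ev at h2 r2
    simp only at h1 h2 r1 r2
    have h : (x % 2 = 1 ∧ y % 2 = 0) ∨ (x % 2 = 0 ∧ y % 2 = 1) := by omega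
    rcases h with ⟨k1, k2⟩ | ⟨k1, k2⟩
    · have e1 : (x + 1) / 2 = x / 2 + 1 := by omega
      have e2 : (y + 1) / 2 = y / 2 := by omega
      rw [e1, e2] at h2 r2
      rcases col_succ hδ hm hg.1 (x / 2) with h3 | h3
      · refine ⟨_, h1, (mem_gcell_iff (by simpa using he)).2 ⟨r1, ?_⟩⟩
        unfold ev
        simp only
        rw [e1, e2]
        rwa [h3] at r2
      · set N := col K o.re δ (x / 2) with hN
        by_cases ht : RT (lty (N + 1))
        · -- the right point is on the line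
          have k3 : x / 2 + 1 ≤ LX K o.re δ (N + 1) := by
            have : ¬ (N + 1 ≤ col K o.re δ (x / 2)) := by omega
            rw [← LX_right hδ hg.1 ht] at this
            omega
          refine ⟨_, h1, (mem_gcell_iff (by simpa using he)).2 ⟨r1, ?_⟩⟩
          unfold ev
          simp only
          rw [e1, e2]
          unfold inRect at r1 r2 ⊢
          simp only at r1 r2 ⊢
          omega
        · have k3 : LX K o.re δ (N + 1) ≤ x / 2 := by
            have : ¬ (col K o.re δ (x / 2 + 1) < N + 1) := by omega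
            rw [← LX_left hδ hg.1 ht] at this
            omega
          refine ⟨_, h2, (mem_gcell_iff (by simpa using he)).2 ⟨?_, ?_⟩⟩
          · unfold eu
            simp only
            rw [h3] at r2 ⊢
            unfold inRect at r1 r2 ⊢
            simp only at r1 r2 ⊢
            omega
          · unfold ev
            simp only
            rw [e1, e2]
            exact r2
    · have e1 : (x + 1) / 2 = x / 2 := by omega
      have e2 : (y + 1) / 2 = y / 2 + 1 := by omega
      rw [e1, e2] at h2 r2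
      rcases col_succ hδ hm hg.2 (y / 2) with h3 | h3
      · refine ⟨_, h1, (mem_gcell_iff (by simpa using he)).2 ⟨r1, ?_⟩⟩
        unfold ev
        simp only
        rw [e1, e2]
        rwa [h3] at r2
      · set N := col K o.im δ (y / 2) with hN
        by_cases ht : RT (lty (N + 1))
        · have k3 : y / 2 + 1 ≤ LX K o.im δ (N + 1) := by
            have : ¬ (N + 1 ≤ col K o.im δ (y / 2)) := by omega
            rw [← LX_right hδ hg.2 ht] at this
            omega
          refine ⟨_, h1, (mem_gcell_iff (by simpa using he)).2 ⟨r1, ?_⟩⟩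
          unfold ev
          simp only
          rw [e1, e2]
          unfold inRect at r1 r2 ⊢
          simp only at r1 r2 ⊢
          omega
        · have k3 : LX K o.im δ (N + 1) ≤ y / 2 := by
            have : ¬ (col K o.im δ (y / 2 + 1) < N + 1) := by omega
            rw [← LX_left hδ hg.2 ht] at this
            omega
          refine ⟨_, h2, (mem_gcell_iff (by simpa using he)).2 ⟨?_, ?_⟩⟩
          · unfold eu
            simp only
            rw [h3] at r2 ⊢
            unfold inRect at r1 r2 ⊢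
            simp only at r1 r2 ⊢
            omega
          · unfold ev
            simp only
            rw [e1, e2]
            exact r2

/-- **Vertices of a fat cell** are the vertices with box in the cell. -/
theorem mem_verts_iff (hδ : 0 < δ) (hg : Gen2 K o δ) {q : Cell} (hq : q.1 ≤ K) {v : ℤ × ℤ} :
    v ∈ verts δ o q ↔ box δ o K v ∈ fc K q := by
  have hu := mesh_pos (K + 1)
  have hmesh : mesh q.1 = 3 ^ (K - q.1) * (3 * mesh (K + 1)) := by
    unfold mesh
    have h1 : (1 / 3 : ℝ) ^ (K + 1) = (1 / 3) ^ q.1 * ((1 / 3) ^ (K - q.1) * (1 / 3)) := by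
      rw [← mul_assoc, ← pow_add, show q.1 + (K - q.1) = K by omega, pow_succ]
    rw [h1]
    have h2 : (3 : ℝ) ^ (K - q.1) * (1 / 3) ^ (K - q.1) = 1 := by
      rw [← mul_pow]; norm_num
    calc (1 / 3 : ℝ) ^ q.1 = (1 / 3) ^ q.1 * 1 := by ring
      _ = (1 / 3) ^ q.1 * (3 ^ (K - q.1) * (1 / 3) ^ (K - q.1)) := by rw [h2]
      _ = _ := by ring
  have key : ∀ (a : ℝ) (i x : ℤ), Gen K a δ →
      ((a + (i - 1 / 3) * mesh q.1 < δ * x ∧ δ * x < a + (i + 4 / 3) * mesh q.1) ↔
      (lo (K - q.1) i ≤ col K a δ x ∧ col K a δ x < hi (K - q.1) i)) := by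
    intro a i x hg
    have hne1 := hg (lo (K - q.1) i) x
    have hne2 := hg (hi (K - q.1) i) x
    have e1 : a + (i - 1 / 3) * mesh q.1 = a + (lo (K - q.1) i : ℤ) * mesh (K + 1) := by
      rw [hmesh]; unfold lo; push_cast; ring
    have e2 : a + (i + 4 / 3) * mesh q.1 = a + (hi (K - q.1) i : ℤ) * mesh (K + 1) := by
      rw [hmesh]; unfold hi; push_cast; ring
    have f1 := le_col_iff hδ hg (N := lo (K - q.1) i) (a := x)
    have f2 := le_col_iff hδ hg (N := hi (K - q.1) i) (a := x)
    rw [div_lt_iff₀ hδ] at f1 f2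
    rw [e1, e2, f1, ← not_le, ← not_le (a := hi (K - q.1) i), f2]
    constructor
    · rintro ⟨h1, h2⟩
      exact ⟨by linarith, by linarith⟩
    · rintro ⟨h1, h2⟩
      refine ⟨by linarith, ?_⟩
      rw [not_lt] at h2
      exact lt_of_le_of_ne (by linarith) (fun h3 => hne2 h3.symm)
  rw [mem_verts hδ]
  unfold fat pt
  simp only [Set.mem_ofPred_eq]
  rw [mem_fc, box_eq]
  have k1 := key o.re q.2.1 v.1 hg.1
  have k2 := key o.im q.2.2 v.2 hg.2
  simp only
  tauto

end Pool.Agent.Q1.M3.Pg
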