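import Pool.Agent.Q1.M3.Pg.Ties
import Pool.Agent.H21.Q1.Root2

set_option autoImplicit false
open Finset

/-! Module M3: `MainFace` for the wired labels outside `star K` joined to the tip. -/

namespace Pool.Agent.Q1.M3.Pg

open Pool.Agent.H75.Perc Pool.Agent.H75.TwoArm Pool.Agent.H75.Four
open Pool.Agent.H69.Q1 Pool.Agent.H28.Q1
open Pool.Agent.H75.TwoArm.StrandAux hiding vx_nxC
open Pool.Agent.H77.Q1 (lbf)
open Pool.Agent.H21.Q1 (Sol Wt InvL Mn exists_root main_face kp)

lemma plab_nxC (c : ℤ × ℤ) : plab (nxC c) = lab c := by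
  have h6 := pv_nx ∅ c
  have h7 : nx ∅ c = nxC c := by unfold nx; simp
  rw [h7] at h6
  have := lab_pv ∅ (nxC c)
  rw [h6] at this
  exact this.symm

lemma exists_pC (c : ℤ × ℤ) : ∃ c', nxC c' = c := ⟨pv ∅ c, by
  have h6 := nx_pv ∅ c
  have h7 : nx ∅ (pv ∅ c) = nxC (pv ∅ c) := by unfold nx; simp
  rwa [h7] at h6⟩

/-- **The main face lemma.** -/
theorem mainFace {X : DEnv} {K : Finset (ℤ × ℤ)} (hK : Sol X K) (hL : InvL X) :
    MainFace X K (Wt X K) := by
  intro c e' hcK he' hE hM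
  obtain ⟨j0, t, hR⟩ := exists_root hK
  by_cases hW : e' ∈ X.W
  · have hco : Co X.W (vx X.β) (vx c) := by
      rcases he' with rfl | rfl
      · have := hK.inv.co_of_mem (c := nxC c) (by rw [plab_nxC]; exact hW)
        rwa [Pool.Agent.H75.Perc.vx_nxC] at this
      · exact hK.inv.co_of_mem hW
    rcases main_face hK hR hcK hco hM with h | h
    · exact Or.inr h
    · exact Or.inl ⟨hW, h⟩
  · right
    rcases he' with rfl | rfl
    · obtain ⟨h1, h2⟩ := Pool.Agent.H75.TwoArm.StrandAux.fi_nxC c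
      refine hL (fi c) (fi (nxC c)) h1 ?_ ?_ <;>
        (unfold lbf; rw [h2]; simpa using by assumption)
    · obtain ⟨c', rfl⟩ := exists_pC c
      obtain ⟨h1, h2⟩ := Pool.Agent.H75.TwoArm.StrandAux.fi_nxC c'
      rw [plab_nxC] at hE hW
      refine hL (fi (nxC c')) (fi c') ?_ ?_ ?_
      · have := isUnit4_neg h1
        rwa [neg_sub] at this
      all_goals (unfold lbf; rw [add_comm (fi (nxC c')), h2]; simpa using by assumption)

end Pool.Agent.Q1.M3.Pg
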