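import Pool.Agent.Q1.M3.Pg.Bx
import Pool.Agent.Q1.M3.Step

set_option autoImplicit false
open Finset

/-! Module M3: ties. A path of faces with corners in `T` from the outer face of a side label to a face
with a corner at which a label is not free gives a label outside `E` with a primal and a dual
connection by free labels with both ends in `T`. -/

namespace Pool.Agent.Q1.M3.Pg

open Pool.Agent.H75.Perc Pool.Agent.H75.TwoArm Pool.Agent.H75.Four
open Pool.Agent.H75.TwoArm.StrandAux hiding vx_nxC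
open Pool.Agent.Q1.M4 (Adj4 Conn4 Good IsSide inV inRect)

/-! ### Faces -/

/-- `v` is a corner of the face `f`. -/
def Cf (f v : ℤ × ℤ) : Prop := (v.1 = f.1 ∨ v.1 = f.1 - 1) ∧ (v.2 = f.2 ∨ v.2 = f.2 - 1)

/-- The faces with all corners in `T`. -/
def TF (T : Set (ℤ × ℤ)) : Set (ℤ × ℤ) := {f | ∀ v, Cf f v → v ∈ T}

/-- label between two neighbouring faces -/
def lf2 (f g : ℤ × ℤ) : ℤ × ℤ := f + g - (1, 1)

lemma lf2_ends {f g : ℤ × ℤ} (h : IsUnit4 (g - f)) :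
    ((lf2 f g).1 + (lf2 f g).2) % 2 = 1 ∧ Cf f (eu (lf2 f g)) ∧ Cf f (ev (lf2 f g)) ∧
      Cf g (eu (lf2 f g)) ∧ Cf g (ev (lf2 f g)) := by
  obtain ⟨a, b⟩ := f
  obtain ⟨c, d⟩ := g
  unfold IsUnit4 at h
  unfold lf2 eu ev Cf
  simp only [Prod.mk_sub_mk, Prod.mk.injEq, Prod.mk_add_mk] at h ⊢
  omega

/-- Every corner of the second face is an end of the label between the faces or a neighbour of one of its
ends. -/
lemma corner_near {f g u : ℤ × ℤ} (h : IsUnit4 (g - f)) (hu : Cf g u) :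
    ∃ w, (w = eu (lf2 f g) ∨ w = ev (lf2 f g)) ∧ Cf g w ∧ Cf f w ∧ (u = w ∨ IsUnit4 (u - w)) := by
  obtain ⟨a, b⟩ := f
  obtain ⟨c, d⟩ := g
  obtain ⟨x, y⟩ := u
  unfold IsUnit4 at h ⊢
  unfold Cf at hu ⊢
  unfold lf2 eu ev
  simp only [Prod.mk_sub_mk, Prod.mk.injEq, Prod.mk_add_mk] at h hu ⊢
  rcases h with ⟨h1, h2⟩ | ⟨h1, h2⟩ | ⟨h1, h2⟩ | ⟨h1, h2⟩
  · obtain rfl : c = a + 1 := by omega
    obtain rfl : d = b := by omega
    refine ⟨(a, y), ?_, ⟨Or.inr (by simp), hu.2⟩, ⟨Or.inl rfl, hu.2⟩, ?_⟩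
    · simp only [Prod.mk.injEq]; omega
    · rcases hu.1 with h | h
      · right; left; rw [h]; simp
      · left; rw [h]; simp
  · obtain rfl : c = a := by omega
    obtain rfl : d = b + 1 := by omega
    refine ⟨(x, b), ?_, ⟨hu.1, Or.inr (by simp)⟩, ⟨hu.1, Or.inl rfl⟩, ?_⟩
    · simp only [Prod.mk.injEq]; omega
    · rcases hu.2 with h | h
      · right; right; left; rw [h]; simp
      · left; rw [h]; simp
  · obtain rfl : a = c + 1 := by omega
    obtain rfl : d = b := by omega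
    refine ⟨(c, y), ?_, ⟨Or.inl rfl, hu.2⟩, ⟨Or.inr (by simp), hu.2⟩, ?_⟩
    · simp only [Prod.mk.injEq]; omega
    · rcases hu.1 with h | h
      · left; rw [h]
      · right; right; right; left; rw [h]; simp
  · obtain rfl : c = a := by omega
    obtain rfl : b = d + 1 := by omega
    refine ⟨(x, d), ?_, ⟨hu.1, Or.inl rfl⟩, ⟨hu.1, Or.inr (by simp)⟩, ?_⟩
    · simp only [Prod.mk.injEq]; omega
    · rcases hu.2 with h | h
      · left; rw [h]
      · right; right; right; right; rw [h]; simp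

/-- A step between neighbouring faces. -/
lemma dual_step {M L : Finset (ℤ × ℤ)} {f g : ℤ × ℤ} (h : IsUnit4 (g - f)) (hM : lf2 f g ∈ M)
    (hL : lf2 f g ∉ L) : Co (du M L) f g := by
  refine Relation.ReflTransGen.single ⟨h, ?_⟩
  unfold du
  rw [mem_map]
  refine ⟨lf2 f g, mem_sdiff.2 ⟨hM, hL⟩, ?_⟩
  obtain ⟨a, b⟩ := f
  obtain ⟨c, d⟩ := g
  unfold sh1 lf2
  simp

/-- A step between neighbouring vertices. -/
lemma primal_step {M : Finset (ℤ × ℤ)} {u v : ℤ × ℤ} (h : IsUnit4 (v - u)) (hM : u + v ∈ M) :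
    Co M u v := Relation.ReflTransGen.single ⟨h, hM⟩

lemma exists_corner {f w : ℤ × ℤ} (h : Cf f w) : ∃ c, vx c = w ∧ fi c = f := by
  obtain ⟨a, b⟩ := f
  obtain ⟨x, y⟩ := w
  unfold Cf at h
  simp only at h
  refine ⟨(2 * x + (a - x), 2 * y + (b - y)), ?_, ?_⟩
  · unfold vx
    simp only [Prod.mk.injEq]; omega
  · unfold fi
    simp only [Prod.mk.injEq]; omega

/-- the labels of a corner join its vertex to the other corners of its face -/
lemma lab_corner (c : ℤ × ℤ) : Cf (fi c) (eu (lab c)) ∧ Cf (fi c) (ev (lab c)) ∧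
    Cf (fi c) (eu (plab c)) ∧ Cf (fi c) (ev (plab c)) := by
  obtain ⟨a, b⟩ := c
  unfold Cf fi lab plab eu ev
  rcases (by omega : a % 2 = 0 ∨ a % 2 = 1) with h1 | h1 <;>
    rcases (by omega : b % 2 = 0 ∨ b % 2 = 1) with h2 | h2 <;>
    simp only [h1, h2] <;> simp <;> omega

lemma nxC_cases (a b : ℤ) : (a % 2 = 0 ∧ b % 2 = 0 ∧ nxC (a, b) = (a + 1, b) ∧ lab (a, b) = (a, b - 1) ∧ plab (a, b) = (a - 1, b)) ∨
    (a % 2 = 1 ∧ b % 2 = 0 ∧ nxC (a, b) = (a, b + 1) ∧ lab (a, b) = (a, b) ∧ plab (a, b) = (a - 1, b - 1)) ∨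
    (a % 2 = 1 ∧ b % 2 = 1 ∧ nxC (a, b) = (a - 1, b) ∧ lab (a, b) = (a - 1, b) ∧ plab (a, b) = (a, b - 1)) ∨
    (a % 2 = 0 ∧ b % 2 = 1 ∧ nxC (a, b) = (a, b - 1) ∧ lab (a, b) = (a - 1, b - 1) ∧ plab (a, b) = (a, b)) := by
  unfold nxC lab plab
  rcases (by omega : a % 2 = 0 ∨ a % 2 = 1) with h1 | h1 <;>
    rcases (by omega : b % 2 = 0 ∨ b % 2 = 1) with h2 | h2 <;>
    simp [h1, h2]

/-- the four labels at a vertex -/
lemma star1_corner (c : ℤ × ℤ) {e : ℤ × ℤ} (he : e ∈ star1 (vx c)) :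
    e = lab c ∨ e = plab c ∨ e = lab (nxC c) ∨ e = lab (nxC (nxC c)) := by
  obtain ⟨a, b⟩ := c
  obtain ⟨x, y⟩ := e
  unfold star1 vx at he
  simp only [mem_insert, mem_singleton, Prod.mk.injEq] at he
  rcases nxC_cases a b with ⟨h1, h2, h3, h4, h5⟩ | ⟨h1, h2, h3, h4, h5⟩ | ⟨h1, h2, h3, h4, h5⟩ | ⟨h1, h2, h3, h4, h5⟩
  · rw [h3, h4, h5]
    rcases nxC_cases (a + 1) b with ⟨g1, g2, g3, g4, g5⟩ | ⟨g1, g2, g3, g4, g5⟩ | ⟨g1, g2, g3, g4, g5⟩ | ⟨g1, g2, g3, g4, g5⟩ <;> first | (exfalso; omega) | skip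
    rw [g3, g4]
    rcases nxC_cases (a + 1) (b + 1) with ⟨f1, f2, f3, f4, f5⟩ | ⟨f1, f2, f3, f4, f5⟩ | ⟨f1, f2, f3, f4, f5⟩ | ⟨f1, f2, f3, f4, f5⟩ <;> first | (exfalso; omega) | skip
    rw [f4]
    simp only [Prod.mk.injEq]
    omega
  · rw [h3, h4, h5]
    rcases nxC_cases a (b + 1) with ⟨g1, g2, g3, g4, g5⟩ | ⟨g1, g2, g3, g4, g5⟩ | ⟨g1, g2, g3, g4, g5⟩ | ⟨g1, g2, g3, g4, g5⟩ <;> first | (exfalso; omega) | skip
    rw [g3, g4]
    rcases nxC_cases (a - 1) (b + 1) with ⟨f1, f2, f3, f4, f5⟩ | ⟨f1, f2, f3, f4, f5⟩ | ⟨f1, f2, f3, f4, f5⟩ | ⟨f1, f2, f3, f4, f5⟩ <;> first | (exfalso; omega) | skip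
    rw [f4]
    simp only [Prod.mk.injEq]
    omega
  · rw [h3, h4, h5]
    rcases nxC_cases (a - 1) b with ⟨g1, g2, g3, g4, g5⟩ | ⟨g1, g2, g3, g4, g5⟩ | ⟨g1, g2, g3, g4, g5⟩ | ⟨g1, g2, g3, g4, g5⟩ <;> first | (exfalso; omega) | skip
    rw [g3, g4]
    rcases nxC_cases (a - 1) (b - 1) with ⟨f1, f2, f3, f4, f5⟩ | ⟨f1, f2, f3, f4, f5⟩ | ⟨f1, f2, f3, f4, f5⟩ | ⟨f1, f2, f3, f4, f5⟩ <;> first | (exfalso; omega) | skip
    rw [f4]
    simp only [Prod.mk.injEq]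
    omega
  · rw [h3, h4, h5]
    rcases nxC_cases a (b - 1) with ⟨g1, g2, g3, g4, g5⟩ | ⟨g1, g2, g3, g4, g5⟩ | ⟨g1, g2, g3, g4, g5⟩ | ⟨g1, g2, g3, g4, g5⟩ <;> first | (exfalso; omega) | skip
    rw [g3, g4]
    rcases nxC_cases (a + 1) (b - 1) with ⟨f1, f2, f3, f4, f5⟩ | ⟨f1, f2, f3, f4, f5⟩ | ⟨f1, f2, f3, f4, f5⟩ | ⟨f1, f2, f3, f4, f5⟩ <;> first | (exfalso; omega) | skip
    rw [f4]
    simp only [Prod.mk.injEq]
    omega

/-- A label which is not free at a corner of a face is met after at most one free label. -/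
lemma cor_label {E : Finset (ℤ × ℤ)} {f w : ℤ × ℤ} (hw : Cf f w) (h : ¬ star1 w ⊆ E) :
    ∃ c e', vx c = w ∧ (e' = lab c ∨ e' = plab c) ∧ e' ∉ E ∧ (fi c = f ∨
      (IsUnit4 (fi c - f) ∧ lf2 f (fi c) ∈ E ∧ Cf f (eu (lf2 f (fi c))) ∧ Cf f (ev (lf2 f (fi c))) ∧
        (w = eu (lf2 f (fi c)) ∨ w = ev (lf2 f (fi c))))) := by
  obtain ⟨c0, h1, h2⟩ := exists_corner hw
  have hend : ∀ c : ℤ × ℤ, vx c = eu (lab c) ∨ vx c = ev (lab c) := by
    intro c
    have h3 := lab_star1 c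
    exact (mem_star1_iff (odd_star1 h3)).1 h3
  have hlf : ∀ c : ℤ × ℤ, IsUnit4 (fi (nxC c) - fi c) ∧ lf2 (fi c) (fi (nxC c)) = lab c ∧
      lf2 (fi (nxC c)) (fi c) = lab c := by
    intro c
    obtain ⟨h3, h4⟩ := Pool.Agent.H75.TwoArm.StrandAux.fi_nxC c
    refine ⟨h3, ?_, ?_⟩
    · unfold lf2; rw [h4]; simp
    · unfold lf2; rw [add_comm (fi (nxC c)), h4]; simp
  by_cases e1 : lab c0 ∈ E
  swap
  · exact ⟨c0, lab c0, h1, Or.inl rfl, e1, Or.inl h2⟩
  by_cases e2 : plab c0 ∈ E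
  swap
  · exact ⟨c0, plab c0, h1, Or.inr rfl, e2, Or.inl h2⟩
  have hex : ∃ e ∈ star1 w, e ∉ E := by
    by_contra hcon
    push Not at hcon
    exact h hcon
  obtain ⟨e, he, heE⟩ := hex
  rw [← h1] at he
  have hv1 : vx (nxC c0) = w := by rw [Pool.Agent.H75.Perc.vx_nxC, h1]
  rcases star1_corner c0 he with h3 | h3 | h3 | h3
  · exact absurd (h3 ▸ e1) heE
  · exact absurd (h3 ▸ e2) heE
  · refine ⟨nxC c0, e, hv1, Or.inl h3, heE, Or.inr ?_⟩
    obtain ⟨g1, g2, -⟩ := hlf c0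
    rw [h2] at g1 g2
    rw [g2]
    have := lab_corner c0
    rw [h2] at this
    exact ⟨g1, e1, this.1, this.2.1, by rw [← h1]; exact hend c0⟩
  · -- the corner before `c0`
    set c1 := nxC (nxC (nxC c0)) with hc1
    have h4 : nxC c1 = c0 := by
      rw [hc1]
      obtain ⟨a, b⟩ := c0
      rcases nxC_cases a b with ⟨p1, p2, p3, -, -⟩ | ⟨p1, p2, p3, -, -⟩ | ⟨p1, p2, p3, -, -⟩ |
        ⟨p1, p2, p3, -, -⟩
      · rw [p3]
        have q : nxC (a + 1, b) = (a + 1, b + 1) := by unfold nxC; simp [p2, show (a + 1) % 2 = 1 by omega]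
        have q2 : nxC (a + 1, b + 1) = (a, b + 1) := by
          unfold nxC; simp [show (a + 1) % 2 = 1 by omega, show (b + 1) % 2 = 1 by omega]
        have q3 : nxC (a, b + 1) = (a, b) := by
          unfold nxC; simp [p1, show (b + 1) % 2 = 1 by omega]
        rw [q, q2, q3]
      · rw [p3]
        have q : nxC (a, b + 1) = (a - 1, b + 1) := by
          unfold nxC; simp [p1, show (b + 1) % 2 = 1 by omega]
        have q2 : nxC (a - 1, b + 1) = (a - 1, b) := by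
          unfold nxC; simp [show (a - 1) % 2 = 0 by omega, show (b + 1) % 2 = 1 by omega]
        have q3 : nxC (a - 1, b) = (a, b) := by
          unfold nxC; simp [p2, show (a - 1) % 2 = 0 by omega]
        rw [q, q2, q3]
      · rw [p3]
        have q : nxC (a - 1, b) = (a - 1, b - 1) := by
          unfold nxC; simp [p2, show (a - 1) % 2 = 0 by omega]
        have q2 : nxC (a - 1, b - 1) = (a, b - 1) := by
          unfold nxC; simp [show (a - 1) % 2 = 0 by omega, show (b - 1) % 2 = 0 by omega]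
        have q3 : nxC (a, b - 1) = (a, b) := by
          unfold nxC; simp [p1, show (b - 1) % 2 = 0 by omega]
        rw [q, q2, q3]
      · rw [p3]
        have q : nxC (a, b - 1) = (a + 1, b - 1) := by
          unfold nxC; simp [p1, show (b - 1) % 2 = 0 by omega]
        have q2 : nxC (a + 1, b - 1) = (a + 1, b) := by
          unfold nxC; simp [show (a + 1) % 2 = 1 by omega, show (b - 1) % 2 = 0 by omega]
        have q3 : nxC (a + 1, b) = (a, b) := by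
          unfold nxC; simp [p2, show (a + 1) % 2 = 1 by omega]
        rw [q, q2, q3]
    have h5 : plab c1 = lab (nxC (nxC c0)) := by
      have := lab_pv ∅ c1
      have h6 : pv ∅ (nxC (nxC (nxC c0))) = nxC (nxC c0) := by
        have := pv_nx ∅ (nxC (nxC c0))
        unfold nx at this
        simpa using this
      rw [hc1, h6] at this
      exact this.symm
    have h6 : lab c1 = plab c0 := by
      have := lab_pv ∅ c0
      have h7 : pv ∅ c0 = c1 := by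
        have := pv_nx ∅ c1
        unfold nx at this
        simp only [notMem_empty, if_false] at this
        rwa [h4] at this
      rw [h7] at this
      exact this
    have hv2 : vx c1 = w := by
      have h7 := Pool.Agent.H75.Perc.vx_nxC c1
      rw [h4, h1] at h7
      exact h7.symm
    refine ⟨c1, e, hv2, Or.inr (by rw [h3, h5]), heE, Or.inr ?_⟩
    obtain ⟨g1, g2, g3⟩ := hlf c1
    rw [h4, h2] at g1 g3
    rw [h4, h2] at g2
    have hsw : lf2 f (fi c1) = plab c0 := by rw [g3, h6]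
    rw [hsw]
    have := lab_corner c0
    rw [h2] at this
    refine ⟨?_, e2, this.2.2.1, this.2.2.2, ?_⟩
    · have := isUnit4_neg g1
      rwa [neg_sub] at this
    · rw [← hv2, ← h6]; exact hend c1

/-! ### Ties -/

/-- free labels with both ends in `T` -/
noncomputable def mt (E T : Finset (ℤ × ℤ)) : Finset (ℤ × ℤ) :=
  E.filter fun e => eu e ∈ T ∧ ev e ∈ T

/-- free labels with an end in `T` and both ends in `T ∪ B` -/
noncomputable def mt2 (E T B : Finset (ℤ × ℤ)) : Finset (ℤ × ℤ) :=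
  E.filter fun e => (eu e ∈ T ∨ ev e ∈ T) ∧ (eu e ∈ T ∪ B ∧ ev e ∈ T ∪ B)

/-- A tie found from the face `g0`. -/
def TieF (E T B : Finset (ℤ × ℤ)) (g0 : ℤ × ℤ) : Prop :=
  ∃ c e', vx c ∈ T ∧ (e' = lab c ∨ e' = plab c) ∧ e' ∉ E ∧ Co (du (mt2 E T B) ∅) g0 (fi c) ∧
    ∃ b ∈ B, ∃ y ∈ T, IsUnit4 (y - b) ∧ Cf g0 b ∧ Cf g0 y ∧ Co (mt E T) y (vx c)

/-- **Ties.** -/
theorem tie_exists {E T B : Finset (ℤ × ℤ)} (hB : ∀ b ∈ B, star1 b ⊆ E)
    {g0 : ℤ × ℤ} (hg0 : ∀ u, Cf g0 u → u ∈ T ∪ B)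
    (hadj : ∀ y ∈ T, Cf g0 y → ∃ b ∈ B, Cf g0 b ∧ IsUnit4 (y - b))
    {gn : ℤ × ℤ} (hpath : LP (TF (T : Set (ℤ × ℤ))) g0 gn)
    (hgn : ∃ u, Cf gn u ∧ ¬ star1 u ⊆ E) : TieF E T B g0 := by
  -- labels between neighbours
  have hlab : ∀ u w : ℤ × ℤ, IsUnit4 (u - w) → star1 w ⊆ E → w ∈ T → u ∈ T → w + u ∈ mt E T := by
    intro u w hu hw hwT huT
    have hodd : ((w + u).1 + (w + u).2) % 2 = 1 := by
      obtain ⟨a, b⟩ := u
      obtain ⟨c, d⟩ := w
      unfold IsUnit4 at hu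
      simp only [Prod.mk_sub_mk, Prod.mk.injEq, Prod.mk_add_mk] at hu ⊢
      omega
    have hends : (w = eu (w + u) ∧ u = ev (w + u)) ∨ (w = ev (w + u) ∧ u = eu (w + u)) := by
      obtain ⟨a, b⟩ := u
      obtain ⟨c, d⟩ := w
      unfold IsUnit4 at hu
      unfold eu ev
      simp only [Prod.mk_sub_mk, Prod.mk.injEq, Prod.mk_add_mk] at hu ⊢
      omega
    unfold mt
    rw [mem_filter]
    refine ⟨hw ((mem_star1_iff hodd).2 ?_), ?_⟩
    · rcases hends with h | h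
      · exact Or.inl h.1
      · exact Or.inr h.1
    · rcases hends with h | h
      · rw [← h.1, ← h.2]; exact ⟨hwT, huT⟩
      · rw [← h.1, ← h.2]; exact ⟨huT, hwT⟩
  -- conclusion from a vertex
  have found : ∀ f w, Co (du (mt2 E T B) ∅) g0 f → Cf f w → w ∈ T → ¬ star1 w ⊆ E →
      (∀ u, Cf f u → u ∈ T ∪ B) → (∃ b ∈ B, ∃ y ∈ T, IsUnit4 (y - b) ∧ Cf g0 b ∧ Cf g0 y ∧
        Co (mt E T) y w) → TieF E T B g0 := by
    intro f w h1 h2 h3 h4 h5 h6
    obtain ⟨c, e', g1, g2, g3, g4⟩ := cor_label h2 h4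
    refine ⟨c, e', by rw [g1]; exact h3, g2, g3, ?_, ?_⟩
    · rcases g4 with g4 | ⟨g4, g5, g6, g7, g8⟩
      · rw [g4]; exact h1
      · refine h1.trans (dual_step g4 ?_ (notMem_empty _))
        unfold mt2
        rw [mem_filter]
        refine ⟨g5, ?_, h5 _ g6, h5 _ g7⟩
        rcases g8 with g8 | g8
        · left; rw [← g8]; exact h3
        · right; rw [← g8]; exact h3
    · rw [g1]; exact h6
  -- induction
  have key : ∀ f, LP (TF (T : Set (ℤ × ℤ))) g0 f → TieF E T B g0 ∨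
      ((∀ u, Cf f u → star1 u ⊆ E) ∧ Co (du (mt2 E T B) ∅) g0 f ∧
        (∀ u, Cf f u → u ∈ T → ∃ b ∈ B, ∃ y ∈ T, IsUnit4 (y - b) ∧ Cf g0 b ∧ Cf g0 y ∧
          Co (mt E T) y u)) := by
    intro f hf
    induction hf with
    | refl =>
      by_cases hall : ∀ u, Cf g0 u → star1 u ⊆ E
      · refine Or.inr ⟨hall, Co.refl _ _, fun u hu huT => ?_⟩
        obtain ⟨b, hb, h1, h2⟩ := hadj u huT hu
        exact ⟨b, hb, u, huT, h2, h1, hu, Co.refl _ _⟩
      · push Not at hall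
        obtain ⟨u, hu, huE⟩ := hall
        have huT : u ∈ T := by
          rcases mem_union.1 (hg0 u hu) with h | h
          · exact h
          · exact absurd (hB u h) huE
        obtain ⟨b, hb, h1, h2⟩ := hadj u huT hu
        exact Or.inl (found g0 u (Co.refl _ _) hu huT huE hg0
          ⟨b, hb, u, huT, h2, h1, hu, Co.refl _ _⟩)
    | @tail f f' _ hstep ih =>
      rcases ih with ih | ⟨i1, i2, i3⟩
      · exact Or.inl ih
      obtain ⟨hu4, hfT⟩ := hstep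
      obtain ⟨o1, o2, o3, o4, o5⟩ := lf2_ends hu4
      have hT1 : eu (lf2 f f') ∈ T := by exact_mod_cast hfT _ o4
      have hT2 : ev (lf2 f f') ∈ T := by exact_mod_cast hfT _ o5
      have hlE : lf2 f f' ∈ E := i1 _ o2 ((mem_star1_iff o1).2 (Or.inl rfl))
      have hdual : Co (du (mt2 E T B) ∅) g0 f' := by
        refine i2.trans (dual_step hu4 ?_ (notMem_empty _))
        unfold mt2
        rw [mem_filter]
        exact ⟨hlE, Or.inl hT1, mem_union_left _ hT1, mem_union_left _ hT2⟩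
      have hcon : ∀ u, Cf f' u → ∃ b ∈ B, ∃ y ∈ T, IsUnit4 (y - b) ∧ Cf g0 b ∧ Cf g0 y ∧
          Co (mt E T) y u := by
        intro u hu
        obtain ⟨w, h1, h2, h3, h4⟩ := corner_near hu4 hu
        have hwT : w ∈ T := by exact_mod_cast hfT _ h2
        have huT : u ∈ T := by exact_mod_cast hfT _ hu
        obtain ⟨b, hb, y, hy, g1, g2, g3, g4⟩ := i3 w h3 hwT
        refine ⟨b, hb, y, hy, g1, g2, g3, ?_⟩
        rcases h4 with h4 | h4
        · rw [h4]; exact g4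
        · exact g4.trans (primal_step h4 (hlab u w h4 (i1 w h3) hwT huT))
      by_cases hall : ∀ u, Cf f' u → star1 u ⊆ E
      · exact Or.inr ⟨hall, hdual, fun u hu _ => hcon u hu⟩
      · push Not at hall
        obtain ⟨u, hu, huE⟩ := hall
        have huT : u ∈ T := by exact_mod_cast hfT _ hu
        exact Or.inl (found f' u hdual hu huT huE
          (fun v hv => mem_union_left _ (by exact_mod_cast hfT _ hv)) (hcon u hu))
  obtain ⟨u, hu, huE⟩ := hgn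
  rcases key gn hpath with h | h
  · exact h
  · exact absurd (h.1 u hu) huE

end Pool.Agent.Q1.M3.Pg
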