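import Pool.Agent.Q1.M3.Pg.Latt
import Pool.Agent.Q1.M3.State
import Pool.Agent.H42.Q1.Cells
import Pool.Agent.H42.Q1.Route
import Pool.Agent.H14.Jordan.Bridge

set_option autoImplicit false
open Finset Filter Topology

/-! Module M3: the data of a step are regular (`SD.Ok`), except for the facts about the tip. -/

namespace Pool.Agent.Q1.M3.Pg

open Pool.Agent.H75.Perc Pool.Agent.H75.TwoArm Pool.Agent.H75.Four Pool.Agent.H69.Q1
open Pool.Agent.Q1.M4 (Adj4 Conn4)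
open Pool.Agent.H81.Q1 (pt DDomain Approx IsJordanDomain IsArcs)

/-- The unit cell of the grid of mesh `3^(-K-1)` containing a point. -/
noncomputable def ucel (o : ℂ) (K : ℕ) (z : ℂ) : ℤ × ℤ :=
  (⌊(z.re - o.re) / mesh (K + 1)⌋, ⌊(z.im - o.im) / mesh (K + 1)⌋)

lemma box_eq_ucel (δ : ℝ) (o : ℂ) (K : ℕ) (v : ℤ × ℤ) : box δ o K v = ucel o K (pt δ v) := rfl

lemma mesh_unit {K k : ℕ} (h : k ≤ K) : mesh k = 3 ^ (K - k) * (3 * mesh (K + 1)) := by
  unfold mesh
  have h1 : (1 / 3 : ℝ) ^ (K + 1) = (1 / 3) ^ k * ((1 / 3) ^ (K - k) * (1 / 3)) := by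
    rw [← mul_assoc, ← pow_add, show k + (K - k) = K by omega, pow_succ]
  rw [h1]
  have h2 : (3 : ℝ) ^ (K - k) * (1 / 3) ^ (K - k) = 1 := by
    rw [← mul_pow]; norm_num
  calc (1 / 3 : ℝ) ^ k = (1 / 3) ^ k * 1 := by ring
    _ = (1 / 3) ^ k * (3 ^ (K - k) * (1 / 3) ^ (K - k)) := by rw [h2]
    _ = _ := by ring

/-- the two lines of a fat cell in one coordinate -/
lemma lines {K k : ℕ} (h : k ≤ K) (a : ℝ) (i : ℤ) :
    a + (i - 1 / 3) * mesh k = a + (lo (K - k) i : ℤ) * mesh (K + 1) ∧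
    a + (i + 4 / 3) * mesh k = a + (hi (K - k) i : ℤ) * mesh (K + 1) := by
  rw [mesh_unit h]
  unfold lo hi
  push_cast
  constructor <;> ring

/-- The unit cell of a point of a fat cell. -/
lemma ucel_mem {o : ℂ} {K : ℕ} {q : Cell} (hq : q.1 ≤ K) {z : ℂ} (hz : z ∈ fat o q) :
    ucel o K z ∈ fc K q := by
  obtain ⟨h1, h2, h3, h4⟩ := hz
  have hp := mesh_pos (K + 1)
  rw [(lines hq _ _).1] at h1 h3
  rw [(lines hq _ _).2] at h2 h4
  rw [mem_fc]
  unfold ucel
  simp only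
  rw [Int.le_floor, Int.floor_lt, Int.le_floor, Int.floor_lt, le_div_iff₀ hp, div_lt_iff₀ hp,
    le_div_iff₀ hp, div_lt_iff₀ hp]
  refine ⟨⟨?_, ?_⟩, ?_, ?_⟩ <;> linarith

/-- The corner of a unit cell of a fat cell is in the closed fat cell. -/
lemma corner_mem {o : ℂ} {K : ℕ} {q : Cell} (hq : q.1 ≤ K) {c : ℤ × ℤ} (hc : c ∈ fc K q) :
    (⟨o.re + c.1 * mesh (K + 1), o.im + c.2 * mesh (K + 1)⟩ : ℂ) ∈ cfat o q := by
  rw [mem_fc] at hc
  obtain ⟨⟨h1, h2⟩, h3, h4⟩ := hc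
  have hp := mesh_pos (K + 1)
  unfold cfat
  rw [Set.mem_ofPred_eq, (lines hq _ _).1, (lines hq _ _).2, (lines hq _ _).1, (lines hq _ _).2]
  simp only
  have g1 : ((lo (K - q.1) q.2.1 : ℤ) : ℝ) ≤ c.1 := by exact_mod_cast h1
  have g2 : (c.1 : ℝ) ≤ ((hi (K - q.1) q.2.1 : ℤ) : ℝ) := by exact_mod_cast h2.le
  have g3 : ((lo (K - q.1) q.2.2 : ℤ) : ℝ) ≤ c.2 := by exact_mod_cast h3
  have g4 : (c.2 : ℝ) ≤ ((hi (K - q.1) q.2.2 : ℤ) : ℝ) := by exact_mod_cast h4.le
  refine ⟨?_, ?_, ?_, ?_⟩ <;> nlinarith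

lemma adjC_meet {o : ℂ} {K : ℕ} {q q' : Cell} (hq : q.1 ≤ K) (hq' : q'.1 ≤ K)
    (h : AdjC o q q') : ∃ c, c ∈ fc K q ∧ c ∈ fc K q' := by
  obtain ⟨z, hz, hz'⟩ := h
  exact ⟨ucel o K z, ucel_mem hq hz, ucel_mem hq' hz'⟩

/-- **A connected family of fat cells is a connected set of unit cells.** -/
theorem conn_flat {o : ℂ} {K : ℕ} {F : Finset Cell} (hF : ∀ q ∈ F, q.1 ≤ K) {qb : Cell}
    (h : ∀ q ∈ F, Relation.ReflTransGen (fun x y => AdjC o x y ∧ x ∈ F ∧ y ∈ F) q qb) :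
    Conn4 (flat K F : Set (ℤ × ℤ)) := by
  have sub : ∀ q ∈ F, (fc K q : Set (ℤ × ℤ)) ⊆ (flat K F : Set (ℤ × ℤ)) := fun q hq => by
    exact_mod_cast fc_subset_flat hq
  have key : ∀ q, Relation.ReflTransGen (fun x y => AdjC o x y ∧ x ∈ F ∧ y ∈ F) q qb → q ∈ F →
      qb ∈ F ∧ ∀ c ∈ fc K q, ∀ c' ∈ fc K qb, J4 (flat K F : Set (ℤ × ℤ)) c c' := by
    intro q hq
    induction hq using Relation.ReflTransGen.head_induction_on with
    | refl =>
      intro hqF
      exact ⟨hqF, fun c hc c' hc' => J4.mono (sub _ hqF) (fc_conn K qb c hc c' hc')⟩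
    | @head x y hxy _ ih =>
      intro hx
      obtain ⟨h1, h2, h3⟩ := hxy
      obtain ⟨g1, g2⟩ := ih h3
      refine ⟨g1, fun c hc c' hc' => ?_⟩
      obtain ⟨m, hm, hm'⟩ := adjC_meet (hF x h2) (hF y h3) h1
      exact (J4.mono (sub x h2) (fc_conn K x c hc m hm)).trans (g2 m hm' c' hc')
  intro c hc d hd
  obtain ⟨q, hq, hcq⟩ := mem_flat.1 (by exact_mod_cast hc : c ∈ flat K F)
  obtain ⟨q', hq', hdq⟩ := mem_flat.1 (by exact_mod_cast hd : d ∈ flat K F)
  obtain ⟨-, h1⟩ := key q (h q hq) hq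
  obtain ⟨-, h2⟩ := key q' (h q' hq') hq'
  have h3 := fc_ne K qb
  exact (h1 c hcq _ h3).trans ((h2 d hdq _ h3).symm (sub q' hq' hdq))

/-- The unit cells of families of cells in disjoint sets are disjoint. -/
lemma flat_disj {o : ℂ} {K : ℕ} {F G : Finset Cell} {S T : Set ℂ} (hST : Disjoint S T)
    (hF : ∀ q ∈ F, q.1 ≤ K ∧ cfat o q ⊆ S) (hG : ∀ q ∈ G, q.1 ≤ K ∧ cfat o q ⊆ T) {c : ℤ × ℤ}
    (hc : c ∈ flat K F) : c ∉ flat K G := by
  intro hc'
  obtain ⟨q, hq, hcq⟩ := mem_flat.1 hc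
  obtain ⟨q', hq', hcq'⟩ := mem_flat.1 hc'
  exact Set.disjoint_left.1 hST ((hF q hq).2 (corner_mem (hF q hq).1 hcq))
    ((hG q' hq').2 (corner_mem (hG q' hq').1 hcq'))

/-- **Exterior points are outside the filling.** -/
theorem exists_out {D : Set ℂ} (hD : IsJordanDomain D) (o : ℂ) {z : ℂ} (hz : z ∉ closure D) :
    ∃ K1, ∀ K, K1 ≤ K → ∀ F : Finset Cell, (∀ q ∈ F, q.1 ≤ K ∧ cfat o q ⊆ D) →
      ucel o K z ∉ fill (flat K F) := by
  have hDb := hD.2.2.1
  obtain ⟨R, hR⟩ := hDb.subset_closedBall 0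
  have hcl : closure D ⊆ Metric.closedBall 0 R := closure_minimal hR Metric.isClosed_closedBall
  set w : ℂ := ⟨2 * o.re + (|R| + |o.re| + |o.im| + 3) - o.re + |o.re|, 0⟩ with hw
  have hwre : w.re = o.re + (|R| + |o.re| + |o.im| + 3) + |o.re| := by rw [hw]; ring
  have hwD : w ∉ closure D := by
    intro h
    have h1 := hcl h
    rw [Metric.mem_closedBall, dist_zero_right] at h1
    have h2 := (Complex.abs_re_le_norm w).trans h1
    have h3 := le_abs_self w.re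
    have h4 := le_abs_self R
    have h5 := neg_abs_le o.re
    have h6 := abs_nonneg o.im
    have h7 := abs_nonneg o.re
    rw [hwre] at h2 h3
    linarith
  have hext := Pool.Agent.H14.Jordan.ext_connected hD
  obtain ⟨k1, hk1⟩ := Pool.Agent.H42.Q1.exists_cells (U := (closure D)ᶜ) (K := {z, w})
    isClosed_closure.isOpen_compl hext.isPreconnected (Set.toFinite _).isCompact
    (by
      rintro x (rfl | rfl)
      · exact hz
      · exact hwD) o
  refine ⟨k1, fun K hK F hF => ?_⟩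
  obtain ⟨C, h1, h2, h3⟩ := hk1 K hK
  obtain ⟨q, hq, hzq⟩ := h2 z (by simp)
  obtain ⟨q', hq', hwq⟩ := h2 w (by simp)
  have hlev : ∀ q ∈ C, q.1 ≤ K := fun q hq => (h1 q hq).1.le
  have hconn := conn_flat (o := o) (K := K) hlev (qb := q) (fun x hx => h3 x hx q hq)
  have hdisj : ∀ c ∈ flat K C, c ∉ flat K F := fun c hc =>
    flat_disj (S := (closure D)ᶜ) (T := D)
      (Set.disjoint_left.2 fun x hx hx' => hx (subset_closure hx'))
      (fun q hq => ⟨hlev q hq, (h1 q hq).2⟩) hF hc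
  have hz1 : ucel o K z ∈ flat K C := mem_flat.2 ⟨q, hq, ucel_mem (hlev q hq) hzq⟩
  have hw1 : ucel o K w ∈ flat K C := mem_flat.2 ⟨q', hq', ucel_mem (hlev q' hq') hwq⟩
  have hp := mesh_pos (K + 1)
  -- the far cell
  have hfar : ucel o K w ∈ Ext (flat K F) := by
    apply ext_of_far
    left
    have hb : (bd (flat K F) : ℤ) ≤ ⌈(|R| + |o.re| + |o.im|) / mesh (K + 1)⌉ := by
      have h5 : bd (flat K F) ≤ ⌈(|R| + |o.re| + |o.im|) / mesh (K + 1)⌉.toNat := by
        unfold bd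
        refine Finset.sup_le fun c hc => ?_
        obtain ⟨p, hp1, hp2⟩ := mem_flat.1 hc
        have h6 := hR ((hF p hp1).2 (corner_mem (o := o) (hF p hp1).1 hp2))
        rw [Metric.mem_closedBall, dist_zero_right] at h6
        have h7 := (Complex.abs_re_le_norm _).trans h6
        have h8 := (Complex.abs_im_le_norm _).trans h6
        simp only at h7 h8
        have gen : ∀ (a : ℝ) (x : ℤ), |a + x * mesh (K + 1)| ≤ R → |a| ≤ |o.re| + |o.im| →
            x.natAbs ≤ ⌈(|R| + |o.re| + |o.im|) / mesh (K + 1)⌉.toNat := by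
          intro a x hx ha
          have e1 : |(x : ℝ) * mesh (K + 1)| ≤ |R| + |o.re| + |o.im| := by
            have e2 : (x : ℝ) * mesh (K + 1) = (a + x * mesh (K + 1)) - a := by ring
            rw [e2]
            refine (abs_sub _ _).trans ?_
            have := le_abs_self R
            linarith
          rw [abs_mul, abs_of_pos hp, ← le_div_iff₀ hp] at e1
          have e3 : ((x.natAbs : ℤ) : ℝ) ≤ ((⌈(|R| + |o.re| + |o.im|) / mesh (K + 1)⌉ : ℤ) : ℝ) := by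
            rw [Int.natCast_natAbs, Int.cast_abs]
            exact e1.trans (Int.le_ceil _)
          have e4 : (x.natAbs : ℤ) ≤ ⌈(|R| + |o.re| + |o.im|) / mesh (K + 1)⌉ := by
            exact_mod_cast e3
          omega
        refine max_le (gen _ _ h7 ?_) (gen _ _ h8 ?_)
        · have := abs_nonneg o.im; linarith
        · have := abs_nonneg o.re; linarith
      have h6 : 0 ≤ ⌈(|R| + |o.re| + |o.im|) / mesh (K + 1)⌉ := by
        refine Int.ceil_nonneg ?_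
        positivity
      omega
    refine lt_of_le_of_lt hb ?_
    refine lt_of_lt_of_le ?_ (le_abs_self _)
    unfold ucel
    simp only
    have e1 : (|R| + |o.re| + |o.im|) / mesh (K + 1) + 3 ≤ (w.re - o.re) / mesh (K + 1) := by
      rw [hwre, div_add' _ _ _ hp.ne']
      gcongr
      have e2 : mesh (K + 1) ≤ 1 := by
        unfold mesh
        exact pow_le_one₀ (by norm_num) (by norm_num)
      have := abs_nonneg o.re
      linarith
    have e3 := Int.ceil_lt_add_one ((|R| + |o.re| + |o.im|) / mesh (K + 1))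
    have e4 := Int.lt_floor_add_one ((w.re - o.re) / mesh (K + 1))
    have e5 : ((⌈(|R| + |o.re| + |o.im|) / mesh (K + 1)⌉ : ℤ) : ℝ) <
        ((⌊(w.re - o.re) / mesh (K + 1)⌋ : ℤ) : ℝ) := by linarith
    exact_mod_cast e5
  rw [mem_fill, not_not]
  have hJ : J4 ((flat K F : Set (ℤ × ℤ))ᶜ) (ucel o K w) (ucel o K z) := by
    refine J4.mono ?_ (hconn _ (by exact_mod_cast hw1) _ (by exact_mod_cast hz1))
    intro c hc hc'
    exact hdisj c (by exact_mod_cast hc) (by exact_mod_cast hc')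
  exact J4.trans hfar hJ

/-! ### Families joined to the base cell -/

/-- A family joined to the base cell, together with the chain relation inside the family. -/
lemma reach_of_conn {o : ℂ} {F : Finset Cell} {S : Cell → Prop} {b : Cell} {k : ℕ} {q : Cell}
    (hb : b ∈ F) (hS : ∀ x, ConnC o S b k x → x ∈ F) (h : ConnC o S b k q) :
    Relation.ReflTransGen (fun x y => AdjC o x y ∧ x ∈ F ∧ y ∈ F) q b := by
  refine ConnC.induct (P := fun x => Relation.ReflTransGen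
    (fun x y => AdjC o x y ∧ x ∈ F ∧ y ∈ F) x b) ?_ ?_ h
  · intro x hx hSx ha
    exact Relation.ReflTransGen.single ⟨ha, hS x (ConnC.single hx hSx ha), hb⟩
  · intro x y hx hSx ha hc ih
    exact Relation.ReflTransGen.head ⟨ha, hS x (ConnC.cons hx hSx ha hc), hS y hc⟩ ih

section

variable {D : Set ℂ} {a b : ℂ} {A₁ A₂ : Set ℂ} {A : Approx D a b A₁ A₂} {r0 : ℝ} (B : Base A r0)

lemma base_reach {M : ℕ} {F : Finset Cell} (hF : B.Q M ⊆ F) {q : Cell} (hq : q ∈ B.Q M) :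
    Relation.ReflTransGen (fun x y => AdjC B.o x y ∧ x ∈ F ∧ y ∈ F) q B.qb := by
  have hqb : B.qb ∈ B.Q M := by
    have : ∀ M, B.qb ∈ B.Q M := by
      intro M
      induction M with
      | zero => exact B.qb_mem
      | succ M ih => exact B.mono M ih
    exact this M
  refine Relation.ReflTransGen.mono ?_ _ _ (B.connQ M q hq B.qb hqb)
  rintro x y ⟨h1, h2, h3⟩
  exact ⟨h1, hF h2, hF h3⟩

lemma qb_mem_Q (M : ℕ) : B.qb ∈ B.Q M := by
  induction M with
  | zero => exact B.qb_mem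
  | succ M ih => exact B.mono M ih

/-- Levels of the barrier cells. -/
lemma exists_lev (M : ℕ) : ∃ L, ∀ q ∈ B.Q M, q.1 < L :=
  ⟨(B.Q M).sup (fun q => q.1) + 1, fun q hq => by
    have := Finset.le_sup (f := fun q : Cell => q.1) hq
    omega⟩

/-- The data of a step. -/
noncomputable def mkSD (K : ℕ) (δ : ℝ) (E : Finset (ℤ × ℤ)) (C : Finset Cell) (M : ℕ) (BB : Cell)
    (z : ℂ) (s : (ℤ × ℤ) × ℤ) : SD where
  K := K
  U := Uk D δ B.o B.qb K E
  C := C ∪ B.Q M
  B := BB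
  b0 := ucel B.o K z
  s := s

/-- The visible family together with a coarse family is connected. -/
theorem connP (hDb : Bornology.IsBounded D) {K M : ℕ} (hM : ∀ q ∈ B.Q M, q.1 ≤ K) {δ : ℝ}
    {E : Finset (ℤ × ℤ)} {C : Finset Cell} (hC : ∀ q ∈ C, q.1 ≤ K) (hL : Lev B.o B.qb C) :
    Conn4 (PP K (Uk D δ B.o B.qb K E) (C ∪ B.Q M) : Set (ℤ × ℤ)) := by
  unfold PP
  apply fill_conn
  have hqb : B.qb ∈ Uk D δ B.o B.qb K E ∪ (C ∪ B.Q M) :=
    mem_union_right _ (mem_union_right _ (qb_mem_Q B M))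
  refine conn_flat (o := B.o) (qb := B.qb) ?_ ?_
  · intro q hq
    rcases mem_union.1 hq with h | h
    · rw [mem_Uk hDb] at h
      rw [h.head.1]
    · rcases mem_union.1 h with h | h
      · exact hC q h
      · exact hM q h
  · intro q hq
    rcases mem_union.1 hq with h | h
    · exact reach_of_conn hqb (fun x hx => mem_union_left _ ((mem_Uk hDb).2 hx))
        ((mem_Uk hDb).1 h)
    · rcases mem_union.1 h with h | h
      · exact reach_of_conn hqb
          (fun x hx => mem_union_right _ (mem_union_left _ hx.head.2)) (hL q h)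
      · exact base_reach B (subset_union_right.trans subset_union_right) h

theorem connC {K M : ℕ} (hM : ∀ q ∈ B.Q M, q.1 ≤ K) {C : Finset Cell} (hC : ∀ q ∈ C, q.1 ≤ K)
    (hL : Lev B.o B.qb C) : Conn4 (flat K (C ∪ B.Q M) : Set (ℤ × ℤ)) := by
  have hqb : B.qb ∈ C ∪ B.Q M := mem_union_right _ (qb_mem_Q B M)
  refine conn_flat (o := B.o) (qb := B.qb) ?_ ?_
  · intro q hq
    rcases mem_union.1 hq with h | h
    · exact hC q h
    · exact hM q h
  · intro q hq
    rcases mem_union.1 hq with h | h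
    · exact reach_of_conn hqb (fun x hx => mem_union_left _ hx.head.2) (hL q h)
    · exact base_reach B subset_union_right h

/-- **The data of a step are regular** up to the tip. -/
theorem mkSD_ok (hD : IsJordanDomain D) (hb : b ∈ frontier D) {M : ℕ} {BB : Cell} {z : ℂ}
    (hz : z ∈ fat B.o BB) (hzq : ∃ q ∈ B.Q M, z ∈ fat B.o q) (hbB : b ∈ fat B.o BB) :
    ∃ K1, ∀ K, K1 ≤ K → ∀ (δ : ℝ) (E : Finset (ℤ × ℤ)) (C : Finset Cell),
      (∀ q ∈ C, q.1 < K ∧ cfat B.o q ⊆ D) → Lev B.o B.qb C → ∀ s : (ℤ × ℤ) × ℤ,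
      s.1 ∈ (mkSD B K δ E C M BB z s).P → s.1 ∉ (mkSD B K δ E C M BB z s).H2 →
      outc s ∉ (mkSD B K δ E C M BB z s).P → (mkSD B K δ E C M BB z s).Ok := by
  have hDb := hD.2.2.1
  obtain ⟨L, hL⟩ := exists_lev B M
  obtain ⟨q0, hq0, hzq0⟩ := hzq
  -- exterior point in the box
  obtain ⟨z', hz', hz'D⟩ : ∃ z' ∈ fat B.o BB, z' ∉ closure D := by
    have h1 := Pool.Agent.H14.Jordan.frontier_subset_ext hD hb
    obtain ⟨z', h2, h3⟩ := mem_closure_iff.1 h1 _ (Pool.Agent.H42.Q1.isOpen_fat B.o BB) hbB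
    exact ⟨z', h2, h3⟩
  obtain ⟨K2, hK2⟩ := exists_out hD B.o hz'D
  refine ⟨max (max L (BB.1 + 1)) K2, fun K hK δ E C hC hLev s h1 h2 h3 => ?_⟩
  have k1 : L ≤ K := (le_max_left _ _).trans ((le_max_left _ _).trans hK)
  have k2 : BB.1 + 1 ≤ K := (le_max_right _ _).trans ((le_max_left _ _).trans hK)
  have k3 : K2 ≤ K := (le_max_right _ _).trans hK
  have hM : ∀ q ∈ B.Q M, q.1 ≤ K := fun q hq => (hL q hq).le.trans k1
  have hM' : ∀ q ∈ B.Q M, q.1 < K := fun q hq => lt_of_lt_of_le (hL q hq) k1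
  have hCle : ∀ q ∈ C, q.1 ≤ K := fun q hq => (hC q hq).1.le
  refine ⟨⟨?_, ?_, by change BB.1 < K; omega⟩, connP B hDb hM hCle hLev, connC B hM hCle hLev,
    ?_, ?_, ?_, h1, h2, h3⟩
  · intro q hq
    change q ∈ Uk D δ B.o B.qb K E at hq
    rw [mem_Uk hDb] at hq
    exact hq.head.1
  · intro q hq
    change q ∈ C ∪ B.Q M at hq
    rcases mem_union.1 hq with h | h
    · exact (hC q h).1
    · exact hM' q h
  · exact mem_flat.2 ⟨q0, mem_union_right _ hq0, ucel_mem (hM q0 hq0) hzq0⟩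
  · exact ucel_mem (by change BB.1 ≤ K; omega) hz
  · refine ⟨ucel B.o K z', ucel_mem (by change BB.1 ≤ K; omega) hz', ?_⟩
    refine hK2 K k3 _ ?_
    intro q hq
    rcases mem_union.1 hq with h | h
    · change q ∈ Uk D δ B.o B.qb K E at h
      rw [mem_Uk hDb] at h
      exact ⟨h.head.1.le, h.head.2.1⟩
    · rcases mem_union.1 h with h | h
      · exact ⟨hCle q h, (hC q h).2⟩
      · exact ⟨hM q h, fun x hx => (B.subQ M q h hx).1⟩

end

/-! ### The box around the end point -/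

lemma co_exit {G : Finset (ℤ × ℤ)} {S : Set (ℤ × ℤ)} {u v : ℤ × ℤ}
    (h : Co G u v) (hu : u ∈ S) (hv : v ∉ S) :
    ∃ x y, x ∈ S ∧ y ∉ S ∧ IsUnit4 (y - x) ∧ x + y ∈ G := by
  induction h with
  | refl => exact absurd hu hv
  | @tail p q hp hs ih =>
    by_cases hpS : p ∈ S
    · exact ⟨p, q, hpS, hv, hs.1, hs.2⟩
    · exact ih hpS

section

variable {D : Set ℂ} {a b : ℂ} {A₁ A₂ : Set ℂ} {A : Approx D a b A₁ A₂} {r0 : ℝ} (B : Base A r0)

/-- **Boxes around `b`** and a point of the barrier in the box. -/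
theorem exists_par (hb : b ∉ D) {r : ℝ} (hr : 0 < r) :
    ∃ BB : Cell, b ∈ fat B.o BB ∧ cfat B.o BB ⊆ Metric.ball b r ∧ ∀ᶠ M in atTop,
      Metric.ball b (B.r M) ⊆ fat B.o BB ∧
      ∃ z ∈ fat B.o BB, ∃ q ∈ B.Q M, z ∈ fat B.o q := by
  obtain ⟨k, hk⟩ : ∃ k : ℕ, 4 * mesh k < r := by
    obtain ⟨k, hk⟩ := exists_pow_lt_of_lt_one (show 0 < r / 4 by positivity)
      (show (1 / 3 : ℝ) < 1 by norm_num)
    exact ⟨k, by unfold mesh; linarith⟩
  obtain ⟨BB, hBk, hbB⟩ := Pool.Agent.H42.Q1.exists_fat B.o b k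
  obtain ⟨s, hs, hsB⟩ := Metric.isOpen_iff.1 (Pool.Agent.H42.Q1.isOpen_fat B.o BB) b hbB
  obtain ⟨s1, hs1, hsq⟩ := exists_dist (D := D) (o := B.o) {B.qb}
    (fun q hq => by
      rw [mem_singleton] at hq
      subst hq
      exact fun x hx => (B.subQ 0 _ B.qb_mem hx).1) hb
  refine ⟨BB, hbB, ?_, ?_⟩
  · intro x hx
    rw [Metric.mem_ball]
    have h1 := Pool.Agent.H42.Q1.dist_cfat hx (fat_sub_cfat _ _ hbB)
    rw [hBk] at h1
    linarith
  · filter_upwards [B.rlim.eventually_lt_const (show 0 < min (s / 2) s1 by positivity)] with M hM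
    have hM1 : B.r M < s / 2 := lt_of_lt_of_le hM (min_le_left _ _)
    have hM2 : B.r M < s1 := lt_of_lt_of_le hM (min_le_right _ _)
    refine ⟨fun x hx => hsB (Metric.ball_subset_ball (by linarith) hx), ?_⟩
    have hm := mesh_pos (B.qb.1)
    have e1 := A.lim.eventually_lt_const (show 0 < min (s / 2) (mesh B.qb.1) by positivity)
    have e2 := (Metric.tendsto_nhds.1 A.limβ) (B.r M) (B.rpos M)
    obtain ⟨n, hn1, hn2, hn3, hn4, hn5⟩ := (e1.and (e2.and ((B.hN M).and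
      (B.conn.and B.beta)))).exists
    have hδ := A.pos n
    have hn1a := lt_of_lt_of_le hn1 (min_le_left _ _)
    have hn1b := lt_of_lt_of_le hn1 (min_le_right _ _)
    have hβ : vx (X0 A n).β = (A.X n).β.1 := by
      change vx (A.X n).toDEnv.β = _
      rw [Pool.Agent.H81.Q1.toDEnv_β, vx_cor]
    obtain ⟨N', hN', hN''⟩ := hn3
    -- a vertex of the base cell
    obtain ⟨u, hu⟩ : ∃ u, u ∈ verts (A.δ n) B.o B.qb := by
      have gen : ∀ x : ℝ, ∃ m : ℤ, x - mesh B.qb.1 / 3 < A.δ n * m ∧ A.δ n * m <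
          x + 4 / 3 * mesh B.qb.1 := by
        intro x
        refine ⟨⌊x / A.δ n⌋ + 1, ?_⟩
        have h1 := Int.floor_le (x / A.δ n)
        have h2 := Int.lt_floor_add_one (x / A.δ n)
        rw [le_div_iff₀ hδ] at h1
        rw [div_lt_iff₀ hδ] at h2
        push_cast
        constructor <;> nlinarith
      obtain ⟨m1, g1, g2⟩ := gen (B.o.re + B.qb.2.1 * mesh B.qb.1)
      obtain ⟨m2, g3, g4⟩ := gen (B.o.im + B.qb.2.2 * mesh B.qb.1)
      refine ⟨(m1, m2), (mem_verts hδ).2 ?_⟩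
      unfold fat pt
      rw [Set.mem_ofPred_eq]
      simp only
      refine ⟨?_, ?_, ?_, ?_⟩ <;> linarith
    have huN : u ∈ B.N n := by
      rw [hN']
      exact mem_union_left _ (mem_Vn.2 ⟨B.qb, qb_mem_Q B M, hu⟩)
    have hub : s1 ≤ dist (pt (A.δ n) u) b := hsq B.qb (mem_singleton_self _) _
      (fat_sub_cfat _ _ ((mem_verts hδ).1 hu))
    obtain ⟨x, y, hx, hy, hxy, hG⟩ := co_exit
      (S := {v | B.r M ≤ dist (pt (A.δ n) v) b}) (hn4 u huN _ hn5)
      (by rw [Set.mem_ofPred_eq]; linarith)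
      (by rw [Set.mem_ofPred_eq, hβ, not_le]; exact hn2)
    rw [Set.mem_ofPred_eq] at hx hy
    obtain ⟨hodd, hends⟩ := Pool.Agent.H42.Q1.ends_add hxy
    have hkap := (mem_kap_iff hodd).1 (mem_inter.1 hG).1
    have hxN : x ∈ B.N n := by
      rcases hends with ⟨h1, h2⟩ | ⟨h1, h2⟩
      · rw [← h1]; exact hkap.1
      · rw [← h2]; exact hkap.2
    have hxV : x ∈ Vn (A.δ n) B.o (B.Q M) := by
      rw [hN'] at hxN
      rcases mem_union.1 hxN with h | h
      · exact h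
      · exact absurd (Metric.mem_ball.1 (hN'' x h)) (not_lt.2 hx)
    obtain ⟨q, hq, hxq⟩ := mem_Vn.1 hxV
    rw [mem_verts hδ] at hxq
    have hd : dist (pt (A.δ n) x) (pt (A.δ n) y) ≤ A.δ n := by
      refine dist_of_star1 (e := x + y) hδ ((mem_star1_iff hodd).2 ?_) ((mem_star1_iff hodd).2 ?_)
      · rcases hends with ⟨h1, h2⟩ | ⟨h1, h2⟩
        · exact Or.inl h1.symm
        · exact Or.inr h2.symm
      · rcases hends with ⟨h1, h2⟩ | ⟨h1, h2⟩
        · exact Or.inr h2.symm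
        · exact Or.inl h1.symm
    refine ⟨pt (A.δ n) x, hsB ?_, q, hq, hxq⟩
    rw [Metric.mem_ball]
    have h1 := dist_triangle (pt (A.δ n) x) (pt (A.δ n) y) b
    rw [not_le] at hy
    linarith

end

end Pool.Agent.Q1.M3.Pg
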