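import Pool.Agent.Q1.M3.Fat

set_option autoImplicit false
open Finset

/-! Module M3: the part of a fine cell which is not covered by other cells is connected. -/

namespace Pool.Agent.Q1.M3.Pg

open Pool.Agent.H75.Perc (dir dir_cases)
open Pool.Agent.Q1.M4 (Adj4 Conn4 Good IsSide nextSide rect Reg Om mem_Om)

/-- The core of a fine cell. -/
def InCore (q : Cell) (c : ℤ × ℤ) : Prop :=
  (3 * q.2.1 ≤ c.1 ∧ c.1 < 3 * q.2.1 + 3) ∧ (3 * q.2.2 ≤ c.2 ∧ c.2 < 3 * q.2.2 + 3)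

/-- The fine cell whose core contains a unit cell. -/
def coreOf (K : ℕ) (c : ℤ × ℤ) : Cell := (K, (c.1 / 3, c.2 / 3))

lemma inCore_coreOf (K : ℕ) (c : ℤ × ℤ) : InCore (coreOf K c) c := by
  unfold InCore coreOf
  simp only
  omega

lemma mem_fc_fine {K : ℕ} {q : Cell} (hq : q.1 = K) {c : ℤ × ℤ} : c ∈ fc K q ↔
    (3 * q.2.1 - 1 ≤ c.1 ∧ c.1 < 3 * q.2.1 + 4) ∧ (3 * q.2.2 - 1 ≤ c.2 ∧ c.2 < 3 * q.2.2 + 4) := by
  rw [mem_fc]
  unfold lo hi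
  rw [hq, Nat.sub_self, pow_zero]
  simp only [one_mul]

lemma lo_coarse {K : ℕ} {q : Cell} (hq : q.1 < K) (i : ℤ) :
    lo (K - q.1) i = 3 * lo (K - q.1 - 1) i ∧ hi (K - q.1) i = 3 * hi (K - q.1 - 1) i := by
  obtain ⟨n, hn⟩ : ∃ n, K - q.1 = n + 1 := ⟨K - q.1 - 1, by omega⟩
  rw [hn]
  unfold lo hi
  simp only [Nat.add_sub_cancel]
  rw [pow_succ]
  constructor <;> ring

lemma inCore_fc {K : ℕ} {q : Cell} (hq : q.1 = K) {c : ℤ × ℤ} (h : InCore q c) : c ∈ fc K q := by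
  rw [mem_fc_fine hq]
  unfold InCore at h
  omega

/-- A neighbour of a core cell is in the fine cell. -/
lemma fc_of_adj_core {K : ℕ} {q : Cell} (hq : q.1 = K) {c c' : ℤ × ℤ} (h : InCore q c)
    (hc : |c'.1 - c.1| ≤ 1) (hc2 : |c'.2 - c.2| ≤ 1) : c' ∈ fc K q := by
  rw [mem_fc_fine hq]
  unfold InCore at h
  rw [abs_le] at hc hc2
  omega

variable {K : ℕ} {U C : Finset Cell}

/-- One step towards the centre. -/
lemma zstep (hU : ∀ q ∈ U, q.1 = K) (hC : ∀ q ∈ C, q.1 < K) {q : Cell} (hq : q.1 = K)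
    {c0 : ℤ × ℤ} (hc0 : InCore q c0) (hc0F : c0 ∉ flat K (U ∪ C)) {x : ℤ × ℤ} (hx : x ∈ fc K q)
    (hxF : x ∉ flat K (U ∪ C)) (hne : x ≠ (3 * q.2.1 + 1, 3 * q.2.2 + 1)) :
    ∃ y ∈ fc K q, y ∉ flat K (U ∪ C) ∧ Adj4 x y ∧
      |y.1 - (3 * q.2.1 + 1)| + |y.2 - (3 * q.2.2 + 1)| <
        |x.1 - (3 * q.2.1 + 1)| + |x.2 - (3 * q.2.2 + 1)| := by
  obtain ⟨x1, x2⟩ := x
  rw [mem_fc_fine hq] at hx
  simp only at hx
  set i := q.2.1 with hi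
  set j := q.2.2 with hj
  have hcore : InCore q c0 := hc0
  unfold InCore at hcore
  rw [← hi, ← hj] at hcore
  -- a coarse cell contains no core cell
  have noC : ∀ p ∈ C, ∀ y1 y2 : ℤ, 3 * i ≤ y1 → y1 < 3 * i + 3 → 3 * j ≤ y2 → y2 < 3 * j + 3 →
      (y1, y2) ∉ fc K p := by
    intro p hp y1 y2 h1 h2 h3 h4 hy
    apply hc0F
    refine mem_flat.2 ⟨p, mem_union_right _ hp, ?_⟩
    rw [mem_fc] at hy ⊢
    obtain ⟨e1, e2⟩ := lo_coarse (hC p hp) p.2.1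
    obtain ⟨e3, e4⟩ := lo_coarse (hC p hp) p.2.2
    rw [e1, e2, e3, e4] at hy ⊢
    simp only at hy
    omega
  have noU : ∀ p ∈ U, ∀ y1 y2 : ℤ, (y1, y2) ∈ fc K p →
      (3 * p.2.1 - 1 ≤ y1 ∧ y1 < 3 * p.2.1 + 4) ∧ (3 * p.2.2 - 1 ≤ y2 ∧ y2 < 3 * p.2.2 + 4) := by
    intro p hp y1 y2 hy
    rw [mem_fc_fine (hU p hp)] at hy
    exact hy
  have noX : ∀ p ∈ U, ¬ ((3 * p.2.1 - 1 ≤ x1 ∧ x1 < 3 * p.2.1 + 4) ∧
      (3 * p.2.2 - 1 ≤ x2 ∧ x2 < 3 * p.2.2 + 4)) := by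
    intro p hp h
    exact hxF (mem_flat.2 ⟨p, mem_union_left _ hp, (mem_fc_fine (hU p hp)).2 h⟩)
  have noXC : ∀ p ∈ C, (x1, x2) ∉ fc K p := fun p hp h =>
    hxF (mem_flat.2 ⟨p, mem_union_right _ hp, h⟩)
  have noQ : ∀ p ∈ U, ¬ (p.2.1 = i ∧ p.2.2 = j) := by
    intro p hp h
    apply hc0F
    refine mem_flat.2 ⟨p, mem_union_left _ hp, (mem_fc_fine (hU p hp)).2 ?_⟩
    omega
  have step1 : ∀ y1, (x1 ≤ 3 * i + 0 → y1 = x1 + 1) → (3 * i + 2 ≤ x1 → y1 = x1 - 1) →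
      x1 ≠ 3 * i + 1 → (3 * j ≤ x2 ∧ x2 < 3 * j + 3 ∨ (3 * i ≤ x1 ∧ x1 < 3 * i + 3) ∨
        ∀ p ∈ C, (y1, x2) ∉ fc K p) → (y1, x2) ∉ flat K (U ∪ C) := by
    intro y1 h1 h2 h3 h4 hy
    obtain ⟨p, hp, hy⟩ := mem_flat.1 hy
    rcases mem_union.1 hp with hp | hp
    · have a1 := noU p hp _ _ hy
      have a2 := noX p hp
      have a3 := noQ p hp
      omega
    · rcases h4 with h4 | h4 | h4
      · exact noC p hp y1 x2 (by omega) (by omega) h4.1 h4.2 hy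
      · -- the column stays in the core columns
        have a2 := noXC p hp
        rw [mem_fc] at a2 hy
        obtain ⟨e1, e2⟩ := lo_coarse (hC p hp) p.2.1
        rw [e1, e2] at a2 hy
        simp only at a2 hy
        apply a2
        refine ⟨?_, hy.2⟩
        omega
      · exact h4 p hp hy
  have step2 : ∀ y2, (x2 ≤ 3 * j + 0 → y2 = x2 + 1) → (3 * j + 2 ≤ x2 → y2 = x2 - 1) →
      x2 ≠ 3 * j + 1 → (3 * i ≤ x1 ∧ x1 < 3 * i + 3 ∨ (3 * j ≤ x2 ∧ x2 < 3 * j + 3) ∨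
        ∀ p ∈ C, (x1, y2) ∉ fc K p) → (x1, y2) ∉ flat K (U ∪ C) := by
    intro y2 h1 h2 h3 h4 hy
    obtain ⟨p, hp, hy⟩ := mem_flat.1 hy
    rcases mem_union.1 hp with hp | hp
    · have a1 := noU p hp _ _ hy
      have a2 := noX p hp
      have a3 := noQ p hp
      omega
    · rcases h4 with h4 | h4 | h4
      · exact noC p hp x1 y2 h4.1 h4.2 (by omega) (by omega) hy
      · have a2 := noXC p hp
        rw [mem_fc] at a2 hy
        obtain ⟨e1, e2⟩ := lo_coarse (hC p hp) p.2.2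
        rw [e1, e2] at a2 hy
        simp only at a2 hy
        apply a2
        refine ⟨hy.1, ?_⟩
        omega
      · exact h4 p hp hy
  -- moves
  have mv1 : ∀ y1, (x1 ≤ 3 * i + 0 → y1 = x1 + 1) → (3 * i + 2 ≤ x1 → y1 = x1 - 1) →
      x1 ≠ 3 * i + 1 → (y1, x2) ∉ flat K (U ∪ C) → ∃ y ∈ fc K q, y ∉ flat K (U ∪ C) ∧
        Adj4 (x1, x2) y ∧ |y.1 - (3 * i + 1)| + |y.2 - (3 * j + 1)| <
          |x1 - (3 * i + 1)| + |x2 - (3 * j + 1)| := by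
    intro y1 h1 h2 h3 h4
    refine ⟨(y1, x2), ?_, h4, ?_, ?_⟩
    · rw [mem_fc_fine hq]; simp only; omega
    · rcases (by omega : x1 ≤ 3 * i ∨ 3 * i + 2 ≤ x1) with h | h
      · rw [h1 (by omega)]
        have := adj_right (x1 + 1) x2
        rwa [add_sub_cancel_right] at this
      · rw [h2 h]; exact adj_left x1 x2
    · simp only
      rcases (by omega : x1 ≤ 3 * i ∨ 3 * i + 2 ≤ x1) with h | h
      · rw [h1 (by omega), abs_of_nonpos (by omega), abs_of_neg (by omega : x1 - (3 * i + 1) < 0)]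
        omega
      · rw [h2 h, abs_of_nonneg (by omega), abs_of_pos (by omega : 0 < x1 - (3 * i + 1))]
        omega
  have mv2 : ∀ y2, (x2 ≤ 3 * j + 0 → y2 = x2 + 1) → (3 * j + 2 ≤ x2 → y2 = x2 - 1) →
      x2 ≠ 3 * j + 1 → (x1, y2) ∉ flat K (U ∪ C) → ∃ y ∈ fc K q, y ∉ flat K (U ∪ C) ∧
        Adj4 (x1, x2) y ∧ |y.1 - (3 * i + 1)| + |y.2 - (3 * j + 1)| <
          |x1 - (3 * i + 1)| + |x2 - (3 * j + 1)| := by
    intro y2 h1 h2 h3 h4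
    refine ⟨(x1, y2), ?_, h4, ?_, ?_⟩
    · rw [mem_fc_fine hq]; simp only; omega
    · rcases (by omega : x2 ≤ 3 * j ∨ 3 * j + 2 ≤ x2) with h | h
      · rw [h1 (by omega)]
        have := adj_up x1 (x2 + 1)
        rwa [add_sub_cancel_right] at this
      · rw [h2 h]; exact adj_down x1 x2
    · simp only
      rcases (by omega : x2 ≤ 3 * j ∨ 3 * j + 2 ≤ x2) with h | h
      · rw [h1 (by omega), abs_of_nonpos (by omega : x2 + 1 - (3 * j + 1) ≤ 0),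
          abs_of_neg (by omega : x2 - (3 * j + 1) < 0)]
        omega
      · rw [h2 h, abs_of_nonneg (by omega : 0 ≤ x2 - 1 - (3 * j + 1)),
          abs_of_pos (by omega : 0 < x2 - (3 * j + 1))]
        omega
  obtain ⟨y1, hy1, hy1'⟩ : ∃ y1, (x1 ≤ 3 * i + 0 → y1 = x1 + 1) ∧
      (3 * i + 2 ≤ x1 → y1 = x1 - 1) := by
    by_cases h : x1 ≤ 3 * i + 0
    · exact ⟨x1 + 1, fun _ => rfl, fun h' => by omega⟩
    · exact ⟨x1 - 1, fun h' => absurd h' h, fun _ => rfl⟩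
  obtain ⟨y2, hy2, hy2'⟩ : ∃ y2, (x2 ≤ 3 * j + 0 → y2 = x2 + 1) ∧
      (3 * j + 2 ≤ x2 → y2 = x2 - 1) := by
    by_cases h : x2 ≤ 3 * j + 0
    · exact ⟨x2 + 1, fun _ => rfl, fun h' => by omega⟩
    · exact ⟨x2 - 1, fun h' => absurd h' h, fun _ => rfl⟩
  by_cases hx1 : x1 = 3 * i + 1
  · have hx2 : x2 ≠ 3 * j + 1 := fun h => hne (by rw [hx1, h])
    exact mv2 y2 hy2 hy2' hx2 (step2 y2 hy2 hy2' hx2 (Or.inl (by omega)))
  by_cases h1 : (3 * j ≤ x2 ∧ x2 < 3 * j + 3) ∨ (3 * i ≤ x1 ∧ x1 < 3 * i + 3)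
  · exact mv1 y1 hy1 hy1' hx1 (step1 y1 hy1 hy1' hx1 (by tauto))
  -- a corner of the fine cell
  by_cases h2 : ∀ p ∈ C, (y1, x2) ∉ fc K p
  · exact mv1 y1 hy1 hy1' hx1 (step1 y1 hy1 hy1' hx1 (Or.inr (Or.inr h2)))
  by_cases h3 : ∀ p ∈ C, (x1, y2) ∉ fc K p
  · exact mv2 y2 hy2 hy2' (by omega) (step2 y2 hy2 hy2' (by omega) (Or.inr (Or.inr h3)))
  exfalso
  push Not at h2 h3
  obtain ⟨p, hp, hpy⟩ := h2
  obtain ⟨p', hp', hpy'⟩ := h3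
  have a1 := noXC p hp
  have a2 := noC p' hp' y1 y2 (by omega) (by omega) (by omega) (by omega)
  rw [mem_fc] at a1 a2 hpy hpy'
  simp only at a1 a2 hpy hpy'
  rcases (by omega : x1 ≤ 3 * i ∨ 3 * i + 2 ≤ x1) with h | h
  · have e1 := hy1 (by omega)
    have b1 : lo (K - p.1) p.2.1 = y1 := by omega
    have b2 : Pg.hi (K - p'.1) p'.2.1 = y1 := by omega
    exact lo_ne_hi _ _ _ _ (b1.trans b2.symm)
  · have e1 := hy1' (by omega)
    have b1 : Pg.hi (K - p.1) p.2.1 = x1 := by omega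
    have b2 : lo (K - p'.1) p'.2.1 = x1 := by omega
    exact lo_ne_hi _ _ _ _ (b2.trans b1.symm)

/-- **The uncovered part of a fine cell is connected** if one of its core cells is uncovered. -/
theorem zconn (hU : ∀ q ∈ U, q.1 = K) (hC : ∀ q ∈ C, q.1 < K) {q : Cell} (hq : q.1 = K)
    {c0 : ℤ × ℤ} (hc0 : InCore q c0) (hc0F : c0 ∉ flat K (U ∪ C)) :
    Conn4 ((fc K q \ flat K (U ∪ C) : Finset (ℤ × ℤ)) : Set (ℤ × ℤ)) := by
  set S : Set (ℤ × ℤ) := ((fc K q \ flat K (U ∪ C) : Finset (ℤ × ℤ)) : Set (ℤ × ℤ)) with hS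
  have key : ∀ n : ℕ, ∀ x ∈ S, |x.1 - (3 * q.2.1 + 1)| + |x.2 - (3 * q.2.2 + 1)| ≤ n →
      J4 S x (3 * q.2.1 + 1, 3 * q.2.2 + 1) := by
    intro n
    induction n with
    | zero =>
      intro x hx hn
      have h1 := abs_nonneg (x.1 - (3 * q.2.1 + 1))
      have h2 := abs_nonneg (x.2 - (3 * q.2.2 + 1))
      have h3 : |x.1 - (3 * q.2.1 + 1)| = 0 := by push_cast at hn; omega
      have h4 : |x.2 - (3 * q.2.2 + 1)| = 0 := by push_cast at hn; omega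
      rw [abs_eq_zero] at h3 h4
      have : x = (3 * q.2.1 + 1, 3 * q.2.2 + 1) := Prod.ext (by simp only; omega)
        (by simp only; omega)
      rw [this]
      exact J4.refl _ _
    | succ n ih =>
      intro x hx hn
      by_cases hne : x = (3 * q.2.1 + 1, 3 * q.2.2 + 1)
      · rw [hne]; exact J4.refl _ _
      · have hx' : x ∈ fc K q ∧ x ∉ flat K (U ∪ C) := by
          rw [hS, mem_coe, mem_sdiff] at hx; exact hx
        obtain ⟨y, hy1, hy2, hy3, hy4⟩ := zstep hU hC hq hc0 hc0F hx'.1 hx'.2 hne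
        have hyS : y ∈ S := by rw [hS, mem_coe, mem_sdiff]; exact ⟨hy1, hy2⟩
        exact (J4.single hy3 hyS).trans (ih y hyS (by push_cast at hn ⊢; omega))
  intro x hx y hy
  obtain ⟨n, hn⟩ : ∃ n : ℕ, |x.1 - (3 * q.2.1 + 1)| + |x.2 - (3 * q.2.2 + 1)| ≤ n :=
    ⟨(|x.1 - (3 * q.2.1 + 1)| + |x.2 - (3 * q.2.2 + 1)|).toNat, Int.self_le_toNat _⟩
  obtain ⟨m, hm⟩ : ∃ n : ℕ, |y.1 - (3 * q.2.1 + 1)| + |y.2 - (3 * q.2.2 + 1)| ≤ n :=
    ⟨(|y.1 - (3 * q.2.1 + 1)| + |y.2 - (3 * q.2.2 + 1)|).toNat, Int.self_le_toNat _⟩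
  exact (key n x hx hn).trans ((key m y hy hm).symm hy)

end Pool.Agent.Q1.M3.Pg
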