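import Pool.Agent.Q1.M3.Pg.SDC
import Pool.Agent.Q1.M3.Pg.Ok
import Pool.Agent.H53.Q1.J20.Expl
import Pool.Agent.H28.Q1.Asm

set_option autoImplicit false
open Finset Filter Topology

/-! Module M3: the structures `Fine` and `Free` for the states of the chain. -/

namespace Pool.Agent.Q1.M3.Pg

open Pool.Agent.H75.Perc Pool.Agent.H75.TwoArm Pool.Agent.H75.Four Pool.Agent.H69.Q1
open Pool.Agent.H81.Q1 (pt DDomain Approx IsJordanDomain IsArcs)
open Pool.Agent.Q1.M4 (Adj4 Conn4 Good IsSide nextSide)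

variable {D : Set ℂ} {a b : ℂ} {A₁ A₂ : Set ℂ} {A : Approx D a b A₁ A₂} {r0 : ℝ} (B : Base A r0)

/-- The labels at the barrier cells are free in states which are not finished. -/
lemma starQ_free {k0 n j M : ℕ} {ω : Finset (ℤ × ℤ)} (hω : ω ⊆ (X0 A n).E)
    (hfin : ¬ B.Fin n (B.X k0 n j ω)) (hQ : star (Vn (A.δ n) B.o (B.Q M)) ⊆ (X0 A n).E)
    (hN : Vn (A.δ n) B.o (B.Q M) ⊆ B.N n) :
    star (Vn (A.δ n) B.o (B.Q M)) ⊆ (B.X k0 n j ω).E := by
  intro e he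
  rw [Pool.Agent.H53.Q1.Base_E_eq B hω j]
  unfold Pool.Agent.H53.Q1.Et
  rw [Finset.mem_sdiff]
  refine ⟨hQ he, fun h => ?_⟩
  obtain ⟨-, u, hu, h1⟩ := Rules.mem_metE.1 h
  refine Pool.Agent.H28.Q1.chain_N B hω j hfin u hu ?_
  rw [h1]
  exact Pool.Agent.Q1.M3.star_mono hN he

/-- Vertices of a family and their boxes. -/
lemma mem_Vn_iff {K : ℕ} {o : ℂ} {δ : ℝ} (hδ : 0 < δ) (hg : Gen2 K o δ) {C : Finset Cell}
    (hC : ∀ q ∈ C, q.1 ≤ K) {v : ℤ × ℤ} : v ∈ Vn δ o C ↔ box δ o K v ∈ flat K C := by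
  unfold Vn
  rw [mem_biUnion, mem_flat]
  constructor
  · rintro ⟨q, hq, h⟩; exact ⟨q, hq, (mem_verts_iff hδ hg (hC q hq)).1 h⟩
  · rintro ⟨q, hq, h⟩; exact ⟨q, hq, (mem_verts_iff hδ hg (hC q hq)).2 h⟩

/-- **The structures `Fine` and `Free` for the states of the chain.** -/
theorem free_state (hDo : IsOpen D) (hDb : Bornology.IsBounded D) (hA : IsArcs D a b A₁ A₂)
    (K M : ℕ) {BB : Cell} (hQK : ∀ q ∈ B.Q M, q.1 ≤ K) (hBK : BB.1 ≤ K)
    (hball : Metric.ball b (B.r M) ⊆ fat B.o BB) :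
    ∀ᶠ n in atTop, ∀ k0 j ω, ω ⊆ (X0 A n).E → ¬ B.Fin n (B.X k0 n j ω) →
      ∀ C : Finset Cell, (∀ q ∈ C, q.1 ≤ K) →
        star (Vn (A.δ n) B.o C) ⊆ (B.X k0 n j ω).E → ∀ (z : ℂ) (s : (ℤ × ℤ) × ℤ) (Y : DEnv),
        (B.X k0 n j ω).E ⊆ Y.E →
        (mkSD B K (A.δ n) (B.X k0 n j ω).E C M BB z s).Fine B.o (A.δ n) ∧
        (mkSD B K (A.δ n) (B.X k0 n j ω).E C M BB z s).Free B.o (A.δ n) Y
          (Vn (A.δ n) B.o C ∪ B.N n) ∧
        (∀ v ∈ Vn (A.δ n) B.o C ∪ B.N n, box (A.δ n) B.o K v ∈ flat K (C ∪ B.Q M) ∨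
          box (A.δ n) B.o K v ∈ fc K BB) ∧
        (∀ v, box (A.δ n) B.o K v ∈ flat K (C ∪ B.Q M) → v ∈ Vn (A.δ n) B.o C ∪ B.N n) ∧
        star (Vn (A.δ n) B.o (C ∪ B.Q M)) ⊆ (B.X k0 n j ω).E := by
  have hQD : ∀ q ∈ B.Q M, cfat B.o q ⊆ D := fun q hq =>
    (B.subQ M q hq).trans Set.inter_subset_left
  have e1 : ∀ᶠ n in atTop, A.δ n < mesh (K + 1) / 5 :=
    A.lim.eventually_lt_const (by have := mesh_pos (K + 1); positivity)
  filter_upwards [B.hN M, Pool.Agent.H28.Q1.star_free hDo hDb hA A B.o hQD, e1] with n h1 h2 h3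
  obtain ⟨N', h4, h5⟩ := h1
  have hδ := A.pos n
  have hg : Gen2 K B.o (A.δ n) := Pool.Agent.H53.Q1.Base_gen2 B K n
  have hNs : Vn (A.δ n) B.o (B.Q M) ⊆ B.N n := by rw [h4]; exact subset_union_left
  intro k0 j ω hω hfin C hC hCE z s Y hY
  have hCQ : ∀ q ∈ C ∪ B.Q M, q.1 ≤ K := by
    intro q hq
    rcases mem_union.1 hq with h | h
    · exact hC q h
    · exact hQK q h
  have hst : star (Vn (A.δ n) B.o (C ∪ B.Q M)) ⊆ (B.X k0 n j ω).E := by
    have h6 : Vn (A.δ n) B.o (C ∪ B.Q M) = Vn (A.δ n) B.o C ∪ Vn (A.δ n) B.o (B.Q M) := by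
      unfold Vn; rw [union_biUnion]
    have h8 : ∀ S T : Finset (ℤ × ℤ), star (S ∪ T) = star S ∪ star T := by
      intro S T
      unfold Pool.Agent.Q1.M3.star
      rw [union_biUnion]
    rw [h6, h8]
    exact union_subset hCE (starQ_free B hω hfin h2 hNs)
  have hbox : ∀ v ∈ Vn (A.δ n) B.o C ∪ B.N n, box (A.δ n) B.o K v ∈ flat K (C ∪ B.Q M) ∨
      box (A.δ n) B.o K v ∈ fc K BB := by
    intro v hv
    rcases mem_union.1 hv with h | h
    · left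
      have := (mem_Vn_iff hδ hg hC).1 h
      exact flat_mono subset_union_left this
    · rw [h4] at h
      rcases mem_union.1 h with h | h
      · left
        have := (mem_Vn_iff hδ hg hQK).1 h
        exact flat_mono subset_union_right this
      · right
        rw [box_eq_ucel]
        exact ucel_mem hBK (hball (h5 v h))
  refine ⟨⟨hδ, by change 5 * A.δ n ≤ mesh (K + 1); linarith, hg⟩, ⟨?_, ?_⟩, hbox, ?_, hst⟩
  · intro v hv
    by_contra hcon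
    have h6 : box (A.δ n) B.o K v ∈
        PP K (Uk D (A.δ n) B.o B.qb K (B.X k0 n j ω).E) (C ∪ B.Q M) :=
      (mem_sdiff.1 (SD.R_sub hv)).1
    revert h6
    rw [Pool.Agent.H53.Q1.Base_E_eq B hω j] at hst ⊢
    refine Pool.Agent.H53.Q1.Base_notMem_P B hDb (by linarith) hCQ hst ?_
    intro h7
    apply hcon
    rw [← Pool.Agent.H53.Q1.Base_E_eq B hω j] at h7
    exact h7.trans hY
  · intro v hv hvR
    have h6 := mem_sdiff.1 (SD.R_sub hvR)
    apply h6.2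
    have hP := h6.1
    rcases hbox v hv with h7 | h7
    · exact mem_union_left _ h7
    · exact mem_union_right _ (mem_inter.2 ⟨h7, hP⟩)
  · intro v hv
    have hv' : box (A.δ n) B.o K v ∈ flat K C ∪ flat K (B.Q M) := by
      unfold flat at hv ⊢
      rwa [union_biUnion] at hv
    rcases mem_union.1 hv' with h | h
    · exact mem_union_left _ ((mem_Vn_iff hδ hg hC).2 h)
    · exact mem_union_right _ (hNs ((mem_Vn_iff hδ hg hQK).2 h))

end Pool.Agent.Q1.M3.Pg
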