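import Pool.Agent.H28.Q1.InvW
import Pool.Agent.Q1.M3.Defs

set_option autoImplicit false
open Finset

/-! Module M3: topology of a step (abstract form). `G` = labels of the lattice region of the step,
`τ` = labels joining the tip to `G`, the last one is `plab a0`, `a0` is a corner of the contour of `G`.
The contour of `G` is read in both directions: `ca G a0 m` (along the wired side), `cz G a0 m` (along
the other side). -/

namespace Pool.Agent.Q1.M3.Pg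

open Pool.Agent.H75.Perc Pool.Agent.H75.TwoArm Pool.Agent.H75.Four Pool.Agent.H99.NC
open Pool.Agent.H69.Q1 Pool.Agent.H39.Q1 Pool.Agent.H28.Q1
open Pool.Agent.H75.TwoArm.StrandAux hiding vx_nxC

/-- Vertices of a set of labels. -/
def Vl (G : Finset (ℤ × ℤ)) (u : ℤ × ℤ) : Prop := ∃ e ∈ G, u = eu e ∨ u = ev e

/-- Contour of `G` from `a0` on the wired side. -/
noncomputable def ca (G : Finset (ℤ × ℤ)) (a0 : ℤ × ℤ) (m : ℕ) : ℤ × ℤ := (nx G)^[m] a0

/-- Contour of `G` on the other side; it starts at the corner after the label `plab a0`. -/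
noncomputable def cz (G : Finset (ℤ × ℤ)) (a0 : ℤ × ℤ) (m : ℕ) : ℤ × ℤ := (pv G)^[m + 1] a0

/-- Context of a step. -/
structure Ctx (Y : DEnv) (K G τ A : Finset (ℤ × ℤ)) (a0 : ℤ × ℤ) : Prop where
  inv : Inv Y
  oddE : ∀ e ∈ Y.E, (e.1 + e.2) % 2 = 1
  alpha : vx Y.α ∉ K
  beta : vx Y.β ∈ K
  conn : ∀ u ∈ K, ∀ v ∈ K, Co (kap K ∩ (Y.E ∪ Y.W)) u v
  /-- all labels at the vertices of `G` are free -/
  fresh : ∀ u, Vl G u → star1 u ⊆ Y.E
  GE : G ⊆ Y.E
  Gst : ∀ e ∈ G, e ∉ star K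
  Gconn : ∀ u, Vl G u → Co G (vx a0) u
  a0G : Vl G (vx a0)
  e1G : plab a0 ∉ G
  e1τ : plab a0 ∈ τ
  τE : τ ⊆ Y.E ∪ Y.W
  τst : ∀ e ∈ τ, e ∉ star K
  /-- the other labels of `τ` do not touch `G` -/
  τG : ∀ u, Vl (τ.erase (plab a0)) u → ¬ Vl G u
  /-- the tip is joined to the outer end of `plab a0` -/
  left : ∀ u, (u = eu (plab a0) ∨ u = ev (plab a0)) → u ≠ vx a0 →
    Co (τ.erase (plab a0)) (vx Y.α) u
  /-- labels met on the left of `τ` -/
  AE : A ⊆ Y.E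
  Aτ : Disjoint A τ
  AG : Disjoint A G
  Ast : ∀ e ∈ A, e ∉ star K
  leftd : ∃ M, Co (du M ((Y.E ∪ Y.W) \ A)) (fi Y.α) (fi (cz G a0 0))

/-- The ring of `K` in the environment. -/
noncomputable def ringE (Y : DEnv) (K : Finset (ℤ × ℤ)) (i : ℕ) : ℤ × ℤ :=
  plab ((pv (kap K ∩ (Y.E ∪ Y.W)))^[i] Y.β)

/-- `e` is met at the position `i` of the ring, before the contour is closed. -/
def RPos (Y : DEnv) (K : Finset (ℤ × ℤ)) (e : ℤ × ℤ) (i : ℕ) : Prop :=
  ringE Y K i = e ∧ ∀ t, 0 < t → t ≤ i → (pv (kap K ∩ (Y.E ∪ Y.W)))^[t] Y.β ≠ Y.β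

end Pool.Agent.Q1.M3.Pg
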