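import Pool.Agent.Q1.M3.Fat
import Pool.Agent.Q1.M5.Defs

set_option autoImplicit false
open Finset Filter Topology

/-! Module M3: the polygon of a step, its marks and the crossing probabilities `gg`. -/

namespace Pool.Agent.Q1.M3.Pg

open Pool.Agent.H75.Perc (dir dir_cases Pr)
open Pool.Agent.Q1.M4 (Adj4 Conn4 Good IsSide nextSide PType isSide_iter Eqv walk)
open Pool.Agent.Q1.M5 (EL CI StC3 App)

/-! ### Walks and types -/

/-- The boundary walk of `Q` from the side `s` has `N` sides. -/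
structure WalkN (Q : Finset (ℤ × ℤ)) (s : (ℤ × ℤ) × ℤ) (N : ℕ) : Prop where
  three : 3 ≤ N
  period : (nextSide Q)^[N] s = (s.1, s.2 + 4)
  all : ∀ t : (ℤ × ℤ) × ℤ, IsSide Q t → ∃ n < N, ((nextSide Q)^[n] s).1 = t.1 ∧
      (((nextSide Q)^[n] s).2 - t.2) % 4 = 0
  inj : ∀ n < N, ∀ n' < N, ((nextSide Q)^[n] s).1 = ((nextSide Q)^[n'] s).1 →
      (((nextSide Q)^[n] s).2 - ((nextSide Q)^[n'] s).2) % 4 = 0 → n = n'

lemma exists_walkN {Q : Finset (ℤ × ℤ)} {s : (ℤ × ℤ) × ℤ} (hQ : Good Q) (hs : IsSide Q s) :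
    ∃ N, WalkN Q s N := by
  obtain ⟨N, h0, h1, h2, h3⟩ := walk hQ hs
  exact ⟨N, h0, h1, h2, h3⟩

lemma iter_shift {Q : Finset (ℤ × ℤ)} {s : (ℤ × ℤ) × ℤ} {N : ℕ} (h : WalkN Q s N) (n : ℕ) :
    (nextSide Q)^[n + N] s = (((nextSide Q)^[n] s).1, ((nextSide Q)^[n] s).2 + 4) := by
  rw [Function.iterate_add_apply, h.period]
  have h1 : Eqv (s.1, s.2 + 4) s := ⟨rfl, by simp only; omega⟩
  have h2 := h1.iter (Q := Q) n
  refine Prod.ext h2.1 ?_
  have := h2.2
  simp only at this ⊢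
  omega

/-- The same walk started at another side. -/
lemma WalkN.shift {Q : Finset (ℤ × ℤ)} {s : (ℤ × ℤ) × ℤ} {N : ℕ} (h : WalkN Q s N) {a : ℕ}
    (ha : a < N) : WalkN Q ((nextSide Q)^[a] s) N := by
  have hc : ∀ n, (nextSide Q)^[n] ((nextSide Q)^[a] s) = (nextSide Q)^[n + a] s := fun n =>
    (Function.iterate_add_apply _ _ _ _).symm
  refine ⟨h.three, ?_, ?_, ?_⟩
  · rw [hc, add_comm, iter_shift h]
  · intro t ht
    obtain ⟨n, hn, h1, h2⟩ := h.all t ht
    rcases Nat.lt_or_ge n a with h3 | h3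
    · refine ⟨n + N - a, by omega, ?_⟩
      rw [hc, show n + N - a + a = n + N by omega, iter_shift h]
      exact ⟨h1, by simp only; omega⟩
    · refine ⟨n - a, by omega, ?_⟩
      rw [hc, show n - a + a = n by omega]
      exact ⟨h1, h2⟩
  · intro n hn n' hn' h1 h2
    rw [hc, hc] at h1 h2
    have red : ∀ n < N, ∃ n2 < N, (n2 = n + a ∨ n2 + N = n + a) ∧
        ((nextSide Q)^[n2] s).1 = ((nextSide Q)^[n + a] s).1 ∧
        (((nextSide Q)^[n + a] s).2 - ((nextSide Q)^[n2] s).2) % 4 = 0 := by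
      intro n hn
      rcases Nat.lt_or_ge (n + a) N with h3 | h3
      · exact ⟨n + a, h3, Or.inl rfl, rfl, by simp⟩
      · refine ⟨n + a - N, by omega, Or.inr (by omega), ?_⟩
        have := iter_shift h (n + a - N)
        rw [show n + a - N + N = n + a by omega] at this
        rw [this]
        exact ⟨rfl, by simp only; omega⟩
    obtain ⟨p, hp, hp1, hp2, hp3⟩ := red n hn
    obtain ⟨p', hp', hp1', hp2', hp3'⟩ := red n' hn'
    have := h.inj p hp p' hp' (by rw [hp2, hp2', h1]) (by omega)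
    omega

/-- The type whose free arc starts at the side `a` of the walk from `s`, the wired arc consists of
the sides before the side `a`. -/
def mkType {Q : Finset (ℤ × ℤ)} {s : (ℤ × ℤ) × ℤ} {N : ℕ} (hQ : Good Q) (hs : IsSide Q s)
    (h : WalkN Q s N) (a : ℕ) (ha0 : 0 < a) (ha : a < N) : PType where
  Q := Q
  good := hQ
  s0 := (nextSide Q)^[a] s
  N := N
  m := N - a
  hm0 := by omega
  hmN := by omega
  side0 := isSide_iter hs a
  period := (h.shift ha).period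
  all := (h.shift ha).all
  inj := (h.shift ha).inj

/-! ### The data of a step -/

/-- Data of a step: finest level, visible fine cells, target cells, box around the end point, a unit
cell of the box, tip side. -/
structure SD where
  /-- finest level -/
  K : ℕ
  /-- fine family -/
  U : Finset Cell
  /-- coarse family -/
  C : Finset Cell
  /-- box -/
  B : Cell
  /-- unit cell in the box -/
  b0 : ℤ × ℤ
  /-- tip side -/
  s : (ℤ × ℤ) × ℤ

namespace SD

variable (d : SD)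

/-- The filled union. -/
noncomputable def P : Finset (ℤ × ℤ) := PP d.K d.U d.C

/-- The target with all parts of the box. -/
noncomputable def H2 : Finset (ℤ × ℤ) := HH d.K d.U d.C d.B

/-- The target. -/
noncomputable def H : Finset (ℤ × ℤ) := H1 d.K d.U d.C d.B d.b0

/-- The region at the tip. -/
noncomputable def R : Finset (ℤ × ℤ) := RR d.K d.U d.C d.B d.s.1

/-- Regular data. -/
structure Ok : Prop where
  lev : LevK d.K d.U d.C d.B
  conP : Conn4 (d.P : Set (ℤ × ℤ))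
  conC : Conn4 (flat d.K d.C : Set (ℤ × ℤ))
  b0C : d.b0 ∈ flat d.K d.C
  b0B : d.b0 ∈ fc d.K d.B
  outB : ∃ o ∈ fc d.K d.B, o ∉ d.P
  tipP : d.s.1 ∈ d.P
  tipH : d.s.1 ∉ d.H2
  tipO : outc d.s ∉ d.P

variable {d}

lemma Ok.typed (h : d.Ok) : Typed lty d.P d.H2 := typed_step h.lev

lemma Ok.mem (h : d.Ok) : d.s.1 ∈ d.P \ d.H2 := mem_sdiff.2 ⟨h.tipP, h.tipH⟩

lemma Ok.flat_sub (h : d.Ok) : flat d.K d.C ⊆ d.H := flat_sub_H1 h.conC h.b0C

lemma H_sub_H2 : d.H ⊆ d.H2 := H1_sub_HH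

lemma Ok.good (h : d.Ok) : Good d.R := by
  obtain ⟨o, ho, hoP⟩ := h.outB
  exact good_comp h.typed (fill_conn_compl _) h.conP hoP
    ⟨d.b0, H_sub_H2 (h.flat_sub h.b0C)⟩
    (fun c hc => HH_out h.conC h.b0C h.b0B ⟨o, ho, hoP⟩ c hc o hoP) h.mem

lemma R_sub : d.R ⊆ d.P \ d.H2 := comp_subset _ _

lemma Ok.side (h : d.Ok) : IsSide d.R d.s :=
  ⟨self_mem_comp h.mem, fun h1 => h.tipO (mem_sdiff.1 (R_sub h1)).1⟩

/-- Marks: the walk from the tip side has `N` sides, the sides with outer cell in `H` are the sides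
`n1 ≤ n < n2`. -/
structure IsMark (d : SD) (N n1 n2 : ℕ) : Prop where
  walk : WalkN d.R d.s N
  pos : 0 < n1
  le : n1 ≤ n2
  le' : n2 ≤ N
  run : ∀ n < N, outc ((nextSide d.R)^[n] d.s) ∈ d.H ↔ n1 ≤ n ∧ n < n2

theorem Ok.exists_mark (h : d.Ok) : ∃ N n1 n2, IsMark d N n1 n2 := by
  obtain ⟨N, hN⟩ := exists_walkN h.good h.side
  have hRH : ∀ c ∈ (d.H : Set (ℤ × ℤ)), c ∉ d.R := fun c hc hcR =>
    (mem_sdiff.1 (R_sub hcR)).2 (H_sub_H2 hc)
  have hRO : ∀ c ∈ ((d.P : Set (ℤ × ℤ))ᶜ ∪ ((d.H2 \ d.H : Finset (ℤ × ℤ)) : Set (ℤ × ℤ))),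
      c ∉ d.R := by
    intro c hc hcR
    rcases hc with hc | hc
    · exact hc (mem_sdiff.1 (R_sub hcR)).1
    · have hc' : c ∈ d.H2 \ d.H := by exact_mod_cast hc
      exact (mem_sdiff.1 (R_sub hcR)).2 (mem_sdiff.1 hc').1
  have hOH : ∀ c ∈ ((d.P : Set (ℤ × ℤ))ᶜ ∪ ((d.H2 \ d.H : Finset (ℤ × ℤ)) : Set (ℤ × ℤ))),
      c ∉ (d.H : Set (ℤ × ℤ)) := by
    intro c hc hcH
    rcases hc with hc | hc
    · exact hc (h.typed.sub (H_sub_H2 hcH))
    · have hc' : c ∈ d.H2 \ d.H := by exact_mod_cast hc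
      exact (mem_sdiff.1 hc').2 hcH
  obtain ⟨n1, n2, h1, h2, h3, h4⟩ := one_run
    (O := ((d.P : Set (ℤ × ℤ))ᶜ ∪ ((d.H2 \ d.H : Finset (ℤ × ℤ)) : Set (ℤ × ℤ))))
    (H := (d.H : Set (ℤ × ℤ))) h.good.conn (out_conn h.conC h.b0C h.outB) (comp_conn
      (mem_union_left _ h.b0C)) hRO hRH hOH h.side
    (fun t ht => by
      rcases outc_cases ht with h5 | h5
      · exact Or.inl (Or.inl h5)
      · by_cases h6 : outc t ∈ d.H
        · exact Or.inr h6
        · exact Or.inl (Or.inr (by exact_mod_cast (mem_sdiff.2 ⟨h5, h6⟩ : outc t ∈ d.H2 \ d.H))))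
    (by have := hN.three; omega) hN.inj (Or.inl (by simpa using h.tipO))
  exact ⟨N, n1, n2, hN, h1, h2, h3, h4⟩

/-- The outer cells of the sides outside the run are outside `P` or in the box. -/
lemma IsMark.out {N n1 n2 : ℕ} (h : d.Ok) (hM : IsMark d N n1 n2) {n : ℕ} (hn : n < N)
    (hr : ¬ (n1 ≤ n ∧ n < n2)) : outc ((nextSide d.R)^[n] d.s) ∉ d.P ∨
      (outc ((nextSide d.R)^[n] d.s) ∈ d.H2 \ d.H ∧ outc ((nextSide d.R)^[n] d.s) ∈ fc d.K d.B) := by
  rcases outc_cases (isSide_iter h.side n) with h1 | h1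
  · exact Or.inl h1
  · have h2 := mem_sdiff.2 ⟨h1, fun h1 => hr ((hM.run n hn).1 h1)⟩
    exact Or.inr ⟨h2, rest_sub h.conC h.b0C h2⟩

variable (d)

open Classical in
/-- The three marks. -/
noncomputable def mks : ℕ × ℕ × ℕ :=
  if h : ∃ p : ℕ × ℕ × ℕ, IsMark d p.1 p.2.1 p.2.2 then h.choose else (0, 0, 0)

/-- Number of sides. -/
noncomputable def N : ℕ := (mks d).1

/-- First side of the run. -/
noncomputable def n1 : ℕ := (mks d).2.1

/-- End of the run. -/
noncomputable def n2 : ℕ := (mks d).2.2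

/-- Length of the run. -/
noncomputable def h : ℕ := d.n2 - d.n1

variable {d}

lemma Ok.mark (h : d.Ok) : IsMark d d.N d.n1 d.n2 := by
  obtain ⟨N, n1, n2, hM⟩ := h.exists_mark
  have hex : ∃ p : ℕ × ℕ × ℕ, IsMark d p.1 p.2.1 p.2.2 := ⟨(N, n1, n2), hM⟩
  have := hex.choose_spec
  unfold SD.N SD.n1 SD.n2 mks
  rw [dif_pos hex]
  exact this

/-- The type of the step: the free arc starts with the run of sides at the target, the wired arc is
the part of the boundary between the tip side and the target. -/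
noncomputable def Ok.T (h : d.Ok) (hr : d.n1 < d.n2) : PType :=
  mkType h.good h.side h.mark.walk d.n1 h.mark.pos (lt_of_lt_of_le hr h.mark.le')

lemma Ok.T_side (h : d.Ok) (hr : d.n1 < d.n2) (n : ℕ) :
    (h.T hr).side n = (nextSide d.R)^[n + d.n1] d.s :=
  (Function.iterate_add_apply _ _ _ _).symm

variable (d)

open Classical in
/-- The probability that the wired arc is joined to the sides `≥ n` of the run. -/
noncomputable def gg (X Y : ℤ → ℤ) (n : ℕ) : ℝ :=
  if n = 0 then 1 else if d.h ≤ n then 0 else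
  if h : d.Ok ∧ d.n1 < d.n2 ∧ d.n2 < d.N then
    Pr (EL (h.1.T h.2.1) X Y) (CI (h.1.T h.2.1) X Y n d.h) else 1

/-- **Convergence of the crossing probabilities of a step.** -/
theorem gg_lim (hC : StC3) (n : ℕ) {x y : ℤ → ℝ} (hx : StrictMono x) (hy : StrictMono y) :
    ∃ c : ℝ, ∀ (R : ℕ → ℝ) (X Y : ℕ → ℤ → ℤ), App x y R X Y →
      Tendsto (fun j => d.gg (X j) (Y j) n) atTop (𝓝 c) := by
  classical
  by_cases h0 : n = 0
  · exact ⟨1, fun R X Y _ => by unfold gg; simp only [h0, if_true]; exact tendsto_const_nhds⟩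
  by_cases h1 : d.h ≤ n
  · exact ⟨0, fun R X Y _ => by
      unfold gg; simp only [h0, h1, if_true, if_false]; exact tendsto_const_nhds⟩
  by_cases h2 : d.Ok ∧ d.n1 < d.n2 ∧ d.n2 < d.N
  · have hm : d.h < (h2.1.T h2.2.1).m := by
      change d.n2 - d.n1 < d.N - d.n1
      omega
    obtain ⟨c, hc⟩ := hC (h2.1.T h2.2.1) x y hx hy n d.h (by omega) (by omega) hm
    refine ⟨c, fun R X Y hA => ?_⟩
    have := hc R X Y hA
    refine this.congr fun j => ?_
    unfold gg
    rw [if_neg h0, if_neg h1, dif_pos h2]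
  · exact ⟨1, fun R X Y _ => by
      unfold gg; simp only [h0, h1, h2, if_false, dite_false]; exact tendsto_const_nhds⟩

end SD

/-! ### Lattice lines -/

/-- Rounding of a line according to its type. -/
noncomputable def rnd (t : LT) (r : ℝ) : ℤ :=
  match t with
  | LT.loF => ⌊r⌋ + 1
  | LT.hiF => ⌈r⌉ - 1
  | LT.loC => ⌊r⌋
  | LT.hiC => ⌈r⌉
  | LT.no => ⌊r⌋

lemma rnd_bounds (t : LT) (r : ℝ) : r - 1 ≤ rnd t r ∧ (rnd t r : ℝ) ≤ r + 1 := by
  have h1 := Int.floor_le r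
  have h2 := Int.lt_floor_add_one r
  have h3 := Int.le_ceil r
  have h4 := Int.ceil_lt_add_one r
  cases t <;> simp only [rnd] <;> push_cast <;> constructor <;> linarith

/-- The lattice lines of the grid of mesh `3^(-K-1)` in one coordinate. -/
noncomputable def LX (K : ℕ) (o δ : ℝ) (N : ℤ) : ℤ := rnd (lty N) ((o + N * mesh (K + 1)) / δ)

/-- The grid lines. -/
noncomputable def gx (K : ℕ) (o : ℝ) (N : ℤ) : ℝ := o + N * mesh (K + 1)

lemma gx_mono (K : ℕ) (o : ℝ) : StrictMono (gx K o) := by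
  intro a b hab
  unfold gx
  have h1 := mesh_pos (K + 1)
  have h2 : (a : ℝ) < b := by exact_mod_cast hab
  nlinarith

lemma LX_step {K : ℕ} {o δ : ℝ} (hδ : 0 < δ) {c : ℝ} (h : (c + 2) * δ ≤ mesh (K + 1)) (N : ℤ) :
    c ≤ (LX K o δ (N + 1) : ℝ) - LX K o δ N := by
  have h1 := (rnd_bounds (lty (N + 1)) ((o + (N + 1 : ℤ) * mesh (K + 1)) / δ)).1
  have h2 := (rnd_bounds (lty N) ((o + N * mesh (K + 1)) / δ)).2
  have h3 : (o + ((N + 1 : ℤ) : ℝ) * mesh (K + 1)) / δ - (o + N * mesh (K + 1)) / δ =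
      mesh (K + 1) / δ := by
    push_cast
    field_simp
    ring
  have h4 : c + 2 ≤ mesh (K + 1) / δ := by
    rw [le_div_iff₀ hδ]; exact h
  unfold LX
  linarith

lemma LX_mono {K : ℕ} {o δ : ℝ} (hδ : 0 < δ) (h : 3 * δ ≤ mesh (K + 1)) :
    StrictMono (LX K o δ) := by
  refine strictMono_int_of_lt_succ fun N => ?_
  have := LX_step (K := K) (o := o) (c := 1) hδ (by linarith) N
  have h2 : ((LX K o δ N + 1 : ℤ) : ℝ) ≤ LX K o δ (N + 1) := by push_cast; linarith
  have h3 : LX K o δ N + 1 ≤ LX K o δ (N + 1) := by exact_mod_cast h2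
  omega

/-- **The lattice lines approximate the grid.** -/
theorem app_LX (K : ℕ) (o : ℂ) {δ : ℕ → ℝ} (hδ : ∀ n, 0 < δ n) (h0 : Tendsto δ atTop (𝓝 0)) :
    App (gx K o.re) (gx K o.im) (fun n => (δ n)⁻¹) (fun n => LX K o.re (δ n))
      (fun n => LX K o.im (δ n)) := by
  have hlim : ∀ (a : ℝ) (N : ℤ), Tendsto (fun n => (LX K a (δ n) N : ℝ) / (δ n)⁻¹) atTop
      (𝓝 (gx K a N)) := by
    intro a N
    have hb : ∀ n, |(LX K a (δ n) N : ℝ) / (δ n)⁻¹ - gx K a N| ≤ δ n := by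
      intro n
      have h1 := rnd_bounds (lty N) ((a + N * mesh (K + 1)) / δ n)
      have hn := hδ n
      have e : (LX K a (δ n) N : ℝ) / (δ n)⁻¹ - gx K a N =
          ((LX K a (δ n) N : ℝ) - (a + N * mesh (K + 1)) / δ n) * δ n := by
        unfold gx
        field_simp
      rw [e, abs_mul, abs_of_pos hn]
      have h2 : |(LX K a (δ n) N : ℝ) - (a + N * mesh (K + 1)) / δ n| ≤ 1 := by
        unfold LX
        rw [abs_le]
        constructor <;> linarith [h1.1, h1.2]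
      nlinarith
    rw [tendsto_iff_dist_tendsto_zero]
    refine squeeze_zero (fun n => dist_nonneg) (fun n => ?_) h0
    rw [Real.dist_eq]
    exact hb n
  have hpos : Tendsto (fun n => (δ n)⁻¹) atTop atTop := by
    refine Tendsto.inv_tendsto_nhdsGT_zero ?_
    rw [tendsto_nhdsWithin_iff]
    exact ⟨h0, Filter.Eventually.of_forall hδ⟩
  refine ⟨⟨hpos, hlim o.re, hlim o.im⟩, ?_⟩
  have hm : 0 < mesh (K + 1) / 3 := by have := mesh_pos (K + 1); positivity
  filter_upwards [(tendsto_order.1 h0).2 _ hm] with n hn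
  exact ⟨LX_mono (hδ n) (by linarith), LX_mono (hδ n) (by linarith)⟩

end Pool.Agent.Q1.M3.Pg
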