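import Pool.Agent.Q1.M3.Pg.Tied

set_option autoImplicit false
open Finset

/-! Module M3: the positions on the ring of the labels across the run. -/

namespace Pool.Agent.Q1.M3.Pg

open Pool.Agent.H75.Perc Pool.Agent.H75.TwoArm Pool.Agent.H75.Four
open Pool.Agent.H69.Q1 Pool.Agent.H28.Q1
open Pool.Agent.H75.TwoArm.StrandAux hiding vx_nxC
open Pool.Agent.H49.Q1 (gcell gs mem_gs)
open Pool.Agent.Q1.M4 (Adj4 Conn4 Good IsSide inV inRect nextSide tail head)
open Pool.Agent.H5.Q1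
open Pool.Agent.H21.Q1 (Sol Wt InvL rl rc per rc_per per_pos)

namespace LPol

variable {Q : Finset (ℤ × ℤ)} {X Y : ℤ → ℤ} {s : (ℤ × ℤ) × ℤ} {N p0 : ℕ}
variable (h : LPol Q X Y s N p0)

include h

variable {Yn : DEnv} {K τ A : Finset (ℤ × ℤ)}

/-- **Ring order.** -/
theorem ring_lt (hc : Ctx Yn K (gs X Y Q) τ A (CC Q X Y s p0)) {n j n' j' : ℕ}
    (hn0 : 0 < n) (hn' : n' < N) (hn : n < N) (hj : 0 < j) (hj1 : j < slen X Y (sd Q s n))
    (hj' : 0 < j') (hj1' : j' < slen X Y (sd Q s n'))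
    (hp : outl X Y (sd Q s n) j ∈ perp K) (hp' : outl X Y (sd Q s n') j' ∈ perp K)
    (hlt : SS Q X Y s n + 2 * j < SS Q X Y s n' + 2 * j') {i i' : ℕ}
    (hi : RPos Yn K (outl X Y (sd Q s n) j) i) (hi' : RPos Yn K (outl X Y (sd Q s n') j') i') :
    i < i' := by
  set L := SS Q X Y s N with hL
  have hlen := SS_pos (Q := Q) (X := X) (Y := Y) (s := s) hn' hj1'
  have htip : p0 ≤ SS Q X Y s n := h.lenle hn0
  have hj10 := h.p0pos
  obtain ⟨m, hm, hm2⟩ : ∃ m, p0 + L - (m + 2) = SS Q X Y s n' + 2 * j' - 1 ∧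
      m + 2 ≤ p0 + L := ⟨p0 + L - 2 - (SS Q X Y s n' + 2 * j' - 1), by omega, by omega⟩
  have hpm : plab (cz (gs X Y Q) (CC Q X Y s p0) m) = outl X Y (sd Q s n') j' := by
    rw [h.plab_cz hm2, hm]
    obtain ⟨i, rfl⟩ : ∃ i, j' = i + 1 := ⟨j' - 1, by omega⟩
    have h3 := CC_first (Q := Q) h.monoX h.monoY h.side n' (j := i) (by omega)
    rw [show SS Q X Y s n' + 2 * (i + 1) - 1 = SS Q X Y s n' + (2 * i + 1) by omega, h3]
    rfl
  -- the vertex of the first label in the region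
  have hv : Vl (gs X Y Q) (sp X Y (sd Q s n) j) := h.vl_sp hj hj1
  have hst : outl X Y (sd Q s n) j ∈ star1 (sp X Y (sd Q s n) j) := by
    have h5 := lab_star1 (oc (sp X Y (sd Q s n) j) (sd Q s n).2)
    rw [vx_oc] at h5
    exact h5
  have hu : sp X Y (sd Q s n) j = eu (outl X Y (sd Q s n) j) ∨
      sp X Y (sd Q s n) j = ev (outl X Y (sd Q s n) j) := (mem_star1_iff (odd_star1 hst)).1 hst
  refine hc.ring_lt (q := m) (by rw [hpm]; exact hp') hp (mem_union_left _ (hc.fresh _ hv hst))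
    ?_ hu ?_ (by rw [hpm]; exact hi') hi
  · intro t ht
    constructor
    · intro h5
      have := h.cz_e1 (t := t) (by omega) h5
      omega
    · intro h5
      have := h.cz_key (t := t) (by omega) hn hj hj1 h5
      omega
  · -- the tip is joined to the region
    have hst1 : plab (CC Q X Y s p0) ∈ star1 (vx (CC Q X Y s p0)) := plab_star1 _
    have hodd := odd_star1 hst1
    obtain ⟨u0, hu0, hne, hco⟩ : ∃ u0, (u0 = eu (plab (CC Q X Y s p0)) ∨
        u0 = ev (plab (CC Q X Y s p0))) ∧ u0 ≠ vx (CC Q X Y s p0) ∧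
        Co {plab (CC Q X Y s p0)} u0 (vx (CC Q X Y s p0)) := by
      have h6 := (mem_star1_iff hodd).1 hst1
      have hne := Pool.Agent.H21.Q1.eu_ne_ev hodd
      have hco := Pool.Agent.H42.Q1.co_ends hodd (mem_singleton_self
        (plab (CC Q X Y s p0)))
      rcases h6 with h6 | h6
      · exact ⟨_, Or.inr rfl, by rw [h6]; exact hne.symm, by rw [h6]; exact hco.symm⟩
      · exact ⟨_, Or.inl rfl, by rw [h6]; exact hne, by rw [h6]; exact hco⟩
    have h7 := hc.left u0 hu0 hne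
    have h8 := hc.Gconn _ hv
    refine (h7.mono ?_).trans ((hco.mono ?_).trans (h8.mono ?_))
    · intro e he
      have he' := mem_of_mem_erase he
      exact mem_sdiff.2 ⟨mem_union_left _ (mem_union_right _ he'), hc.τst e he'⟩
    · intro e he
      rw [mem_singleton] at he
      subst he
      exact mem_sdiff.2 ⟨mem_union_left _ (mem_union_right _ hc.e1τ), hc.τst _ hc.e1τ⟩
    · intro e he
      exact mem_sdiff.2 ⟨mem_union_left _ (mem_union_left _ he), hc.Gst e he⟩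

end LPol

namespace Tied

variable {d : SD} {o : ℂ} {δ : ℝ} {X Y : DEnv} {Kv τ A : Finset (ℤ × ℤ)} {p0 : ℕ}

lemma rl_eq (t : Tied d o δ X Y Kv τ A p0) (i : ℕ) : rl X Kv i = ringE Y Kv i := by
  unfold rl rc ringE Pool.Agent.H21.Q1.kp
  rw [t.beta, t.kp]

lemma rc_eq (t : Tied d o δ X Y Kv τ A p0) (i : ℕ) :
    rc X Kv i = (pv (kap Kv ∩ (Y.E ∪ Y.W)))^[i] Y.β := by
  unfold rc Pool.Agent.H21.Q1.kp
  rw [t.beta, t.kp]

lemma rpos_iff (t : Tied d o δ X Y Kv τ A p0) {e : ℤ × ℤ} {i : ℕ} :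
    RPos Y Kv e i ↔ rl X Kv i = e ∧ i < per X Kv := by
  unfold RPos
  rw [t.rl_eq]
  refine and_congr_right fun _ => ⟨fun h => ?_, fun h k hk0 hk => ?_⟩
  · by_contra hcon
    rw [not_lt] at hcon
    apply h (per X Kv) per_pos hcon
    rw [← t.rc_eq, rc_per, t.beta]
  · rw [← t.rc_eq, ← t.beta]
    exact Pool.Agent.H21.Q1.rc_ne hk0 (by omega)

/-- **Labels across the run have a position on the ring.** -/
theorem exists_ring (t : Tied d o δ X Y Kv τ A p0) {n j : ℕ} (hj : 0 < j) (hj' : j < d.ln o δ n)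
    (hp : d.ol o δ n j ∈ perp Kv) : ∃ i < per X Kv, rl X Kv i = d.ol o δ n j := by
  have hv : Vl (d.G o δ) (d.pt' o δ n j) :=
    (SD.lpol t.ok t.fine t.p0pos t.p0le t.out).vl_sp hj hj'
  have hst : d.ol o δ n j ∈ star1 (d.pt' o δ n j) := by
    have h5 := lab_star1 (oc (d.pt' o δ n j) (d.sid n).2)
    rw [vx_oc] at h5
    exact h5
  obtain ⟨i, hi⟩ := t.ctx.exists_pos hp ⟨_, (mem_star1_iff (odd_star1 hst)).1 hst, hv⟩
  obtain ⟨h1, h2⟩ := t.rpos_iff.1 hi
  exact ⟨i, h2, h1⟩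

/-- **The positions are increasing along the walk.** -/
theorem ring_mono (t : Tied d o δ X Y Kv τ A p0) {n j n' j' : ℕ} (hn0 : 0 < n) (hn : n < d.N)
    (hn' : n' < d.N) (hj : 0 < j) (hj1 : j < d.ln o δ n) (hj' : 0 < j') (hj1' : j' < d.ln o δ n')
    (hp : d.ol o δ n j ∈ perp Kv) (hp' : d.ol o δ n' j' ∈ perp Kv)
    (hlt : n < n' ∨ (n = n' ∧ j < j')) {i i' : ℕ} (hi : i < per X Kv) (hi' : i' < per X Kv)
    (h1 : rl X Kv i = d.ol o δ n j) (h2 : rl X Kv i' = d.ol o δ n' j') : i < i' := by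
  refine (SD.lpol t.ok t.fine t.p0pos t.p0le t.out).ring_lt t.ctx hn0 hn' hn hj hj1 hj' hj1' hp hp' ?_
    (t.rpos_iff.2 ⟨h1, hi⟩) (t.rpos_iff.2 ⟨h2, hi'⟩)
  rcases hlt with h3 | ⟨rfl, h3⟩
  · have := SS_pos (Q := d.R) (X := LX d.K o.re δ) (Y := LX d.K o.im δ) (s := d.s) h3
      (j := j) hj1
    omega
  · omega

end Tied

end Pool.Agent.Q1.M3.Pg
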