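import Pool.Agent.Q1.M3.Pg.Step

set_option autoImplicit false
open Finset

/-! Module M3: a path of cells from the tip side to the coarse family leaves the region through a side
of the run. -/

namespace Pool.Agent.Q1.M3.Pg

open Pool.Agent.H75.Perc (dir dir_cases)
open Pool.Agent.Q1.M4 (Adj4 Conn4 Good IsSide nextSide isSide_iter)

lemma dir_congr {a b : ℤ} (h : (a - b) % 4 = 0) : dir a = dir b := by
  rcases dir_cases a with ⟨p, e⟩ | ⟨p, e⟩ | ⟨p, e⟩ | ⟨p, e⟩ <;>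
  rcases dir_cases b with ⟨p', e'⟩ | ⟨p', e'⟩ | ⟨p', e'⟩ | ⟨p', e'⟩ <;>
  first
  | (exfalso; omega)
  | rw [e, e']

namespace SD

variable {d : SD}

/-- A pair of adjacent cells, the first in the region, the second outside, is a side of the walk. -/
lemma exists_side (h : d.Ok) {a b : ℤ × ℤ} (ha : a ∈ d.R) (hb : b ∉ d.R) (hab : Adj4 a b) :
    ∃ n < d.N, ((nextSide d.R)^[n] d.s).1 = a ∧ outc ((nextSide d.R)^[n] d.s) = b := by
  obtain ⟨k, rfl⟩ := hab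
  obtain ⟨n, hn, h1, h2⟩ := h.mark.walk.all (a, k + 1) ⟨ha, by
    simp only [add_sub_cancel_right]; exact hb⟩
  refine ⟨n, hn, h1, ?_⟩
  unfold outc
  rw [h1]
  congr 1
  apply dir_congr
  simp only at h2
  omega

/-- **Channel.** -/
theorem channel (h : d.Ok) {S : Set (ℤ × ℤ)} (hS : ∀ c ∈ S, c ∈ d.P ∧ c ∉ fc d.K d.B)
    (hs : d.s.1 ∈ S) {c' : ℤ × ℤ} (hJ : J4 S d.s.1 c') (hc' : c' ∈ flat d.K d.C) :
    ∃ n, d.n1 ≤ n ∧ n < d.n2 ∧ outc ((nextSide d.R)^[n] d.s) ∈ flat d.K d.C ∧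
      outc ((nextSide d.R)^[n] d.s) ∈ S ∧ ((nextSide d.R)^[n] d.s).1 ∈ S ∧
      J4 (S ∩ (d.R : Set (ℤ × ℤ))) d.s.1 ((nextSide d.R)^[n] d.s).1 := by
  have hsub : flat d.K d.C ⊆ d.H2 := by
    have := h.flat_sub.trans (H_sub_H2 (d := d))
    exact this
  have h1 : d.s.1 ∈ {c : ℤ × ℤ | c ∉ flat d.K d.C} := fun h2 => h.tipH (hsub h2)
  have h2 : c' ∉ {c : ℤ × ℤ | c ∉ flat d.K d.C} := fun h3 => h3 hc'
  obtain ⟨a, b, haS, haT, hbS, hbT, hab, hJ'⟩ := hJ.exit h1 h2 hs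
  have hbF : b ∈ flat d.K d.C := not_not.1 hbT
  -- cells of `S` outside the target
  have hR : ∀ c, J4 (S ∩ {c : ℤ × ℤ | c ∉ flat d.K d.C}) d.s.1 c →
      c ∈ d.R ∧ J4 (S ∩ (d.R : Set (ℤ × ℤ))) d.s.1 c := by
    intro c hc
    induction hc with
    | refl => exact ⟨self_mem_comp h.mem, J4.refl _ _⟩
    | @tail x y hx hxy ih =>
      obtain ⟨ih1, ih2⟩ := ih
      obtain ⟨hxy1, hyS, hyT⟩ := hxy
      have hy : y ∈ d.P \ d.H2 := by
        refine mem_sdiff.2 ⟨(hS y hyS).1, fun hy2 => ?_⟩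
        have hy3 : y ∈ flat d.K d.C ∪ (fc d.K d.B ∩ d.P) := hy2
        rcases mem_union.1 hy3 with h5 | h5
        · exact hyT h5
        · exact (hS y hyS).2 (mem_inter.1 h5).1
      have hyR : y ∈ d.R := comp_adj ih1 hy hxy1
      exact ⟨hyR, ih2.tail hxy1 ⟨hyS, by exact_mod_cast hyR⟩⟩
  obtain ⟨haR, hJR⟩ := hR a hJ'
  have hbR : b ∉ d.R := fun h5 => (mem_sdiff.1 (R_sub h5)).2 (hsub hbF)
  obtain ⟨n, hn, e1, e2⟩ := exists_side h haR hbR hab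
  obtain ⟨h5, h6⟩ := (h.mark.run n hn).1 (by rw [e2]; exact h.flat_sub hbF)
  refine ⟨n, h5, h6, by rw [e2]; exact hbF, by rw [e2]; exact hbS, by rw [e1]; exact haS, ?_⟩
  rw [e1]; exact hJR

end SD

end Pool.Agent.Q1.M3.Pg
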