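import Pool.Agent.Q1.M3.Pg.TAL

set_option autoImplicit false
open Finset

/-! Module M3: the lattice polygon of a step. -/

namespace Pool.Agent.Q1.M3.Pg

open Pool.Agent.H75.Perc Pool.Agent.H75.TwoArm Pool.Agent.H75.Four
open Pool.Agent.H69.Q1 Pool.Agent.H28.Q1
open Pool.Agent.H75.TwoArm.StrandAux hiding vx_nxC
open Pool.Agent.H49.Q1 (gcell gs mem_gs)
open Pool.Agent.Q1.M4 (Adj4 Conn4 Good IsSide inV inRect nextSide tail head)
open Pool.Agent.H5.Q1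
open Pool.Agent.H21.Q1 (Sol Wt InvL)

namespace SD

variable {d : SD} {o : ℂ} {δ : ℝ}

/-- the labels of the region -/
noncomputable def G (d : SD) (o : ℂ) (δ : ℝ) : Finset (ℤ × ℤ) :=
  gs (LX d.K o.re δ) (LX d.K o.im δ) d.R

/-- corner of the contour at the position `p` -/
noncomputable def Cn (d : SD) (o : ℂ) (δ : ℝ) (p : ℕ) : ℤ × ℤ :=
  CC d.R (LX d.K o.re δ) (LX d.K o.im δ) d.s p

/-- side of the walk -/
noncomputable def sid (d : SD) (n : ℕ) : (ℤ × ℤ) × ℤ := sd d.R d.s n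

/-- points of a side -/
noncomputable def pt' (d : SD) (o : ℂ) (δ : ℝ) (n j : ℕ) : ℤ × ℤ :=
  sp (LX d.K o.re δ) (LX d.K o.im δ) (d.sid n) j

/-- length of a side -/
noncomputable def ln (d : SD) (o : ℂ) (δ : ℝ) (n : ℕ) : ℕ :=
  slen (LX d.K o.re δ) (LX d.K o.im δ) (d.sid n)

/-- outward labels -/
noncomputable def ol (d : SD) (o : ℂ) (δ : ℝ) (n j : ℕ) : ℤ × ℤ :=
  outl (LX d.K o.re δ) (LX d.K o.im δ) (d.sid n) j

/-- outer faces of the labels of a side -/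
noncomputable def of' (d : SD) (o : ℂ) (δ : ℝ) (n j : ℕ) : ℤ × ℤ :=
  ofc (LX d.K o.re δ) (LX d.K o.im δ) (d.sid n) j

/-- outer cell of a side -/
noncomputable def oc' (d : SD) (n : ℕ) : ℤ × ℤ := outc (d.sid n)

/-- The lattice is fine and generic. -/
structure Fine (d : SD) (o : ℂ) (δ : ℝ) : Prop where
  hδ : 0 < δ
  hm : 5 * δ ≤ mesh (d.K + 1)
  gen : Gen2 d.K o δ

lemma Fine.hm3 (hf : d.Fine o δ) : 3 * δ ≤ mesh (d.K + 1) := by
  have := hf.hδ; have := hf.hm; linarith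

lemma mem_G (h : d.Ok) (hf : d.Fine o δ) {e : ℤ × ℤ} (he : (e.1 + e.2) % 2 = 1) :
    e ∈ d.G o δ ↔ box δ o d.K (eu e) ∈ d.R ∧ box δ o d.K (ev e) ∈ d.R :=
  mem_gs_iff hf.hδ hf.hm3 hf.gen h.typed he

lemma vl_G (h : d.Ok) (hf : d.Fine o δ) {u : ℤ × ℤ} : Vl (d.G o δ) u ↔ box δ o d.K u ∈ d.R :=
  vl_gs_iff hf.hδ hf.hm3 hf.gen h.typed

lemma three_ln (hf : d.Fine o δ) (n : ℕ) : 3 ≤ d.ln o δ n := slen_ge hf.hδ hf.hm _

lemma isSide (h : d.Ok) (n : ℕ) : IsSide d.R (d.sid n) :=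
  Pool.Agent.Q1.M4.isSide_iter h.side n

/-- interior points of a side and the points behind them -/
lemma side_box' (h : d.Ok) (hf : d.Fine o δ) {n j : ℕ} (hj : 0 < j) (hj' : j < d.ln o δ n) :
    box δ o d.K (d.pt' o δ n j) = (d.sid n).1 ∧
      box δ o d.K (d.pt' o δ n j + dir ((d.sid n).2 - 1)) = d.oc' n :=
  side_box hf.hδ hf.hm3 hf.gen h.typed (isSide h n) hj hj'

/-- end of the contour of the first side -/
noncomputable def S1 (d : SD) (o : ℂ) (δ : ℝ) : ℕ :=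
  SS d.R (LX d.K o.re δ) (LX d.K o.im δ) d.s 1

lemma lpol (h : d.Ok) (hf : d.Fine o δ) {p0 : ℕ} (h0 : 0 < p0) (h1 : p0 ≤ d.S1 o δ)
    (h2 : plab (d.Cn o δ p0) ∉ d.G o δ) :
    LPol d.R (LX d.K o.re δ) (LX d.K o.im δ) d.s d.N p0 where
  good := h.good
  monoX := LX_mono hf.hδ hf.hm3
  monoY := LX_mono hf.hδ hf.hm3
  side := h.side
  per := h.mark.walk.period
  two := by have := h.mark.walk.three; omega
  full := by
    intro e he h2 h3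
    have h4 := (vl_G h hf).1 h2
    have h5 := (vl_G h hf).1 h3
    exact (mem_G h hf he).2 ⟨h4, h5⟩
  p0pos := h0
  p0le := h1
  out := h2

/-- The vertices of `Kv` in `P` are in the target; the labels at the region are free. -/
structure Free (d : SD) (o : ℂ) (δ : ℝ) (Yn : DEnv) (Kv : Finset (ℤ × ℤ)) : Prop where
  fresh : ∀ v, box δ o d.K v ∈ d.R → star1 v ⊆ Yn.E
  hK : ∀ v ∈ Kv, box δ o d.K v ∉ d.R

variable {Yn : DEnv} {Kv : Finset (ℤ × ℤ)}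

lemma G_free (h : d.Ok) (hf : d.Fine o δ) (hF : d.Free o δ Yn Kv) :
    (∀ u, Vl (d.G o δ) u → star1 u ⊆ Yn.E) ∧ d.G o δ ⊆ Yn.E ∧ (∀ e ∈ d.G o δ, e ∉ star Kv) := by
  have h1 : ∀ u, Vl (d.G o δ) u → star1 u ⊆ Yn.E := fun u hu => hF.fresh u ((vl_G h hf).1 hu)
  have hodd : ∀ e ∈ d.G o δ, (e.1 + e.2) % 2 = 1 := fun e he => odd_gs he
  refine ⟨h1, fun e he => ?_, fun e he => ?_⟩
  · exact h1 (eu e) ⟨e, he, Or.inl rfl⟩ ((mem_star1_iff (hodd e he)).2 (Or.inl rfl))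
  · obtain ⟨h2, h3⟩ := (mem_G h hf (hodd e he)).1 he
    rw [mem_star_iff (hodd e he), not_or]
    exact ⟨fun h4 => hF.hK _ h4 h2, fun h4 => hF.hK _ h4 h3⟩

lemma G_conn (h : d.Ok) (hf : d.Fine o δ) {u v : ℤ × ℤ} (hu : Vl (d.G o δ) u)
    (hv : Vl (d.G o δ) v) : Co (d.G o δ) u v :=
  gs_conn hf.hδ hf.hm3 hf.gen h.typed h.mem hu hv

/-- An interior entrance. -/
lemma tip_corner (h : d.Ok) (hf : d.Fine o δ) {j1 : ℕ} (h0 : 0 < j1) (h1 : j1 < d.ln o δ 0) :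
    0 < 2 * j1 ∧ 2 * j1 ≤ d.S1 o δ ∧
    plab (d.Cn o δ (2 * j1)) = d.ol o δ 0 j1 ∧ d.ol o δ 0 j1 ∉ d.G o δ ∧
      plab (d.Cn o δ (2 * j1)) ∉ d.G o δ ∧ vx (d.Cn o δ (2 * j1)) = d.pt' o δ 0 j1 := by
  have hX := LX_mono (K := d.K) (o := o.re) hf.hδ hf.hm3
  have hY := LX_mono (K := d.K) (o := o.im) hf.hδ hf.hm3
  have e : SS d.R (LX d.K o.re δ) (LX d.K o.im δ) d.s 0 = 0 := by unfold SS; simp
  have h3 : plab (d.Cn o δ (2 * j1)) = d.ol o δ 0 j1 := by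
    obtain ⟨i, hi⟩ : ∃ i, 2 * j1 = (2 * i + 1) + 1 := ⟨j1 - 1, by omega⟩
    unfold Cn
    rw [hi, plab_CC]
    have h1' := CC_first (Q := d.R) hX hY h.side 0 (j := i) (lt_of_le_of_lt (by omega) h1)
    rw [e, zero_add] at h1'
    rw [h1']
    have e2 : i + 1 = j1 := by omega
    rw [e2]
    rfl
  have h4 : d.ol o δ 0 j1 ∉ d.G o δ := outl_notMem (Q := d.R) hX hY h.side 0 h0 h1
  refine ⟨by omega, ?_, h3, h4, by rw [h3]; exact h4, ?_⟩
  · have h5 := SS_pos (Q := d.R) (X := LX d.K o.re δ) (Y := LX d.K o.im δ) (s := d.s)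
      (N := 1) (n := 0) one_pos (j := j1) h1
    unfold S1
    omega
  · have h2 := CC_second (Q := d.R) hX hY h.side 0 (j := j1) h1
    rw [e, zero_add] at h2
    unfold Cn
    rw [h2, vx_oc]
    rfl

/-- A label across a side at the family `C`. -/
lemma perp_of_flat (h : d.Ok) (hf : d.Fine o δ) (hF : d.Free o δ Yn Kv) {n j : ℕ} (hj : 0 < j)
    (hj' : j < d.ln o δ n) (hKv : ∀ v, box δ o d.K v = d.oc' n → v ∈ Kv) :
    d.ol o δ n j ∈ perp Kv := by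
  obtain ⟨b1, b2⟩ := side_box' h hf hj hj'
  have h1 : d.pt' o δ n j ∉ Kv := fun h2 => hF.hK _ h2 (by rw [b1]; exact (isSide h n).1)
  have h2 := hKv _ b2
  have hu : IsUnit4 (d.pt' o δ n j + dir ((d.sid n).2 - 1) - d.pt' o δ n j) := by
    rw [add_sub_cancel_left]; exact isUnit4_dir _
  obtain ⟨h3, h4⟩ := ends_add hu
  have e : d.ol o δ n j = d.pt' o δ n j + (d.pt' o δ n j + dir ((d.sid n).2 - 1)) :=
    outl_eq _ _
  rw [e, mem_perp_iff h3]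
  rcases h4 with ⟨e1, e2⟩ | ⟨e1, e2⟩
  · rw [← e1, ← e2]; exact Or.inr ⟨h1, h2⟩
  · rw [← e1, ← e2]; exact Or.inl ⟨h2, h1⟩

end SD

end Pool.Agent.Q1.M3.Pg
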