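import Pool.Agent.Q1.M3.Pg.SDC

set_option autoImplicit false
open Finset

/-! Module M3: ties for a state `X` of the chain; `Y` is the environment one step before (or `X`). -/

namespace Pool.Agent.Q1.M3.Pg

open Pool.Agent.H75.Perc Pool.Agent.H75.TwoArm Pool.Agent.H75.Four
open Pool.Agent.H69.Q1 Pool.Agent.H28.Q1
open Pool.Agent.H75.TwoArm.StrandAux hiding vx_nxC
open Pool.Agent.H49.Q1 (gcell gs mem_gs)
open Pool.Agent.Q1.M4 (Adj4 Conn4 Good IsSide inV inRect nextSide tail head)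
open Pool.Agent.H5.Q1
open Pool.Agent.H21.Q1 (Sol Wt InvL)

/-- A step of the chain: `X` state, `Y` environment with the tip path `τ`, `A` = labels met on its
left, `p0` = position on the contour of the corner after the tip label. -/
structure Tied (d : SD) (o : ℂ) (δ : ℝ) (X Y : DEnv) (Kv τ A : Finset (ℤ × ℤ)) (p0 : ℕ) : Prop where
  ok : d.Ok
  fine : d.Fine o δ
  free : d.Free o δ Y Kv
  ctx : Ctx Y Kv (d.G o δ) τ A (d.Cn o δ p0)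
  p0pos : 0 < p0
  p0le : p0 ≤ d.S1 o δ
  out : plab (d.Cn o δ p0) ∉ d.G o δ
  invL : InvL Y
  EY : Y.E ⊆ X.E ∪ τ
  wt : ∀ z, Co (Wt Y Kv) (vx Y.α) z → Co (Wt X Kv) (vx X.α) z
  cl : ∀ g, ClJ Y (fi Y.α) g → ClJ X (fi X.α) g
  beta : X.β = Y.β
  kp : kap Kv ∩ (X.E ∪ X.W) = kap Kv ∩ (Y.E ∪ Y.W)
  /-- a side of the run at the solid set -/
  run : ∃ n, d.n1 ≤ n ∧ n < d.n2 ∧ ∀ v, box δ o d.K v = d.oc' n → v ∈ Kv

namespace Tied

variable {d : SD} {o : ℂ} {δ : ℝ} {X Y : DEnv} {Kv τ A : Finset (ℤ × ℤ)} {p0 : ℕ}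

lemma sol (t : Tied d o δ X Y Kv τ A p0) : Sol Y Kv :=
  ⟨t.ctx.inv, t.ctx.conn, t.ctx.beta, t.ctx.alpha⟩

lemma stp (t : Tied d o δ X Y Kv τ A p0) {nh : ℕ} (h1 : d.n1 ≤ nh) (h2 : nh < d.n2)
    (h3 : ∀ v, box δ o d.K v = d.oc' nh → v ∈ Kv) :
    Stp d.K o δ d.P d.H2 d.s.1 d.s d.N p0 Y Kv τ A X.E (Wt Y Kv) nh 1 where
  hδ := t.fine.hδ
  hm := t.fine.hm
  gen := t.fine.gen
  typed := t.ok.typed
  mem := t.ok.mem
  pol := SD.lpol t.ok t.fine t.p0pos t.p0le t.out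
  ctx := t.ctx
  main := mainFace t.sol t.invL
  hlab := by
    have hl := SD.three_ln t.fine nh
    refine ⟨lt_of_lt_of_le h2 t.ok.mark.le', lt_of_lt_of_le t.ok.mark.pos h1, one_pos, ?_, ?_⟩
    · exact lt_of_lt_of_le (by norm_num) hl
    · exact SD.perp_of_flat t.ok t.fine t.free one_pos (lt_of_lt_of_le (by norm_num) hl) h3
  sub := t.EY

/-- labels of the region are free in `X` and off the star of the solid set -/
theorem G_nr (t : Tied d o δ X Y Kv τ A p0) : d.G o δ ⊆ X.E ∧ ∀ e ∈ d.G o δ, e ∉ star Kv := by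
  obtain ⟨nh, h1, h2, h3⟩ := t.run
  exact ⟨fun e he => (t.stp h1 h2 h3).gsE he, (SD.G_free t.ok t.fine t.free).2.2⟩

/-- **Ties of the wired sides.** -/
theorem TA (t : Tied d o δ X Y Kv τ A p0) {n : ℕ} (h0 : 0 < n) (hn : n < d.n1)
    (hF : Fr d.K o δ d.P Kv τ A X.E (d.oc' n)) {j : ℕ} (hj : j ≤ d.ln o δ n) :
    ∃ T, Nr d.K o δ Kv X.E (d.oc' n) T ∧ Co (T ∪ Wt X Kv) (d.pt' o δ n j) (vx X.α) := by
  obtain ⟨nh, h1, h2, h3⟩ := t.run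
  obtain ⟨T, hT, w, hw, hW⟩ := (t.stp h1 h2 h3).tA h0 (lt_of_lt_of_le hn h1) hF hj
  refine ⟨T, hT, (hw.mono subset_union_left).trans (((t.wt w hW).symm).mono subset_union_right)⟩

/-- **Ties of the free sides.** -/
theorem TL (t : Tied d o δ X Y Kv τ A p0) {n : ℕ} (hn : d.n2 ≤ n) (hnN : n < d.N)
    (hF : Fr d.K o δ d.P Kv τ A X.E (d.oc' n)) {j : ℕ} (hj : j < d.ln o δ n) :
    ∃ T, Nr d.K o δ Kv X.E (d.oc' n) T ∧ ∃ g, Co (du T ∅) (d.of' o δ n j) g ∧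
      ClJ X (fi X.α) g := by
  obtain ⟨nh, h1, h2, h3⟩ := t.run
  obtain ⟨T, hT, g, hg, hcl⟩ := (t.stp h1 h2 h3).tL (lt_of_lt_of_le h2 hn) hnN hF hj
  exact ⟨T, hT, g, hg, t.cl g hcl⟩

end Tied

end Pool.Agent.Q1.M3.Pg
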