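import Pool.Agent.Q1.M3.Pg.Latt

set_option autoImplicit false
open Finset

/-! Module M3: lattice paths in unions of boxes. -/

namespace Pool.Agent.Q1.M3.Pg

open Pool.Agent.H75.Perc (dir dir_cases mem_Bx)
open Pool.Agent.H75.Perc (IsUnit4)
open Pool.Agent.Q1.M4 (Adj4 Conn4 Good IsSide inV inRect)

/-- Path of vertices in `T` with unit steps. -/
def LP (T : Set (ℤ × ℤ)) (v w : ℤ × ℤ) : Prop :=
  Relation.ReflTransGen (fun a b => IsUnit4 (b - a) ∧ b ∈ T) v w

variable {T T' : Set (ℤ × ℤ)} {u v w : ℤ × ℤ}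

lemma LP.refl (T : Set (ℤ × ℤ)) (v : ℤ × ℤ) : LP T v v := Relation.ReflTransGen.refl

lemma LP.trans (h : LP T u v) (h' : LP T v w) : LP T u w := Relation.ReflTransGen.trans h h'

lemma LP.mono (hT : T ⊆ T') (h : LP T u v) : LP T' u v := by
  induction h with
  | refl => exact LP.refl _ _
  | tail _ h1 ih => exact Relation.ReflTransGen.tail ih ⟨h1.1, hT h1.2⟩

lemma isUnit4_neg {d : ℤ × ℤ} (h : IsUnit4 d) : IsUnit4 (-d) := by
  unfold IsUnit4 at h ⊢
  rcases h with rfl | rfl | rfl | rfl <;> simp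

lemma LP.mem (h : LP T u v) (hu : u ∈ T) : v ∈ T := by
  induction h with
  | refl => exact hu
  | tail _ h1 _ => exact h1.2

lemma LP.symm (h : LP T u v) (hu : u ∈ T) : LP T v u := by
  induction h with
  | refl => exact LP.refl _ _
  | @tail b c hb h1 ih =>
    have hbT : b ∈ T := LP.mem hb hu
    refine LP.trans (Relation.ReflTransGen.single ⟨?_, hbT⟩) ih
    have := isUnit4_neg h1.1
    rwa [neg_sub] at this

lemma LP.hor {x x' y : ℤ} (h : ∀ a, min x x' ≤ a → a ≤ max x x' → ((a, y) : ℤ × ℤ) ∈ T) :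
    LP T (x, y) (x', y) := by
  have key : ∀ n : ℕ, ∀ x : ℤ, (∀ a, x ≤ a → a ≤ x + n → ((a, y) : ℤ × ℤ) ∈ T) →
      LP T (x, y) (x + n, y) := by
    intro n
    induction n with
    | zero => intro x _; simp; exact LP.refl _ _
    | succ n ih =>
      intro x hx
      have h1 := ih x (fun a h1 h2 => hx a h1 (by push_cast; omega))
      refine h1.trans (Relation.ReflTransGen.single ⟨?_, hx _ (by push_cast; omega) (by push_cast; omega)⟩)
      unfold IsUnit4
      left
      ext <;> simp
  rcases le_total x x' with hle | hle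
  · rw [min_eq_left hle, max_eq_right hle] at h
    have h1 := key (x' - x).toNat x (fun a h1 h2 => h a h1 (by omega))
    rwa [show x + ((x' - x).toNat : ℤ) = x' by omega] at h1
  · rw [min_eq_right hle, max_eq_left hle] at h
    have h1 := key (x - x').toNat x' (fun a h1 h2 => h a h1 (by omega))
    rw [show x' + ((x - x').toNat : ℤ) = x by omega] at h1
    exact h1.symm (h x' le_rfl hle)

lemma LP.ver {x y y' : ℤ} (h : ∀ a, min y y' ≤ a → a ≤ max y y' → ((x, a) : ℤ × ℤ) ∈ T) :
    LP T (x, y) (x, y') := by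
  have key : ∀ n : ℕ, ∀ y : ℤ, (∀ a, y ≤ a → a ≤ y + n → ((x, a) : ℤ × ℤ) ∈ T) →
      LP T (x, y) (x, y + n) := by
    intro n
    induction n with
    | zero => intro x _; simp; exact LP.refl _ _
    | succ n ih =>
      intro y hx
      have h1 := ih y (fun a h1 h2 => hx a h1 (by push_cast; omega))
      refine h1.trans (Relation.ReflTransGen.single ⟨?_, hx _ (by push_cast; omega) (by push_cast; omega)⟩)
      unfold IsUnit4
      right; left
      ext <;> simp
  rcases le_total y y' with hle | hle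
  · rw [min_eq_left hle, max_eq_right hle] at h
    have h1 := key (y' - y).toNat y (fun a h1 h2 => h a h1 (by omega))
    rwa [show y + ((y' - y).toNat : ℤ) = y' by omega] at h1
  · rw [min_eq_right hle, max_eq_left hle] at h
    have h1 := key (y - y').toNat y' (fun a h1 h2 => h a h1 (by omega))
    rw [show y' + ((y - y').toNat : ℤ) = y by omega] at h1
    exact h1.symm (h y' le_rfl hle)

/-! ### Boxes -/

variable {K : ℕ} {δ : ℝ}

lemma col_mono {o : ℝ} (hδ : 0 < δ) {a b : ℤ} (h : a ≤ b) : col K o δ a ≤ col K o δ b := by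
  have hp := mesh_pos (K + 1)
  unfold col
  refine Int.floor_le_floor ?_
  have : (a : ℝ) ≤ b := by exact_mod_cast h
  gcongr

/-- Every column contains a lattice coordinate. -/
lemma exists_col {o : ℝ} (hδ : 0 < δ) (hm : 3 * δ ≤ mesh (K + 1)) (N : ℤ) :
    ∃ a, col K o δ a = N := by
  have hp := mesh_pos (K + 1)
  refine ⟨⌊(o + N * mesh (K + 1)) / δ⌋ + 1, ?_⟩
  have h1 := Int.floor_le ((o + N * mesh (K + 1)) / δ)
  have h2 := Int.lt_floor_add_one ((o + N * mesh (K + 1)) / δ)
  rw [le_div_iff₀ hδ] at h1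
  rw [div_lt_iff₀ hδ] at h2
  unfold col
  rw [Int.floor_eq_iff]
  rw [le_div_iff₀ hp, div_lt_iff₀ hp]
  push_cast
  constructor <;> nlinarith

variable {o : ℂ}

/-- Vertices in the same box or in adjacent boxes are joined in the two boxes. -/
lemma LP.adj (hδ : 0 < δ) {S : Set (ℤ × ℤ)} (hv : box δ o K v ∈ S) (hw : box δ o K w ∈ S)
    (h : box δ o K w = box δ o K v ∨ Adj4 (box δ o K v) (box δ o K w)) :
    LP {a | box δ o K a ∈ S} v w := by
  obtain ⟨v1, v2⟩ := v
  obtain ⟨w1, w2⟩ := w
  rw [box_eq] at hv hw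
  rw [box_eq, box_eq] at h
  simp only at hv hw h
  have hh : ∀ a, min v1 w1 ≤ a → a ≤ max v1 w1 → min (col K o.re δ v1) (col K o.re δ w1) ≤
      col K o.re δ a ∧ col K o.re δ a ≤ max (col K o.re δ v1) (col K o.re δ w1) := by
    intro a h1 h2
    rcases le_total v1 w1 with hle | hle
    · rw [min_eq_left hle] at h1
      rw [max_eq_right hle] at h2
      exact ⟨(min_le_left _ _).trans (col_mono hδ h1), (col_mono hδ h2).trans (le_max_right _ _)⟩
    · rw [min_eq_right hle] at h1
      rw [max_eq_left hle] at h2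
      exact ⟨(min_le_right _ _).trans (col_mono hδ h1), (col_mono hδ h2).trans (le_max_left _ _)⟩
  have hh2 : ∀ a, min v2 w2 ≤ a → a ≤ max v2 w2 → min (col K o.im δ v2) (col K o.im δ w2) ≤
      col K o.im δ a ∧ col K o.im δ a ≤ max (col K o.im δ v2) (col K o.im δ w2) := by
    intro a h1 h2
    rcases le_total v2 w2 with hle | hle
    · rw [min_eq_left hle] at h1
      rw [max_eq_right hle] at h2
      exact ⟨(min_le_left _ _).trans (col_mono hδ h1), (col_mono hδ h2).trans (le_max_right _ _)⟩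
    · rw [min_eq_right hle] at h1
      rw [max_eq_left hle] at h2
      exact ⟨(min_le_right _ _).trans (col_mono hδ h1), (col_mono hδ h2).trans (le_max_left _ _)⟩
  -- the coordinates of the boxes
  have hc : (col K o.re δ w1 = col K o.re δ v1 ∧ col K o.im δ w2 = col K o.im δ v2) ∨
      (col K o.im δ w2 = col K o.im δ v2 ∧ (col K o.re δ w1 = col K o.re δ v1 + 1 ∨
        col K o.re δ w1 = col K o.re δ v1 - 1)) ∨
      (col K o.re δ w1 = col K o.re δ v1 ∧ (col K o.im δ w2 = col K o.im δ v2 + 1 ∨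
        col K o.im δ w2 = col K o.im δ v2 - 1)) := by
    rcases h with h | ⟨j, h⟩
    · left; exact ⟨congrArg Prod.fst h, congrArg Prod.snd h⟩
    · right
      have h1 := congrArg Prod.fst h
      have h2 := congrArg Prod.snd h
      rcases dir_cases j with ⟨-, e⟩ | ⟨-, e⟩ | ⟨-, e⟩ | ⟨-, e⟩ <;> rw [e] at h1 h2 <;>
        simp at h1 h2 <;> omega
  have h1 : LP {a | box δ o K a ∈ S} (v1, v2) (w1, v2) := by
    refine LP.hor fun a ha1 ha2 => ?_
    obtain ⟨b1, b2⟩ := hh a ha1 ha2
    change box δ o K (a, v2) ∈ S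
    rw [box_eq]
    simp only
    rcases hc with ⟨c1, c2⟩ | ⟨c1, c2⟩ | ⟨c1, c2⟩
    · have : col K o.re δ a = col K o.re δ v1 := by rw [c1] at b1 b2; simp at b1 b2; omega
      rw [this]; exact hv
    · by_cases e : col K o.re δ a = col K o.re δ v1
      · rw [e]; exact hv
      · have : col K o.re δ a = col K o.re δ w1 := by
          rcases c2 with c2 | c2 <;> rw [c2] at b1 b2 ⊢ <;> simp only [le_max_iff, min_le_iff] at b1 b2 <;>
            omega
        rw [this, ← c1]; exact hw
    · have : col K o.re δ a = col K o.re δ v1 := by rw [c1] at b1 b2; simp at b1 b2; omega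
      rw [this]; exact hv
  have h2 : LP {a | box δ o K a ∈ S} (w1, v2) (w1, w2) := by
    refine LP.ver fun a ha1 ha2 => ?_
    obtain ⟨b1, b2⟩ := hh2 a ha1 ha2
    change box δ o K (w1, a) ∈ S
    rw [box_eq]
    simp only
    rcases hc with ⟨c1, c2⟩ | ⟨c1, c2⟩ | ⟨c1, c2⟩
    · have : col K o.im δ a = col K o.im δ w2 := by rw [c2] at b1 b2 ⊢; simp at b1 b2; omega
      rw [this]; exact hw
    · have : col K o.im δ a = col K o.im δ w2 := by rw [c1] at b1 b2 ⊢; simp at b1 b2; omega
      rw [this]; exact hw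
    · by_cases e : col K o.im δ a = col K o.im δ w2
      · rw [e]; exact hw
      · have : col K o.im δ a = col K o.im δ v2 := by
          rcases c2 with c2 | c2 <;> rw [c2] at b1 b2 e <;> simp only [le_max_iff, min_le_iff] at b1 b2 <;>
            omega
        rw [this, c1]; exact hv
  exact h1.trans h2

/-- **Paths of boxes give paths of vertices.** -/
theorem LP.of_J4 (hδ : 0 < δ) (hm : 3 * δ ≤ mesh (K + 1)) {S : Set (ℤ × ℤ)} {c c' : ℤ × ℤ}
    (h : J4 S c c') (hc : c ∈ S) (hv : box δ o K v = c) (hw : box δ o K w = c') :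
    LP {a | box δ o K a ∈ S} v w := by
  have key : ∀ c', J4 S c c' → ∀ w, box δ o K w = c' → LP {a | box δ o K a ∈ S} v w := by
    intro c' h
    induction h with
    | refl =>
      intro w hw
      exact LP.adj hδ (by rw [hv]; exact hc) (by rw [hw]; exact hc) (Or.inl (hw.trans hv.symm))
    | @tail b d hb h1 ih =>
      intro w hw
      have hbS : b ∈ S := J4.mem hb hc
      obtain ⟨x, hx⟩ := exists_col (o := o.re) hδ hm b.1
      obtain ⟨y, hy⟩ := exists_col (o := o.im) hδ hm b.2
      have hu : box δ o K (x, y) = b := by rw [box_eq, hx, hy]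
      have h2 := ih (x, y) hu
      refine h2.trans (LP.adj hδ (by rw [hu]; exact hbS) (by rw [hw]; exact h1.2) (Or.inr ?_))
      rw [hu, hw]; exact h1.1
  exact key c' h w hw

end Pool.Agent.Q1.M3.Pg
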