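import Pool.Agent.Q1.M3.Pg.Reg
import Pool.Agent.Q1.M3.Step
import Pool.Agent.H5.Q1.Index

set_option autoImplicit false
open Finset

/-! Module M3: positions on the contour of a lattice polygon. `CC p` = corner number `p` of the contour
from the beginning of the side `s`; `outl n j` = outward label at the `j`-th lattice point of the side
`n`. -/

namespace Pool.Agent.Q1.M3.Pg

open Pool.Agent.H75.Perc Pool.Agent.H75.TwoArm Pool.Agent.H75.Four
open Pool.Agent.H75.TwoArm.StrandAux hiding vx_nxC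
open Pool.Agent.H49.Q1 (gcell gs mem_gs)
open Pool.Agent.Q1.M4 (Adj4 Conn4 Good IsSide inV inRect nextSide tail head)
open Pool.Agent.H5.Q1

variable {Q : Finset (ℤ × ℤ)} {X Y : ℤ → ℤ} {s : (ℤ × ℤ) × ℤ}

/-- Contour of the polygon. -/
noncomputable def CC (Q : Finset (ℤ × ℤ)) (X Y : ℤ → ℤ) (s : (ℤ × ℤ) × ℤ) (p : ℕ) : ℤ × ℤ :=
  (nx (gs X Y Q))^[p] (sc X Y s)

/-- `n`-th side of the walk. -/
def sd (Q : Finset (ℤ × ℤ)) (s : (ℤ × ℤ) × ℤ) (n : ℕ) : (ℤ × ℤ) × ℤ := (nextSide Q)^[n] s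

/-- Outward label at the `j`-th lattice point of the side `t`. -/
def outl (X Y : ℤ → ℤ) (t : (ℤ × ℤ) × ℤ) (j : ℕ) : ℤ × ℤ := lab (oc (sp X Y t j) t.2)

lemma outl_eq (t : (ℤ × ℤ) × ℤ) (j : ℕ) :
    outl X Y t j = sp X Y t j + (sp X Y t j + dir (t.2 - 1)) := by
  unfold outl
  obtain ⟨x, y⟩ := sp X Y t j
  rcases oc_cases (x, y) t.2 with ⟨a, h⟩ | ⟨a, h⟩ | ⟨a, h⟩ | ⟨a, h⟩ <;>
  rcases dir_cases (t.2 - 1) with ⟨b, g⟩ | ⟨b, g⟩ | ⟨b, g⟩ | ⟨b, g⟩ <;>
  first
  | (exfalso; omega)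
  | (rw [h, g]
     unfold lab
     simp only
     split_ifs <;> first
      | (exfalso; omega)
      | (ext <;> simp <;> ring))

lemma vx_in {e : ℤ × ℤ} (h : (e.1 + e.2) % 2 = 1) : (vx (in1 e) = eu e ∨ vx (in1 e) = ev e) ∧
    (vx (in2 e) = eu e ∨ vx (in2 e) = ev e) := by
  obtain ⟨a, b⟩ := e
  simp only at h
  rcases (by omega : a % 2 = 0 ∨ a % 2 = 1) with h1 | h1
  · have e1 : in1 (a, b) = (a, b + 1) := by unfold in1; simp [h1]
    have e2 : in2 (a, b) = (a + 1, b) := by unfold in2; simp [h1]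
    rw [e1, e2]
    unfold vx eu ev
    constructor
    · right; ext <;> simp only <;> omega
    · left; ext <;> simp only <;> omega
  · have e1 : in1 (a, b) = (a, b) := by unfold in1; simp [h1]
    have e2 : in2 (a, b) = (a + 1, b + 1) := by unfold in2; simp [h1]
    rw [e1, e2]
    unfold vx eu ev
    constructor
    · left; ext <;> simp only <;> omega
    · right; ext <;> simp only <;> omega

lemma vx_opc_ne (c : ℤ × ℤ) : vx (opc c) ≠ vx c := by
  obtain ⟨a, b⟩ := c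
  unfold vx opc
  rcases (by omega : a % 2 = 0 ∨ a % 2 = 1) with h1 | h1 <;>
    rcases (by omega : b % 2 = 0 ∨ b % 2 = 1) with h2 | h2 <;>
    simp only [h1, h2] <;> intro h <;> simp at h <;> omega

section

variable (hQ : Good Q) (hX : StrictMono X) (hY : StrictMono Y) (hs : IsSide Q s)

include hX hY hs

lemma CC_second (n : ℕ) {j : ℕ} (hj : j < slen X Y (sd Q s n)) :
    CC Q X Y s (SS Q X Y s n + 2 * j) = oc (sp X Y (sd Q s n) j) ((sd Q s n).2 + 1) := by
  have h := (walk_second hX hY hs n hj).1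
  rwa [EF_LF_eq_gs hX hY] at h

lemma CC_first (n : ℕ) {j : ℕ} (hj : j < slen X Y (sd Q s n)) :
    CC Q X Y s (SS Q X Y s n + (2 * j + 1)) = oc (sp X Y (sd Q s n) (j + 1)) (sd Q s n).2 := by
  have h := (walk_first hX hY hs n hj).1
  rwa [EF_LF_eq_gs hX hY] at h

lemma outl_notMem (n : ℕ) {j : ℕ} (hj : 0 < j) (hj' : j < slen X Y (sd Q s n)) :
    outl X Y (sd Q s n) j ∉ gs X Y Q := by
  have hsn : IsSide Q (sd Q s n) := Pool.Agent.H5.Q1.isSide_iter hs n
  rw [← EF_LF_eq_gs hX hY]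
  unfold outl
  have h1 := ((cell_side hX hY (sd Q s n) (j := j)).1 hj').1
  have h2 := (cell_side hX hY (sd Q s n) (j := j)).2 hj hj'.le
  rw [lab_oc_mem hX hY, h1, h2]
  rintro (h | h)
  · exact hsn.2 h
  · exact hsn.2 h

include hQ

lemma CC_vl (p : ℕ) : Vl (gs X Y Q) (vx (CC Q X Y s p)) := by
  have h1 : Out (EF (LF Q X Y)) (sc X Y s) := out_sc hQ hX hY hs
  have h2 : Out (EF (LF Q X Y)) ((nx (EF (LF Q X Y)))^[p] (sc X Y s)) := h1.inOrb ⟨p, rfl⟩
  have h3 := h2.vert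
  rw [EF_LF_eq_gs hX hY] at h3
  unfold VE at h3
  rw [mem_union, mem_image, mem_image] at h3
  rcases h3 with ⟨e, he, h4⟩ | ⟨e, he, h4⟩
  · refine ⟨e, he, ?_⟩
    have hodd := odd_gs he
    have h5 : vx (in1 e) = eu e ∨ vx (in1 e) = ev e := (vx_in hodd).1
    unfold CC
    rw [← h4]; exact h5
  · refine ⟨e, he, ?_⟩
    have hodd := odd_gs he
    have h5 : vx (in2 e) = eu e ∨ vx (in2 e) = ev e := (vx_in hodd).2
    unfold CC
    rw [← h4]; exact h5

/-! ### Positions -/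

/-- length of the contour -/
lemma orb_CC {N : ℕ} (hper : (nextSide Q)^[N] s = (s.1, s.2 + 4)) :
    Orb (nx (gs X Y Q)) (sc X Y s) (SS Q X Y s N) := by
  have := orb_SS hQ hX hY hs hper
  rwa [EF_LF_eq_gs hX hY] at this

lemma CC_add {N : ℕ} (hper : (nextSide Q)^[N] s = (s.1, s.2 + 4)) (p : ℕ) :
    CC Q X Y s (p + SS Q X Y s N) = CC Q X Y s p := by
  unfold CC
  rw [Function.iterate_add_apply, (orb_CC hQ hX hY hs hper).per]

lemma CC_inj {N : ℕ} (hper : (nextSide Q)^[N] s = (s.1, s.2 + 4)) {p q : ℕ}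
    (hp : p < SS Q X Y s N) (hq : q < SS Q X Y s N) (h : CC Q X Y s p = CC Q X Y s q) : p = q := by
  have hO := orb_CC hQ hX hY hs hper
  rcases lt_trichotomy p q with h1 | h1 | h1
  · exact absurd h (hO.inj p q h1 hq)
  · exact h1
  · exact absurd h.symm (hO.inj q p h1 hp)

omit hQ hX hY hs in
/-- positions of the side `n` -/
lemma SS_pos {N n : ℕ} (hn : n < N) {j : ℕ} (hj : j < slen X Y (sd Q s n)) :
    SS Q X Y s n + 2 * j + 1 ≤ SS Q X Y s N := by
  have h1 := SS_mono (Q := Q) (X := X) (Y := Y) s (show n + 1 ≤ N by omega)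
  rw [SS_succ] at h1
  unfold stp at h1
  unfold sd at hj
  omega

/-- **An outward label is met once.** -/
theorem pos_outl {N : ℕ} (hper : (nextSide Q)^[N] s = (s.1, s.2 + 4))
    (hfull : ∀ e : ℤ × ℤ, (e.1 + e.2) % 2 = 1 → Vl (gs X Y Q) (eu e) → Vl (gs X Y Q) (ev e) →
      e ∈ gs X Y Q) {n : ℕ} (hn : n < N) {j : ℕ} (hj : 0 < j) (hj' : j < slen X Y (sd Q s n))
    {p : ℕ} (hp : p < SS Q X Y s N) (h : lab (CC Q X Y s p) = outl X Y (sd Q s n) j) :
    p = SS Q X Y s n + 2 * j - 1 := by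
  obtain ⟨i, rfl⟩ : ∃ i, j = i + 1 := ⟨j - 1, by omega⟩
  have h1 := CC_first (Q := Q) hX hY hs n (j := i) (by omega)
  have h2 := SS_pos hn hj'
  have h3 := outl_notMem hX hY hs n hj hj'
  have hv := CC_vl hQ hX hY hs (SS Q X Y s n + (2 * i + 1))
  have hvp := CC_vl hQ hX hY hs p
  set e := outl X Y (sd Q s n) (i + 1) with he
  have hl : lab (CC Q X Y s (SS Q X Y s n + (2 * i + 1))) = e := by rw [h1]; rfl
  have hodd : (e.1 + e.2) % 2 = 1 := by rw [← h]; exact lab_odd _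
  have e1 : vx (CC Q X Y s p) = eu e ∨ vx (CC Q X Y s p) = ev e := by
    have := lab_star1 (CC Q X Y s p)
    rw [h] at this
    exact (mem_star1_iff hodd).1 this
  have e2 : vx (CC Q X Y s (SS Q X Y s n + (2 * i + 1))) = eu e ∨
      vx (CC Q X Y s (SS Q X Y s n + (2 * i + 1))) = ev e := by
    have := lab_star1 (CC Q X Y s (SS Q X Y s n + (2 * i + 1)))
    rw [hl] at this
    exact (mem_star1_iff hodd).1 this
  have e3 : vx (CC Q X Y s p) = vx (CC Q X Y s (SS Q X Y s n + (2 * i + 1))) := by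
    rcases e1 with e1 | e1 <;> rcases e2 with e2 | e2
    · rw [e1, e2]
    · exfalso
      rw [e1] at hvp; rw [e2] at hv
      exact h3 (hfull e hodd hvp hv)
    · exfalso
      rw [e1] at hvp; rw [e2] at hv
      exact h3 (hfull e hodd hv hvp)
    · rw [e1, e2]
  have e4 : CC Q X Y s p = CC Q X Y s (SS Q X Y s n + (2 * i + 1)) := by
    rcases lab_eq_iff.1 (h.trans hl.symm) with h5 | h5
    · exact h5
    · exfalso
      have h6 : vx (opc (CC Q X Y s (SS Q X Y s n + (2 * i + 1)))) ≠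
          vx (CC Q X Y s (SS Q X Y s n + (2 * i + 1))) := vx_opc_ne _
      rw [h5] at e3
      exact h6 e3
  have := CC_inj hQ hX hY hs hper hp (by omega) e4
  omega

end

end Pool.Agent.Q1.M3.Pg
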