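import Pool.Agent.Q1.M3.Pg.Colour
import Pool.Agent.Q1.M3.Pg.Ctr
import Pool.Agent.Q1.M3.Pg.Tie

set_option autoImplicit false
open Finset

/-! Module M3: the claims A and L for the sides of a lattice polygon, ties of both colours. -/

namespace Pool.Agent.Q1.M3.Pg

open Pool.Agent.H75.Perc Pool.Agent.H75.TwoArm Pool.Agent.H75.Four
open Pool.Agent.H69.Q1 Pool.Agent.H28.Q1
open Pool.Agent.H75.TwoArm.StrandAux hiding vx_nxC
open Pool.Agent.H49.Q1 (gcell gs mem_gs)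
open Pool.Agent.Q1.M4 (Adj4 Conn4 Good IsSide inV inRect nextSide tail head)
open Pool.Agent.H5.Q1

/-- A lattice polygon with a tip position `p0` on the contour of the first side. -/
structure LPol (Q : Finset (ℤ × ℤ)) (X Y : ℤ → ℤ) (s : (ℤ × ℤ) × ℤ) (N p0 : ℕ) : Prop where
  good : Good Q
  monoX : StrictMono X
  monoY : StrictMono Y
  side : IsSide Q s
  per : (nextSide Q)^[N] s = (s.1, s.2 + 4)
  two : 1 < N
  full : ∀ e : ℤ × ℤ, (e.1 + e.2) % 2 = 1 → Vl (gs X Y Q) (eu e) → Vl (gs X Y Q) (ev e) →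
      e ∈ gs X Y Q
  p0pos : 0 < p0
  p0le : p0 ≤ SS Q X Y s 1
  out : plab (CC Q X Y s p0) ∉ gs X Y Q

variable {Q : Finset (ℤ × ℤ)} {X Y : ℤ → ℤ} {s : (ℤ × ℤ) × ℤ} {N p0 : ℕ}

lemma CC_succ (p : ℕ) : CC Q X Y s (p + 1) = nx (gs X Y Q) (CC Q X Y s p) :=
  Function.iterate_succ_apply' _ _ _

lemma plab_CC (p : ℕ) : plab (CC Q X Y s (p + 1)) = lab (CC Q X Y s p) := by
  rw [← lab_pv (gs X Y Q), CC_succ, pv_nx]

lemma ca_CC (q m : ℕ) : ca (gs X Y Q) (CC Q X Y s q) m = CC Q X Y s (q + m) := by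
  unfold ca CC
  rw [add_comm, Function.iterate_add_apply]

lemma cz_CC (q m : ℕ) : cz (gs X Y Q) (CC Q X Y s (q + m + 1)) m = CC Q X Y s q := by
  unfold cz
  induction m with
  | zero => rw [CC_succ]; simp [pv_nx]
  | succ m ih =>
    rw [Function.iterate_succ_apply, ← add_assoc, CC_succ, pv_nx]
    exact ih

namespace LPol

variable (h : LPol Q X Y s N p0)

include h

lemma lenle {n : ℕ} (hn : 0 < n) : p0 ≤ SS Q X Y s n :=
  h.p0le.trans (SS_mono (Q := Q) (X := X) (Y := Y) s (show 1 ≤ n from hn))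

lemma len : p0 < SS Q X Y s N := by
  have h1 : SS Q X Y s 1 < SS Q X Y s N := by
    have h2 : 0 < slen X Y (sd Q s 1) := slen_pos h.monoX h.monoY _
    have := SS_pos (Q := Q) (X := X) (Y := Y) (s := s) h.two (j := 0) h2
    omega
  exact lt_of_le_of_lt h.p0le h1

/-- An outward label is met once by the contour. -/
lemma lab_inj {p q : ℕ} (hp : p < SS Q X Y s N) (hq : q < SS Q X Y s N)
    (hl : lab (CC Q X Y s p) = lab (CC Q X Y s q)) (hn : lab (CC Q X Y s q) ∉ gs X Y Q) :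
    p = q := by
  refine CC_inj h.good h.monoX h.monoY h.side h.per hp hq ?_
  rcases lab_eq_iff.1 hl with h1 | h1
  · exact h1
  · exfalso
    have hodd : ((lab (CC Q X Y s q)).1 + (lab (CC Q X Y s q)).2) % 2 = 1 :=
      odd_star1 (lab_star1 _)
    have v1 := CC_vl h.good h.monoX h.monoY h.side p
    have v2 := CC_vl h.good h.monoX h.monoY h.side q
    rw [h1] at v1
    have e2 := (mem_star1_iff hodd).1 (lab_star1 (CC Q X Y s q))
    have e1 : vx (opc (CC Q X Y s q)) = eu (lab (CC Q X Y s q)) ∨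
        vx (opc (CC Q X Y s q)) = ev (lab (CC Q X Y s q)) := by
      have h2 := lab_star1 (opc (CC Q X Y s q))
      have h3 : lab (opc (CC Q X Y s q)) = lab (CC Q X Y s q) := lab_eq_iff.2 (Or.inr rfl)
      rw [h3] at h2
      exact (mem_star1_iff hodd).1 h2
    have hne := vx_opc_ne (CC Q X Y s q)
    apply hn
    rcases e1 with e1 | e1 <;> rcases e2 with e2 | e2
    · exact absurd (e1.trans e2.symm) hne
    · exact h.full _ hodd (e1 ▸ v1) (e2 ▸ v2)
    · exact h.full _ hodd (e2 ▸ v2) (e1 ▸ v1)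
    · exact absurd (e1.trans e2.symm) hne

/-- position of the tip label -/
lemma pos_e1 {p : ℕ} (hp : p < SS Q X Y s N) (hl : lab (CC Q X Y s p) = plab (CC Q X Y s p0)) :
    p = p0 - 1 := by
  obtain ⟨i, hi⟩ : ∃ i, p0 = i + 1 := ⟨p0 - 1, by have := h.p0pos; omega⟩
  have hlen := h.len
  have ho := h.out
  rw [hi, plab_CC] at hl ho
  rw [hi] at hlen
  have := h.lab_inj hp (by omega) hl ho
  omega

lemma cz_eq {m : ℕ} (hm : m + 1 ≤ p0 + SS Q X Y s N) :
    cz (gs X Y Q) (CC Q X Y s p0) m = CC Q X Y s (p0 + SS Q X Y s N - (m + 1)) := by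
  have h1 := CC_add h.good h.monoX h.monoY h.side h.per p0
  rw [← h1]
  have e : p0 + SS Q X Y s N = (p0 + SS Q X Y s N - (m + 1)) + m + 1 := by omega
  conv_lhs => rw [e]
  exact cz_CC _ _

lemma plab_cz {m : ℕ} (hm : m + 2 ≤ p0 + SS Q X Y s N) :
    plab (cz (gs X Y Q) (CC Q X Y s p0) m) =
      lab (CC Q X Y s (p0 + SS Q X Y s N - (m + 2))) := by
  rw [h.cz_eq (by omega)]
  have e : p0 + SS Q X Y s N - (m + 1) = (p0 + SS Q X Y s N - (m + 2)) + 1 := by omega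
  rw [e, plab_CC]

/-- position on the contour of a label met by the backward walk -/
lemma cz_key' {e : ℤ × ℤ} {pe : ℕ} (hu : ∀ p < SS Q X Y s N, lab (CC Q X Y s p) = e → p = pe)
    {t : ℕ} (ht : t + 2 ≤ p0 + SS Q X Y s N)
    (he : plab (cz (gs X Y Q) (CC Q X Y s p0) t) = e) :
    pe = p0 + SS Q X Y s N - (t + 2) ∨ pe + SS Q X Y s N = p0 + SS Q X Y s N - (t + 2) := by
  set L := SS Q X Y s N with hL
  rw [h.plab_cz (by omega)] at he
  rcases Nat.lt_or_ge (p0 + L - (t + 2)) L with h5 | h5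
  · left
    exact (hu _ h5 he).symm
  · right
    have h6 := CC_add h.good h.monoX h.monoY h.side h.per (p0 + L - (t + 2) - L)
    rw [← hL, show p0 + L - (t + 2) - L + L = p0 + L - (t + 2) by omega] at h6
    rw [← hL, h6] at he
    have h7 := hu (p0 + L - (t + 2) - L) (by have := h.len; omega) he
    omega

/-- position on the contour of an outward label met by the backward walk -/
lemma cz_key {t : ℕ} (ht : t + 2 ≤ p0 + SS Q X Y s N) {n' j' : ℕ} (hn' : n' < N)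
    (hj1' : 0 < j') (hj2' : j' < slen X Y (sd Q s n'))
    (he : plab (cz (gs X Y Q) (CC Q X Y s p0) t) = outl X Y (sd Q s n') j') :
    SS Q X Y s n' + 2 * j' - 1 = p0 + SS Q X Y s N - (t + 2) ∨
      SS Q X Y s n' + 2 * j' - 1 + SS Q X Y s N = p0 + SS Q X Y s N - (t + 2) :=
  h.cz_key' (fun p hp hl => pos_outl h.good h.monoX h.monoY h.side h.per h.full hn' hj1' hj2' hp hl)
    ht he

/-- position on the contour of the tip label met by the backward walk -/
lemma cz_e1 {t : ℕ} (ht : t + 2 ≤ p0 + SS Q X Y s N)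
    (he : plab (cz (gs X Y Q) (CC Q X Y s p0) t) = plab (CC Q X Y s p0)) :
    SS Q X Y s N ≤ t + 1 := by
  have h1 := h.cz_key' (fun p hp hl => h.pos_e1 hp hl) ht he
  have := h.p0pos
  omega

variable {Yn : DEnv} {K τ A : Finset (ℤ × ℤ)}

/-- **Claim A on the contour.** -/
theorem claimA (hc : Ctx Yn K (gs X Y Q) τ A (CC Q X Y s p0)) {nh jh : ℕ} (hnh : nh < N)
    (hjh : 0 < jh) (hjh' : jh < slen X Y (sd Q s nh))
    (hp : outl X Y (sd Q s nh) jh ∈ perp K) {p : ℕ} (h1 : p0 ≤ p)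
    (h2 : p + 1 ≤ SS Q X Y s nh + 2 * jh) {g : ℤ × ℤ} (hg : ClJ Yn (fi Yn.α) g)
    {M : Finset (ℤ × ℤ)} :
    ¬ Co (du M (Yn.W ∪ kap K ∪ gs X Y Q ∪ τ ∪ {outl X Y (sd Q s nh) jh})) (fi (CC Q X Y s p)) g := by
  have hv : ∃ u, (u = eu (outl X Y (sd Q s nh) jh) ∨ u = ev (outl X Y (sd Q s nh) jh)) ∧
      Vl (gs X Y Q) u := by
    obtain ⟨i, rfl⟩ : ∃ i, jh = i + 1 := ⟨jh - 1, by omega⟩
    have h3 := CC_first (Q := Q) h.monoX h.monoY h.side nh (j := i) (by omega)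
    have h4 := CC_vl h.good h.monoX h.monoY h.side (SS Q X Y s nh + (2 * i + 1))
    refine ⟨_, ?_, h4⟩
    have h5 := lab_star1 (CC Q X Y s (SS Q X Y s nh + (2 * i + 1)))
    have h6 : lab (CC Q X Y s (SS Q X Y s nh + (2 * i + 1))) = outl X Y (sd Q s nh) (i + 1) := by
      rw [h3]; rfl
    rw [h6] at h5
    exact (mem_star1_iff (odd_star1 h5)).1 h5
  obtain ⟨m, rfl⟩ : ∃ m, p = p0 + m := ⟨p - p0, by omega⟩
  have hlen := SS_pos (Q := Q) (X := X) (Y := Y) (s := s) hnh hjh'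
  have hp0 := h.p0pos
  have := hc.claimA hp hv (m := m) (by
    intro t ht
    rw [ca_CC]
    constructor
    · intro h5
      have := h.pos_e1 (p := p0 + t) (by omega) h5
      omega
    · intro h5
      have := pos_outl h.good h.monoX h.monoY h.side h.per h.full hnh hjh hjh'
        (p := p0 + t) (by omega) h5
      omega) hg (M := M)
  rwa [ca_CC] at this

/-- **Claim L on the contour.** -/
theorem claimL (hc : Ctx Yn K (gs X Y Q) τ A (CC Q X Y s p0)) {nh jh : ℕ} (hnh : nh < N)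
    (hjh : 0 < jh) (hjh' : jh < slen X Y (sd Q s nh)) (hnh0 : 0 < nh)
    (hp : outl X Y (sd Q s nh) jh ∈ perp K) {n j : ℕ} (hn : n < N) (hj : 0 < j)
    (hj' : j < slen X Y (sd Q s n)) (h2 : SS Q X Y s nh + 2 * jh < SS Q X Y s n + 2 * j)
    {S κ : Finset (ℤ × ℤ)} (hSK : Disjoint S K) (hSG : ∀ u ∈ S, ¬ Vl (gs X Y Q) u)
    (hSτ : ∀ u ∈ S, ¬ Vl τ u) (hκE : κ ⊆ Yn.E) (hκA : Disjoint κ A)
    (heκ : outl X Y (sd Q s n) j ∈ κ)
    (hκS : ∀ e ∈ κ, e ≠ outl X Y (sd Q s n) j → eu e ∈ S ∧ ev e ∈ S)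
    {s0 : ℤ × ℤ} (hs0 : s0 = eu (outl X Y (sd Q s n) j) ∨ s0 = ev (outl X Y (sd Q s n) j))
    (hs0S : s0 ∈ S) {y : ℤ × ℤ} (hy : y ∈ S)
    (hco : Co (κ.erase (outl X Y (sd Q s n) j)) s0 y) : ∀ w ∈ Yn.W, w ∉ star1 y := by
  have hv : ∃ u, (u = eu (outl X Y (sd Q s nh) jh) ∨ u = ev (outl X Y (sd Q s nh) jh)) ∧
      Vl (gs X Y Q) u := by
    obtain ⟨i, rfl⟩ : ∃ i, jh = i + 1 := ⟨jh - 1, by omega⟩
    have h3 := CC_first (Q := Q) h.monoX h.monoY h.side nh (j := i) (by omega)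
    have h4 := CC_vl h.good h.monoX h.monoY h.side (SS Q X Y s nh + (2 * i + 1))
    refine ⟨_, ?_, h4⟩
    have h5 := lab_star1 (CC Q X Y s (SS Q X Y s nh + (2 * i + 1)))
    have h6 : lab (CC Q X Y s (SS Q X Y s nh + (2 * i + 1))) = outl X Y (sd Q s nh) (i + 1) := by
      rw [h3]; rfl
    rw [h6] at h5
    exact (mem_star1_iff (odd_star1 h5)).1 h5
  have hlen := SS_pos (Q := Q) (X := X) (Y := Y) (s := s) hnh hjh'
  have hlen2 := SS_pos (Q := Q) (X := X) (Y := Y) (s := s) hn hj'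
  -- the tip is before the target
  have htip : p0 ≤ SS Q X Y s nh := h.lenle hnh0
  have hp0 := h.p0pos
  set L := SS Q X Y s N with hL
  set pe := SS Q X Y s n + 2 * j - 1 with hpe
  have hle : lab (CC Q X Y s pe) = outl X Y (sd Q s n) j := by
    obtain ⟨i, hi⟩ : ∃ i, j = i + 1 := ⟨j - 1, by omega⟩
    have h3 := CC_first (Q := Q) h.monoX h.monoY h.side n (j := i) (by omega)
    have e : pe = SS Q X Y s n + (2 * i + 1) := by omega
    rw [e, h3, hi]; rfl
  obtain ⟨m, hm⟩ : ∃ m, p0 + L - (m + 2) = pe ∧ m + 2 ≤ p0 + L :=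
    ⟨p0 + L - 2 - pe, by omega, by omega⟩
  have hpm : plab (cz (gs X Y Q) (CC Q X Y s p0) m) = outl X Y (sd Q s n) j := by
    rw [h.plab_cz hm.2, hm.1, hle]
  refine hc.claimL hp hv (m := m) ?_ ?_ hSK hSG hSτ hκE hκA (by rw [hpm]; exact heκ)
    (by rw [hpm]; exact hκS) (by rw [hpm]; exact hs0) hs0S hy (by rw [hpm]; exact hco)
  · intro t ht
    constructor
    · intro h5
      have := h.cz_e1 (t := t) (by omega) h5
      omega
    · intro h5
      have := h.cz_key (t := t) (by omega) hnh hjh hjh' h5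
      omega
  · intro t ht
    rw [hpm]
    intro h5
    have := h.cz_key (t := t) (by omega) hn hj hj' h5
    omega

end LPol

end Pool.Agent.Q1.M3.Pg
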