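import Pool.Agent.H48.Q1.M3.Step

set_option autoImplicit false
open Finset

/-! Module M3: topology of a step (abstract form). `G` = labels of the lattice region of the step,
`τ` = labels joining the tip to `G`, the last one is `plab a0`, `a0` is a corner of the contour of `G`.
The contour of `G` is read in both directions: `ca G a0 m` (along the wired side), `cz G a0 m` (along
the other side). -/

namespace Pool.Agent.Q1.M3.Pg

open Pool.Agent.H75.Perc Pool.Agent.H75.TwoArm Pool.Agent.H75.Four Pool.Agent.H99.NC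
open Pool.Agent.H69.Q1 Pool.Agent.H39.Q1 Pool.Agent.H28.Q1 Pool.Agent.H48.Q1.M3
open Pool.Agent.H75.TwoArm.StrandAux hiding vx_nxC

variable {Y : DEnv} {K G τ A : Finset (ℤ × ℤ)} {a0 : ℤ × ℤ}

/-! ### Auxiliary facts -/

lemma eu_ne_ev {e : ℤ × ℤ} (he : (e.1 + e.2) % 2 = 1) : eu e ≠ ev e := by
  intro h
  have h1 := (Pool.Agent.H75.Four.PivAux.eu_ev he).1
  rw [h, sub_self] at h1
  unfold IsUnit4 at h1
  simp [Prod.ext_iff] at h1

/-- a vertex joined to a vertex of `G` by labels of `G` is a vertex of `G` -/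
lemma vl_of_co {G : Finset (ℤ × ℤ)} {u v : ℤ × ℤ} (hu : Vl G u) (h : Co G u v) : Vl G v := by
  induction h with
  | refl => exact hu
  | @tail b c _ hbc _ =>
    rcases ends_of_add hbc.1 rfl with ⟨-, h3⟩ | ⟨-, h3⟩
    · exact ⟨b + c, hbc.2, Or.inr h3⟩
    · exact ⟨b + c, hbc.2, Or.inl h3⟩

namespace Ctx

variable (h : Ctx Y K G τ A a0)
include h

/-- vertices of `G` are not in `K` -/
lemma vlK {u : ℤ × ℤ} (hu : Vl G u) : u ∉ K := by
  obtain ⟨e, he, hue⟩ := hu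
  have hodd := h.oddE e (h.GE he)
  have h1 := h.Gst e he
  rw [mem_star_iff hodd, not_or] at h1
  rcases hue with rfl | rfl
  · exact h1.1
  · exact h1.2

lemma solid : Solid Y K := ⟨h.conn, h.beta, h.alpha⟩

lemma AW : Disjoint A Y.W := disjoint_left.2 fun _ ha hw =>
  disjoint_left.1 Y.disj (h.AE ha) hw

/-- a label at a vertex of `G` is free -/
lemma free {e u : ℤ × ℤ} (hodd : (e.1 + e.2) % 2 = 1) (hu : Vl G u) (he : u = eu e ∨ u = ev e) :
    e ∈ Y.E := h.fresh u hu ((mem_star1_iff hodd).2 he)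

/-- a label at a vertex of `G` is not inside `K` -/
lemma notkap {e u : ℤ × ℤ} (hodd : (e.1 + e.2) % 2 = 1) (hu : Vl G u) (he : u = eu e ∨ u = ev e) :
    e ∉ kap K := by
  rw [mem_kap_iff hodd]
  have := h.vlK hu
  rcases he with rfl | rfl
  · exact fun h1 => this h1.1
  · exact fun h1 => this h1.2

/-- a label at a vertex of `G` which is in `τ` is the last one -/
lemma eqτ {e u : ℤ × ℤ} (hu : Vl G u) (he : u = eu e ∨ u = ev e) (hτ : e ∈ τ) : e = plab a0 := by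
  by_contra hne
  exact h.τG u ⟨e, mem_erase.2 ⟨hne, hτ⟩, he⟩ hu

lemma vl_pv (t : ℕ) : Vl G (vx ((pv G)^[t] a0)) :=
  vl_of_co h.a0G ((Pool.Agent.H39.Q1.side_open G a0 (Nat.zero_le t)).mono inter_subset_left)

lemma vl_cz (t : ℕ) : Vl G (vx (cz G a0 t)) := h.vl_pv (t + 1)

lemma vl_ca (t : ℕ) : Vl G (vx (ca G a0 t)) := by
  unfold ca
  induction t with
  | zero => exact h.a0G
  | succ t ih =>
    rw [Function.iterate_succ_apply']
    set z := (nx G)^[t] a0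
    have h1 : pv G (nx G z) = z := pv_nx G z
    have h2 := Pool.Agent.H39.Q1.side_open G (nx G z) (Nat.zero_le 1)
    have h3 : (pv G)^[1] (nx G z) = z := h1
    rw [h3] at h2
    exact vl_of_co ih (h2.mono inter_subset_left).symm

/-- a label crossed by the contour of `G` at the time `t` -/
lemma free_cz (t : ℕ) : plab (cz G a0 t) ∈ Y.E :=
  h.free (Pool.Agent.H39.Q1.odd_plab _) (h.vl_cz t) (end_plab _)

end Ctx

lemma ca_pv (G : Finset (ℤ × ℤ)) (a0 : ℤ × ℤ) {k m : ℕ} (hk : k ≤ m) :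
    (pv G)^[k] (ca G a0 m) = ca G a0 (m - k) := by
  induction k with
  | zero => rfl
  | succ k ih =>
    rw [Function.iterate_succ_apply', ih (by omega)]
    unfold ca
    have h1 : m - k = (m - (k + 1)) + 1 := by omega
    rw [h1, Function.iterate_succ_apply', pv_nx]

lemma plab_ca (G : Finset (ℤ × ℤ)) (a0 : ℤ × ℤ) (t : ℕ) :
    plab (ca G a0 (t + 1)) = lab (ca G a0 t) := by
  have h1 : pv G (ca G a0 (t + 1)) = ca G a0 t := by
    unfold ca
    rw [Function.iterate_succ_apply', pv_nx]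
  rw [← h1, lab_pv]

lemma cz_pv (G : Finset (ℤ × ℤ)) (a0 : ℤ × ℤ) (t : ℕ) : (pv G)^[t] (cz G a0 0) = cz G a0 t := by
  unfold cz
  rw [← Function.iterate_add_apply]

/-- the contour on the wired side as a dual path -/
lemma dual_ca {m : ℕ} {L : Finset (ℤ × ℤ)}
    (hL : ∀ t < m, lab (ca G a0 t) ∉ G → lab (ca G a0 t) ∉ L) :
    ∃ M, Co (du M L) (fi a0) (fi (ca G a0 m)) := by
  have h1 := Pool.Agent.H39.Q1.side_dual G (ca G a0 m) (Nat.zero_le m)
  rw [ca_pv G a0 le_rfl, Nat.sub_self] at h1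
  refine ⟨_, (h1.mono (du_sub_of fun e he hn => ?_)).symm⟩
  obtain ⟨k, ⟨-, hk⟩, rfl⟩ := mem_met.1 he
  have h2 : m - k = (m - k - 1) + 1 := by omega
  rw [ca_pv G a0 hk.le, h2, plab_ca] at hn ⊢
  exact hL _ (by omega) hn

/-- the contour on the other side as a dual path -/
lemma dual_cz {m : ℕ} {L : Finset (ℤ × ℤ)}
    (hL : ∀ t < m, plab (cz G a0 t) ∉ G → plab (cz G a0 t) ∉ L) :
    ∃ M, Co (du M L) (fi (cz G a0 0)) (fi (cz G a0 m)) := by
  have h1 := Pool.Agent.H39.Q1.side_dual G (cz G a0 0) (Nat.zero_le m)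
  rw [cz_pv] at h1
  refine ⟨_, h1.mono (du_sub_of fun e he hn => ?_)⟩
  obtain ⟨k, ⟨-, hk⟩, rfl⟩ := mem_met.1 he
  rw [cz_pv] at hn ⊢
  exact hL _ hk hn

namespace Ctx

variable (h : Ctx Y K G τ A a0)
include h

/-- the end of a label of `perp K` at `G` -/
lemma perp_end {e u : ℤ × ℤ} (hp : e ∈ perp K) (hu : u = eu e ∨ u = ev e) (huG : Vl G u) :
    ∃ w ∈ K, ∀ L : Finset (ℤ × ℤ), e ∈ L → Co L u w := by
  have hodd : (e.1 + e.2) % 2 = 1 := odd_star (perp_star hp)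
  have hea := Pool.Agent.H75.Four.PivAux.eu_ev hodd
  have hnu := h.vlK huG
  rcases (mem_perp_iff hodd).1 hp with ⟨h1, h2⟩ | ⟨h1, h2⟩
  · rcases hu with rfl | rfl
    · exact absurd h1 hnu
    · exact ⟨_, h1, fun L hL => Co.symm (Relation.ReflTransGen.single ⟨hea.1, by rw [hea.2]; exact hL⟩)⟩
  · rcases hu with rfl | rfl
    · exact ⟨_, h2, fun L hL => Relation.ReflTransGen.single ⟨hea.1, by rw [hea.2]; exact hL⟩⟩
    · exact absurd h2 hnu

omit h in
lemma e1_odd : ((plab a0).1 + (plab a0).2) % 2 = 1 := Pool.Agent.H39.Q1.odd_plab _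

lemma e1E : plab a0 ∈ Y.E := h.free (e1_odd (a0 := a0)) h.a0G (end_plab a0)

lemma e1W : plab a0 ∉ Y.W := fun hw => disjoint_left.1 Y.disj h.e1E hw

lemma e1star : plab a0 ∉ star K := h.τst _ h.e1τ

/-- the outer end of `plab a0` -/
lemma outer : vx (opc (pv G a0)) ≠ vx a0 ∧
    (vx (opc (pv G a0)) = eu (plab a0) ∨ vx (opc (pv G a0)) = ev (plab a0)) := by
  have h1 := fi_of_closed h.e1G
  have hodd := e1_odd (a0 := a0)
  obtain ⟨o1, o2, -, -, hu, hv⟩ := Pool.Agent.H75.Four.opc_zu hodd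
  have hne := eu_ne_ev hodd
  rcases eq_zu_or_zv hodd (lab_pv G a0) with h3 | h3
  · rw [h1.1, h3, o1, hu, hv]
    exact ⟨hne.symm, Or.inr rfl⟩
  · rw [h1.1, h3, o2, hu, hv]
    exact ⟨hne, Or.inl rfl⟩

/-- the tip is joined to the outer end of `plab a0` -/
lemma co_outer : Co (τ.erase (plab a0)) (vx Y.α) (vx (opc (pv G a0))) :=
  h.left _ h.outer.2 h.outer.1

/-- the tip is joined to `G` by `τ` -/
lemma co_τ : Co τ (vx Y.α) (vx a0) := by
  have h1 := h.co_outer.mono (erase_subset _ _)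
  refine h1.trans ?_
  have hea := Pool.Agent.H75.Four.PivAux.eu_ev (e1_odd (a0 := a0))
  have h2 : Co τ (eu (plab a0)) (ev (plab a0)) :=
    Relation.ReflTransGen.single ⟨hea.1, by rw [hea.2]; exact h.e1τ⟩
  obtain ⟨h3, h4⟩ := h.outer
  rcases end_plab a0 with h5 | h5 <;> rcases h4 with h6 | h6
  · exact absurd (h6.trans h5.symm) h3
  · rw [h5, h6]; exact h2.symm
  · rw [h5, h6]; exact h2
  · exact absurd (h6.trans h5.symm) h3

/-- **Claim A.** The wired side of the contour of `G` is not joined to the closed boundary. `h0` is a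
label between `G` and `K` which is not met before the position `m`. -/
theorem claimA {h0 : ℤ × ℤ} (hp : h0 ∈ perp K)
    (hv : ∃ u, (u = eu h0 ∨ u = ev h0) ∧ Vl G u) {m : ℕ}
    (hm : ∀ t < m, lab (ca G a0 t) ≠ plab a0 ∧ lab (ca G a0 t) ≠ h0)
    {g : ℤ × ℤ} (hg : ClJ Y (fi Y.α) g) {M : Finset (ℤ × ℤ)} :
    ¬ Co (du M (Y.W ∪ kap K ∪ G ∪ τ ∪ {h0})) (fi (ca G a0 m)) g := by
  intro hco
  obtain ⟨u, hu, huG⟩ := hv
  have hp' : h0 ∈ star K := perp_star hp
  have hodd0 : (h0.1 + h0.2) % 2 = 1 := odd_star hp'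
  have h0E : h0 ∈ Y.E := h.free hodd0 huG hu
  set L := Y.W ∪ kw Y K ∪ G ∪ τ ∪ {h0} with hL
  have hLE : L ⊆ Y.E ∪ Y.W := by
    intro a ha
    simp only [hL, mem_union, mem_singleton, mem_inter] at ha
    rcases ha with (((h1 | h1) | h1) | h1) | h1
    · exact mem_union_right _ h1
    · exact mem_union.2 h1.2
    · exact mem_union_left _ (h.GE h1)
    · exact h.τE h1
    · rw [h1]; exact mem_union_left _ h0E
  have hLA : ∀ a ∈ L, a ∉ A := by
    intro a ha haA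
    simp only [hL, mem_union, mem_singleton, mem_inter] at ha
    rcases ha with (((h1 | h1) | h1) | h1) | h1
    · exact disjoint_left.1 Y.disj (h.AE haA) h1
    · exact h.Ast a haA (kap_sub_star h1.1)
    · exact disjoint_left.1 h.AG haA h1
    · exact disjoint_left.1 h.Aτ haA h1
    · rw [h1] at haA; exact h.Ast _ haA hp'
  have he1L : plab a0 ∈ L := by
    rw [hL]; exact mem_union_left _ (mem_union_right _ h.e1τ)
  -- the faces
  obtain ⟨M1, hM1⟩ := h.leftd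
  have d1 : Co (du M1 L) (fi Y.α) (fi (cz G a0 0)) :=
    hM1.mono (du_anti fun a ha => mem_sdiff.2 ⟨hLE ha, hLA a ha⟩)
  obtain ⟨M2, hM2⟩ := hg
  have d2 : Co (du M2 L) (fi Y.α) g := hM2.mono (du_anti hLE)
  obtain ⟨M3, d3⟩ := dual_ca (G := G) (a0 := a0) (m := m) (L := L) (by
    intro t ht hnG hLt
    have hv : Vl G (vx (ca G a0 (t + 1))) := h.vl_ca (t + 1)
    have hend := end_plab (ca G a0 (t + 1))
    rw [plab_ca] at hend
    have hoddt : ((lab (ca G a0 t)).1 + (lab (ca G a0 t)).2) % 2 = 1 := odd_lab _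
    have hE := h.free hoddt hv hend
    simp only [hL, mem_union, mem_singleton, mem_inter] at hLt
    rcases hLt with (((h1 | h1) | h1) | h1) | h1
    · exact disjoint_left.1 Y.disj hE h1
    · exact h.notkap hoddt hv hend h1.1
    · exact hnG h1
    · exact (hm t ht).1 (h.eqτ hv hend h1)
    · exact (hm t ht).2 h1)
  have d4 : Co (du M L) (fi (ca G a0 m)) g := by
    refine hco.mono (du_anti fun a ha => ?_)
    simp only [hL, mem_union, mem_singleton, mem_inter] at ha ⊢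
    tauto
  set z := pv G a0 with hz
  have hlz : lab z = plab a0 := lab_pv G a0
  have hfz : fi (opc z) = fi a0 := (fi_of_closed h.e1G).2.symm
  have hd : Co (du (M1 ∪ M2 ∪ M ∪ M3) (insert (lab z) L)) (fi z) (fi (opc z)) := by
    rw [hlz, insert_eq_self.2 he1L, hfz]
    have hz' : fi (cz G a0 0) = fi z := rfl
    rw [hz'] at d1
    exact du_union_left (du_union_left (du_union_left d1.symm d2) d4.symm) d3.symm
  apply sep_corner hd
  rw [hlz]
  -- the vertices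
  have hGL : G ⊆ L.erase (plab a0) := fun a ha => mem_erase.2 ⟨fun h1 => h.e1G (h1 ▸ ha), by
    simp only [hL, mem_union]; tauto⟩
  have hτL : τ.erase (plab a0) ⊆ L.erase (plab a0) := by
    refine erase_subset_erase _ fun a ha => ?_
    simp only [hL, mem_union]; tauto
  have hWL : Y.W ⊆ L.erase (plab a0) := fun a ha => mem_erase.2 ⟨fun h1 => h.e1W (h1 ▸ ha), by
    simp only [hL, mem_union]; tauto⟩
  have hkL : kw Y K ⊆ L.erase (plab a0) := fun a ha =>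
    mem_erase.2 ⟨fun h1 => h.e1star (h1 ▸ kw_star ha), by
      simp only [hL, mem_union]; tauto⟩
  have h0L : h0 ∈ L.erase (plab a0) := mem_erase.2 ⟨fun h1 => h.e1star (h1 ▸ hp'), by
    simp only [hL, mem_union, mem_singleton]; tauto⟩
  obtain ⟨w, hwK, hw⟩ := h.perp_end hp hu huG
  have j1 : Co (L.erase (plab a0)) (vx a0) u := (h.Gconn u huG).mono hGL
  have j2 : Co (L.erase (plab a0)) u w := hw _ h0L
  have j3 : Co (L.erase (plab a0)) w (vx Y.β) := (h.conn w hwK _ h.beta).mono hkL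
  have j4 : Co (L.erase (plab a0)) (vx Y.β) (vx Y.α) := h.inv.co_W.mono hWL
  have j5 : Co (L.erase (plab a0)) (vx Y.α) (vx (opc z)) := h.co_outer.mono hτL
  have hvz : vx z = vx a0 := (fi_of_closed h.e1G).1.symm
  rw [hvz]
  exact j1.trans (j2.trans (j3.trans (j4.trans j5)))

end Ctx

lemma eu_ev_ad {e : ℤ × ℤ} (he : (e.1 + e.2) % 2 = 1) {u v : ℤ × ℤ} (hu : u = eu e ∨ u = ev e)
    (hv : v = eu e ∨ v = ev e) {L : Finset (ℤ × ℤ)} (hL : e ∈ L) : Co L u v := by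
  have hea := Pool.Agent.H75.Four.PivAux.eu_ev he
  have h2 : Co L (eu e) (ev e) :=
    Relation.ReflTransGen.single ⟨hea.1, by rw [hea.2]; exact hL⟩
  rcases hu with rfl | rfl <;> rcases hv with rfl | rfl
  · exact Co.refl _ _
  · exact h2
  · exact h2.symm
  · exact Co.refl _ _

lemma ends_lab (z : ℤ × ℤ) : (vx z = eu (lab z) ∧ vx (opc z) = ev (lab z)) ∨
    (vx z = ev (lab z) ∧ vx (opc z) = eu (lab z)) := by
  have hodd : ((lab z).1 + (lab z).2) % 2 = 1 := odd_lab z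
  obtain ⟨o1, o2, -, -, ou, ov⟩ := Pool.Agent.H75.Four.opc_zu hodd
  rcases eq_zu_or_zv hodd rfl with h3 | h3
  · left
    exact ⟨(congrArg vx h3).trans ou, (congrArg (fun a => vx (opc a)) h3).trans (by
      rw [o1]; exact ov)⟩
  · right
    exact ⟨(congrArg vx h3).trans ov, (congrArg (fun a => vx (opc a)) h3).trans (by
      rw [o2]; exact ou)⟩

/-- the two ends of a label along which the exploration moves -/
lemma ends_open {L : Finset (ℤ × ℤ)} {z : ℤ × ℤ} (h : plab z ∈ L) :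
    (vx z = eu (plab z) ∧ vx (pv L z) = ev (plab z)) ∨
    (vx z = ev (plab z) ∧ vx (pv L z) = eu (plab z)) := by
  have h1 := (vx_of_open h).1
  have h2 := ends_lab (pv L z)
  rw [← h1, lab_pv] at h2
  tauto

/-- the exploration leaves the set `S` along an open label -/
lemma exists_leave {X : DEnv} {ω : Finset (ℤ × ℤ)} (hω : ω ⊆ X.E) {S : Finset (ℤ × ℤ)} {i0 : ℕ}
    (h1 : i0 < X.len ω) (h2 : vx (X.cor ω (i0 + 1)) ∈ S) (hβ : vx X.β ∉ S) :
    ∃ j, i0 < j ∧ j < X.len ω ∧ vx (X.cor ω j) ∈ S ∧ vx (X.cor ω (j + 1)) ∉ S ∧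
      plab (X.cor ω j) ∈ ω ∪ X.W := by
  classical
  have hex : ∃ t, i0 < t ∧ vx (X.cor ω t) ∉ S := ⟨X.len ω, h1, by rw [X.cor_len hω]; exact hβ⟩
  have hs := Nat.find_spec hex
  have hm : Nat.find hex ≤ X.len ω :=
    Nat.find_min' hex ⟨h1, by rw [X.cor_len hω]; exact hβ⟩
  set t := Nat.find hex with ht
  have ht1 : t ≠ i0 + 1 := fun h3 => hs.2 (by rw [h3]; exact h2)
  have ht2 : vx (X.cor ω (t - 1)) ∈ S := by
    by_contra h3
    exact Nat.find_min hex (m := t - 1) (by omega) ⟨by omega, h3⟩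
  have ht3 : t - 1 + 1 = t := by omega
  refine ⟨t - 1, by omega, by omega, ht2, by rw [ht3]; exact hs.2, ?_⟩
  by_contra h3
  apply hs.2
  have h4 : X.cor ω t = pv (ω ∪ X.W) (X.cor ω (t - 1)) := by
    conv_lhs => rw [← ht3]
    exact Function.iterate_succ_apply' _ _ _
  rw [h4, ← (fi_of_closed h3).1]
  exact ht2

/-- The configuration used in claim L. -/
noncomputable def cfg (Y : DEnv) (K G τ κ : Finset (ℤ × ℤ)) (h0 : ℤ × ℤ) : Finset (ℤ × ℤ) :=
  (τ ∪ G ∪ κ ∪ {h0} ∪ kap K) ∩ Y.E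

lemma mem_cfg {Y : DEnv} {K G τ κ : Finset (ℤ × ℤ)} {h0 a : ℤ × ℤ} :
    a ∈ cfg Y K G τ κ h0 ↔ (a ∈ τ ∨ a ∈ G ∨ a ∈ κ ∨ a = h0 ∨ a ∈ kap K) ∧ a ∈ Y.E := by
  unfold cfg
  simp only [mem_inter, mem_union, mem_singleton, or_assoc]

lemma cfg_E {Y : DEnv} {K G τ κ : Finset (ℤ × ℤ)} {h0 : ℤ × ℤ} : cfg Y K G τ κ h0 ⊆ Y.E :=
  inter_subset_right

/-- Labels joining the tip to `β` through `G` and `h0`. -/
noncomputable def pth (Y : DEnv) (K G τ : Finset (ℤ × ℤ)) (h0 : ℤ × ℤ) : Finset (ℤ × ℤ) :=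
  τ ∪ G ∪ {h0} ∪ kw Y K

lemma mem_pth {Y : DEnv} {K G τ : Finset (ℤ × ℤ)} {h0 a : ℤ × ℤ} :
    a ∈ pth Y K G τ h0 ↔ a ∈ τ ∨ a ∈ G ∨ a = h0 ∨ a ∈ kw Y K := by
  unfold pth
  simp only [mem_union, mem_singleton, or_assoc]

namespace Ctx

variable (h : Ctx Y K G τ A a0)
include h

/-- labels joining the tip to `β` through `G` and `h0` -/
lemma co_P {h0 : ℤ × ℤ} (hp : h0 ∈ perp K) (hv : ∃ u, (u = eu h0 ∨ u = ev h0) ∧ Vl G u) :
    Co (pth Y K G τ h0) (vx Y.α) (vx Y.β) := by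
  obtain ⟨u, hu, huG⟩ := hv
  obtain ⟨wK, hwK, hw0⟩ := h.perp_end hp hu huG
  exact (h.co_τ.mono fun a ha => mem_pth.2 (Or.inl ha)).trans
    (((h.Gconn u huG).mono fun a ha => mem_pth.2 (Or.inr (Or.inl ha))).trans
    ((hw0 _ (mem_pth.2 (Or.inr (Or.inr (Or.inl rfl))))).trans
    ((h.conn wK hwK _ h.beta).mono fun a ha => mem_pth.2 (Or.inr (Or.inr (Or.inr ha))))))

/-- a label at a vertex of the contour, not in `G`, not `plab a0`, not `h0`, is not in the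
configuration -/
lemma off_cz {t : ℕ} {h0 : ℤ × ℤ} {κ : Finset (ℤ × ℤ)} (hnG : plab (cz G a0 t) ∉ G)
    (h1 : plab (cz G a0 t) ≠ plab a0) (h2 : plab (cz G a0 t) ≠ h0) (h3 : plab (cz G a0 t) ∉ κ) :
    plab (cz G a0 t) ∉ cfg Y K G τ κ h0 ∪ Y.W := by
  intro hL
  have hvt := h.vl_cz t
  have hend := end_plab (cz G a0 t)
  rcases mem_union.1 hL with h4 | h4
  · rcases (mem_cfg.1 h4).1 with h4 | h4 | h4 | h4 | h4
    · exact h1 (h.eqτ hvt hend h4)
    · exact hnG h4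
    · exact h3 h4
    · exact h2 h4
    · exact h.notkap (Pool.Agent.H39.Q1.odd_plab _) hvt hend h4
  · exact disjoint_left.1 Y.disj (h.free_cz t) h4

lemma off_A {h0 : ℤ × ℤ} (hp : h0 ∈ star K) {κ : Finset (ℤ × ℤ)} (hκA : Disjoint κ A) {a : ℤ × ℤ}
    (ha : a ∈ cfg Y K G τ κ h0 ∪ Y.W) : a ∉ A := by
  intro haA
  rcases mem_union.1 ha with h1 | h1
  · rcases (mem_cfg.1 h1).1 with h1 | h1 | h1 | h1 | h1
    · exact disjoint_left.1 h.Aτ haA h1
    · exact disjoint_left.1 h.AG haA h1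
    · exact disjoint_left.1 hκA h1 haA
    · rw [h1] at haA; exact h.Ast _ haA hp
    · exact h.Ast a haA (kap_sub_star h1)
  · exact disjoint_left.1 Y.disj (h.AE haA) h1

lemma τL {κ : Finset (ℤ × ℤ)} {h0 : ℤ × ℤ} : τ ⊆ cfg Y K G τ κ h0 ∪ Y.W := fun a ha => by
  rcases mem_union.1 (h.τE ha) with h1 | h1
  · exact mem_union_left _ (mem_cfg.2 ⟨Or.inl ha, h1⟩)
  · exact mem_union_right _ h1

lemma gL {κ : Finset (ℤ × ℤ)} {h0 : ℤ × ℤ} : G ⊆ cfg Y K G τ κ h0 ∪ Y.W := fun _ ha =>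
  mem_union_left _ (mem_cfg.2 ⟨Or.inr (Or.inl ha), h.GE ha⟩)

lemma PL {κ : Finset (ℤ × ℤ)} {h0 : ℤ × ℤ} (h0E : h0 ∈ Y.E) :
    pth Y K G τ h0 ⊆ cfg Y K G τ κ h0 ∪ Y.W := fun a ha => by
  rcases mem_pth.1 ha with h1 | h1 | h1 | h1
  · exact h.τL h1
  · exact h.gL h1
  · exact mem_union_left _ (mem_cfg.2 ⟨Or.inr (Or.inr (Or.inr (Or.inl h1))), by rw [h1]; exact h0E⟩)
  · obtain ⟨h2, h3⟩ := mem_inter.1 h1
    rcases mem_union.1 h3 with h4 | h4
    · exact mem_union_left _ (mem_cfg.2 ⟨Or.inr (Or.inr (Or.inr (Or.inr h2))), h4⟩)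
    · exact mem_union_right _ h4

/-- the corner `cz G a0 m` is visited -/
lemma visit {h0 : ℤ × ℤ} (hp : h0 ∈ perp K) {m : ℕ}
    (hm : ∀ t < m, plab (cz G a0 t) ≠ plab a0 ∧ plab (cz G a0 t) ≠ h0)
    {κ : Finset (ℤ × ℤ)} (hκ : ∀ t < m, plab (cz G a0 t) ∉ κ) (hκA : Disjoint κ A) :
    ∃ i < Y.len (cfg Y K G τ κ h0), Y.cor (cfg Y K G τ κ h0) i = cz G a0 m := by
  have hωE : cfg Y K G τ κ h0 ⊆ Y.E := cfg_E
  obtain ⟨M1, hM1⟩ := h.leftd
  have d1 : Co (du M1 (cfg Y K G τ κ h0 ∪ Y.W)) (fi Y.α) (fi (cz G a0 0)) :=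
    hM1.mono (du_anti fun a ha => mem_sdiff.2 ⟨union_subset_union_left hωE ha,
      h.off_A (perp_star hp) hκA ha⟩)
  obtain ⟨M2, d2⟩ := dual_cz (G := G) (a0 := a0) (m := m)
    (L := cfg Y K G τ κ h0 ∪ Y.W)
    (fun t ht hnG => h.off_cz hnG (hm t ht).1 (hm t ht).2 (hκ t ht))
  have hcG := h.vl_cz m
  have hne : Y.α ≠ Y.β := fun h1 => h.alpha (by rw [h1]; exact h.beta)
  have v1 : Co (cfg Y K G τ κ h0 ∪ Y.W) (vx Y.α) (vx (cz G a0 m)) :=
    (h.co_τ.mono h.τL).trans ((h.Gconn _ hcG).mono h.gL)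
  have hO := inOrb_pv_iff.2 (inOrb_of_co _ v1 (du_union_left d1 d2))
  have hB : ¬ Back (cfg Y K G τ κ h0 ∪ Y.W) Y.α Y.β (cz G a0 m) := by
    rintro ⟨j, hj, h1, h2⟩
    obtain ⟨mb, hm0, hb⟩ := h.inv.back'
    obtain ⟨-, b1, b2, b3, -⟩ := hb _ hωE
    have hjm : j < mb := by
      by_contra hcon
      exact h2 mb hm0 (not_lt.1 hcon) b1
    exact b3 j hjm (by rw [h1]; exact h.free_cz m)
  obtain ⟨i0, hi0, hci⟩ := (Y.visited_iff hωE hne).2 ⟨hO, hB⟩
  refine ⟨i0, lt_of_le_of_ne hi0 fun h1 => ?_, hci⟩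
  rw [h1, Y.cor_len hωE] at hci
  have := h.vlK hcG
  rw [← hci] at this
  exact this h.beta

/-- a label of the configuration or of the path with an end in `S` is in `κ` -/
lemma mem_κ {h0 : ℤ × ℤ} (hp : h0 ∈ perp K) (hv : ∃ u, (u = eu h0 ∨ u = ev h0) ∧ Vl G u)
    {S κ : Finset (ℤ × ℤ)} (hSK : Disjoint S K) (hSG : ∀ u ∈ S, ¬ Vl G u) (hSτ : ∀ u ∈ S, ¬ Vl τ u)
    {a x : ℤ × ℤ} (ha : a ∈ cfg Y K G τ κ h0 ∨ a ∈ pth Y K G τ h0) (hx : x = eu a ∨ x = ev a)
    (hxS : x ∈ S) (hodda : (a.1 + a.2) % 2 = 1) : a ∈ κ := by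
  have ha' : a ∈ τ ∨ a ∈ G ∨ a ∈ κ ∨ a = h0 ∨ a ∈ kap K := by
    rcases ha with h1 | h1
    · exact (mem_cfg.1 h1).1
    · rcases mem_pth.1 h1 with h1 | h1 | h1 | h1
      · exact Or.inl h1
      · exact Or.inr (Or.inl h1)
      · exact Or.inr (Or.inr (Or.inr (Or.inl h1)))
      · exact Or.inr (Or.inr (Or.inr (Or.inr (mem_inter.1 h1).1)))
  rcases ha' with h1 | h1 | h1 | h1 | h1
  · exact absurd ⟨a, h1, hx⟩ (hSτ _ hxS)
  · exact absurd ⟨a, h1, hx⟩ (hSG _ hxS)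
  · exact h1
  · exfalso
    subst h1
    obtain ⟨u, hu, huG⟩ := hv
    have huK := h.vlK huG
    have h3 := (mem_perp_iff hodda).1 hp
    have hxK : x ∉ K := fun hxK => disjoint_left.1 hSK hxS hxK
    have : x = u := by
      rcases hx with rfl | rfl <;> rcases hu with rfl | rfl
      · rfl
      · rcases h3 with h3 | h3
        · exact absurd h3.1 hxK
        · exact absurd h3.2 huK
      · rcases h3 with h3 | h3
        · exact absurd h3.1 huK
        · exact absurd h3.2 hxK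
      · rfl
    rw [this] at hxS
    exact hSG _ hxS huG
  · exfalso
    have h3 := (mem_kap_iff hodda).1 h1
    rcases hx with rfl | rfl
    · exact disjoint_left.1 hSK hxS h3.1
    · exact disjoint_left.1 hSK hxS h3.2

set_option linter.unusedVariables false in
/-- **Claim L.** A set `S` of vertices attached by the free label `plab (cz G a0 m)` to the contour of
`G` on the other side does not lead to a wired label. -/
theorem claimL {h0 : ℤ × ℤ} (hp : h0 ∈ perp K)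
    (hv : ∃ u, (u = eu h0 ∨ u = ev h0) ∧ Vl G u) {m : ℕ}
    (hm : ∀ t ≤ m, plab (cz G a0 t) ≠ plab a0 ∧ plab (cz G a0 t) ≠ h0)
    (hm' : ∀ t < m, plab (cz G a0 t) ≠ plab (cz G a0 m))
    {S κ : Finset (ℤ × ℤ)} (hSK : Disjoint S K) (hSG : ∀ u ∈ S, ¬ Vl G u) (hSτ : ∀ u ∈ S, ¬ Vl τ u)
    (hκE : κ ⊆ Y.E) (hκA : Disjoint κ A) (heκ : plab (cz G a0 m) ∈ κ)
    (hκS : ∀ e ∈ κ, e ≠ plab (cz G a0 m) → eu e ∈ S ∧ ev e ∈ S)
    {s0 : ℤ × ℤ} (hs0 : s0 = eu (plab (cz G a0 m)) ∨ s0 = ev (plab (cz G a0 m))) (hs0S : s0 ∈ S)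
    {y : ℤ × ℤ} (hy : y ∈ S) (hco : Co (κ.erase (plab (cz G a0 m))) s0 y) :
    ∀ w ∈ Y.W, w ∉ star1 y := by
  intro w hw hwy
  have hκt : ∀ t < m, plab (cz G a0 t) ∉ κ := by
    intro t ht h1
    have h3 := hκS _ h1 (hm' t ht)
    have hvt := h.vl_cz t
    rcases end_plab (cz G a0 t) with h4 | h4
    · rw [h4] at hvt; exact hSG _ h3.1 hvt
    · rw [h4] at hvt; exact hSG _ h3.2 hvt
  obtain ⟨i0, hi0, hci⟩ := h.visit hp (fun t ht => hm t ht.le) hκt hκA
  have hcG := h.vl_cz m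
  have hesE := h.free_cz m
  have hend := end_plab (cz G a0 m)
  have hm0 := (hm m le_rfl).1
  have hpl : plab (Y.cor (cfg Y K G τ κ h0) i0) = plab (cz G a0 m) := by rw [hci]
  generalize plab (cz G a0 m) = es at *
  have hesW : es ∉ Y.W := fun h1 => disjoint_left.1 Y.disj hesE h1
  have hesG : es ∉ G := fun h1 => hSG _ hs0S ⟨es, h1, hs0⟩
  have hesτ : es ∉ τ := fun h1 => hm0 (h.eqτ hcG hend h1)
  have hκL : κ ⊆ cfg Y K G τ κ h0 ∪ Y.W := fun a ha =>
    mem_union_left _ (mem_cfg.2 ⟨Or.inr (Or.inr (Or.inl ha)), hκE ha⟩)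
  have h0E : h0 ∈ Y.E := by
    obtain ⟨u, hu, huG⟩ := hv
    exact h.free (odd_star (perp_star hp)) huG hu
  have hnoW : ∀ i < Y.len (cfg Y K G τ κ h0), plab (Y.cor (cfg Y K G τ κ h0) i) ∈ Y.W →
      plab (Y.cor (cfg Y K G τ κ h0) i) ∈ pth Y K G τ h0 := fun i hi hiW =>
    h.inv.no_wired' cfg_E (h.PL h0E) (h.co_P hp hv) hi hiW
  have hvis : ∀ a x, (a ∈ cfg Y K G τ κ h0 ∨ a ∈ pth Y K G τ h0) → (x = eu a ∨ x = ev a) → x ∈ S →
      (a.1 + a.2) % 2 = 1 → a ∈ κ := fun a x ha hx hxS ho => h.mem_κ hp hv hSK hSG hSτ ha hx hxS ho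
  have hτL := h.τL (κ := κ) (h0 := h0)
  have hGL := h.gL (κ := κ) (h0 := h0)
  have hωE : cfg Y K G τ κ h0 ⊆ Y.E := cfg_E
  generalize cfg Y K G τ κ h0 = ω at *
  -- the step from `c`
  have heL : es ∈ ω ∪ Y.W := hκL heκ
  have hcs : ∀ t, Y.cor ω (t + 1) = pv (ω ∪ Y.W) (Y.cor ω t) := fun t =>
    Function.iterate_succ_apply' _ _ _
  have hvc : vx (Y.cor ω i0) ∉ S := fun h1 => hSG _ h1 (by rw [hci]; exact hcG)
  have hs1 : vx (Y.cor ω (i0 + 1)) = s0 := by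
    have h1 := ends_open (L := ω ∪ Y.W) (z := Y.cor ω i0) (by rw [hpl]; exact heL)
    rw [← hcs, hpl] at h1
    rcases h1 with ⟨h2, h3⟩ | ⟨h2, h3⟩ <;> rcases hs0 with h4 | h4
    · exact absurd (by rw [h2, ← h4]; exact hs0S) hvc
    · rw [h3, h4]
    · rw [h3, h4]
    · exact absurd (by rw [h2, ← h4]; exact hs0S) hvc
  obtain ⟨j, hj1, hj2, hj3, hj4, hj5⟩ := exists_leave hωE (S := S) hi0 (by rw [hs1]; exact hs0S)
    (fun h1 => disjoint_left.1 hSK h1 h.beta)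
  have hjo : ((plab (Y.cor ω j)).1 + (plab (Y.cor ω j)).2) % 2 = 1 :=
    Pool.Agent.H39.Q1.odd_plab _
  have hends := ends_open hj5
  rw [← hcs] at hends
  have hjκ : plab (Y.cor ω j) ∈ κ := by
    refine hvis _ _ ?_ (end_plab _) hj3 hjo
    rcases mem_union.1 hj5 with h1 | h1
    · exact Or.inl h1
    · exact Or.inr (hnoW j hj2 h1)
  have hjes : plab (Y.cor ω j) = es := by
    by_contra hne
    have h1 := hκS _ hjκ hne
    rcases hends with ⟨-, h2⟩ | ⟨-, h2⟩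
    · exact hj4 (by rw [h2]; exact h1.2)
    · exact hj4 (by rw [h2]; exact h1.1)
  -- both sides of `es` are on the interface
  have hbr := bridge (L := ω ∪ Y.W) (c := Y.α) (a := i0) (b := j) hj1.le
    (by change plab (Y.cor ω i0) = plab (Y.cor ω j); rw [hpl, hjes])
    (by change plab (Y.cor ω i0) ∈ _; rw [hpl]; exact heL)
    (by
      change Y.cor ω i0 ≠ Y.cor ω j
      intro h1
      rw [h1] at hvc
      exact hvc hj3)
  apply hbr
  change Co ((ω ∪ Y.W).erase (plab (Y.cor ω i0))) (vx (Y.cor ω i0)) (vx (Y.cor ω (i0 + 1)))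
  rw [hpl, hs1, hci]
  -- the ends are joined off `es`
  have hGL' : G ⊆ (ω ∪ Y.W).erase es := fun a ha =>
    mem_erase.2 ⟨fun h1 => hesG (h1 ▸ ha), hGL ha⟩
  have hτL' : τ ⊆ (ω ∪ Y.W).erase es := fun a ha =>
    mem_erase.2 ⟨fun h1 => hesτ (h1 ▸ ha), hτL ha⟩
  have hWL' : Y.W ⊆ (ω ∪ Y.W).erase es := fun a ha =>
    mem_erase.2 ⟨fun h1 => hesW (h1 ▸ ha), mem_union_right _ ha⟩
  have j1 : Co ((ω ∪ Y.W).erase es) (vx a0) (vx (cz G a0 m)) := (h.Gconn _ hcG).mono hGL'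
  have j2 : Co ((ω ∪ Y.W).erase es) (vx Y.α) (vx a0) := h.co_τ.mono hτL'
  have j3 : Co ((ω ∪ Y.W).erase es) (vx Y.β) (vx Y.α) := h.inv.co_W.mono hWL'
  have j5 : Co ((ω ∪ Y.W).erase es) s0 y := hco.mono fun a ha =>
    mem_erase.2 ⟨(mem_erase.1 ha).1, hκL (mem_erase.1 ha).2⟩
  have j4 : Co ((ω ∪ Y.W).erase es) (vx Y.β) y := by
    obtain ⟨mb, -, -, -, -, hb⟩ := h.inv.back
    obtain ⟨k, -, hk⟩ := hb w hw
    have h1 := h.inv.co_of_mem (c := (pv Y.W)^[k] Y.β) (by rw [hk]; exact hw)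
    have h2 := end_plab ((pv Y.W)^[k] Y.β)
    rw [hk] at h2
    have hoddw : (w.1 + w.2) % 2 = 1 := odd_star1 hwy
    exact (h1.trans (eu_ev_ad hoddw h2 ((mem_star1_iff hoddw).1 hwy) hw)).mono hWL'
  exact j1.symm.trans (j2.symm.trans (j3.symm.trans (j4.trans j5.symm)))

/-- the contour meets a label of `perp K` at most once -/
lemma cz_ne {q : ℕ} (hq : plab (cz G a0 q) ∈ perp K) (hm : ∀ t ≤ q, plab (cz G a0 t) ≠ plab a0)
    {t : ℕ} (ht : t < q) : plab (cz G a0 t) ≠ plab (cz G a0 q) := by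
  intro he
  have hnG : plab (cz G a0 t) ∉ G := fun h1 => h.Gst _ h1 (by rw [he]; exact perp_star hq)
  by_cases hc : cz G a0 t = cz G a0 q
  · -- the contour is periodic
    have h1 : (pv G)^[t + 1] a0 = (pv G)^[t + 1] ((pv G)^[q - t] a0) := by
      rw [← Function.iterate_add_apply]
      have : t + 1 + (q - t) = q + 1 := by omega
      rw [this]
      exact hc
    have h2 : a0 = (pv G)^[q - t] a0 := pv_iterate_inj h1
    refine hm (q - t - 1) (by omega) ?_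
    unfold cz
    have : q - t - 1 + 1 = q - t := by omega
    rw [this, ← h2]
  · obtain ⟨-, -, h1, h2, -⟩ := twin (L := G) he hc hnG
    have v1 := h.vlK (h.vl_cz t)
    have v2 := h.vlK (h.vl_cz q)
    have hodd : ((plab (cz G a0 q)).1 + (plab (cz G a0 q)).2) % 2 = 1 :=
      Pool.Agent.H39.Q1.odd_plab _
    have h3 := ends_lab (pv G (cz G a0 t))
    rw [lab_pv, he, ← h1, ← h2] at h3
    have h4 := (mem_perp_iff hodd).1 hq
    rcases h3 with ⟨h5, h6⟩ | ⟨h5, h6⟩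
    · rw [← h5, ← h6] at h4
      rcases h4 with h4 | h4
      · exact v1 h4.1
      · exact v2 h4.2
    · rw [← h5, ← h6] at h4
      rcases h4 with h4 | h4
      · exact v2 h4.1
      · exact v1 h4.2

/-- **Ring order.** `h1` is a label between `G` and `K` met at the position `q` of the contour; `s` is
another label of `perp K` which is not met before, its outer end is joined to the tip off `K`. Then `s`
is before `h1` on the ring. -/
theorem ring_lt {q : ℕ} (hq : plab (cz G a0 q) ∈ perp K)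
    {s : ℤ × ℤ} (hs : s ∈ perp K) (hsE : s ∈ Y.E ∪ Y.W)
    (hm : ∀ t ≤ q, plab (cz G a0 t) ≠ plab a0 ∧ plab (cz G a0 t) ≠ s)
    {u : ℤ × ℤ} (hu : u = eu s ∨ u = ev s)
    (huc : Co ((G ∪ τ ∪ Y.W) \ star K) (vx Y.α) u) {i j : ℕ}
    (hi : RPos Y K (plab (cz G a0 q)) i) (hj : RPos Y K s j) : j < i := by
  rw [rpos_iff] at hi hj
  obtain ⟨hi1, hi2⟩ := hi
  obtain ⟨hj1, hj2⟩ := hj
  by_contra hlt
  rw [not_lt] at hlt
  have hcG := h.vl_cz q
  have hcK := h.vlK hcG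
  have hse : s ≠ plab (cz G a0 q) := fun h1 => (hm q le_rfl).2 h1.symm
  have hGQ : G ⊆ (G ∪ τ ∪ Y.W) \ star K := fun a ha =>
    mem_sdiff.2 ⟨mem_union_left _ (mem_union_left _ ha), h.Gst a ha⟩
  have hτQ : τ ⊆ (G ∪ τ ∪ Y.W) \ star K := fun a ha =>
    mem_sdiff.2 ⟨mem_union_left _ (mem_union_right _ ha), h.τst a ha⟩
  have hQ : ∀ a ∈ (G ∪ τ ∪ Y.W) \ star K, a ∉ star K := fun a ha => (mem_sdiff.1 ha).2
  have hQE : (G ∪ τ ∪ Y.W) \ star K ⊆ Y.E ∪ Y.W := fun a ha => by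
    rcases mem_union.1 (mem_sdiff.1 ha).1 with h1 | h1
    · rcases mem_union.1 h1 with h2 | h2
      · exact mem_union_left _ (h.GE h2)
      · exact h.τE h2
    · exact mem_union_right _ h1
  have hQA : ∀ a ∈ (G ∪ τ ∪ Y.W) \ star K, a ∉ A := fun a ha haA => by
    rcases mem_union.1 (mem_sdiff.1 ha).1 with h1 | h1
    · rcases mem_union.1 h1 with h2 | h2
      · exact disjoint_left.1 h.AG haA h2
      · exact disjoint_left.1 h.Aτ haA h2
    · exact disjoint_left.1 Y.disj (h.AE haA) h1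
  set L := insert (plab (cz G a0 q)) (insert s ((G ∪ τ ∪ Y.W) \ star K ∪ kw Y K)) with hL
  have hLE : L ⊆ Y.E ∪ Y.W := by
    rw [hL]
    refine insert_subset (mem_union_left _ (h.free_cz q)) (insert_subset hsE
      (union_subset hQE inter_subset_right))
  have hLA : ∀ a ∈ L, a ∉ A := by
    intro a ha haA
    rw [hL, mem_insert, mem_insert, mem_union] at ha
    rcases ha with h1 | h1 | h1 | h1
    · rw [h1] at haA; exact h.Ast _ haA (perp_star hq)
    · rw [h1] at haA; exact h.Ast _ haA (perp_star hs)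
    · exact hQA a h1 haA
    · exact h.Ast a haA (kw_star h1)
  obtain ⟨M1, hM1⟩ := h.leftd
  have d1 : Co (du M1 L) (fi Y.α) (fi (cz G a0 0)) :=
    hM1.mono (du_anti fun a ha => mem_sdiff.2 ⟨hLE ha, hLA a ha⟩)
  obtain ⟨M2, hM2⟩ := h.inv.clJ
  have d2 : Co (du M2 L) (fi Y.β) (fi Y.α) := hM2.mono (du_anti hLE)
  obtain ⟨M3, d3⟩ := dual_cz (G := G) (a0 := a0) (m := q) (L := L) (by
    intro t ht hnG hLt
    have hvt := h.vl_cz t
    have hend := end_plab (cz G a0 t)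
    have hoddt : ((plab (cz G a0 t)).1 + (plab (cz G a0 t)).2) % 2 = 1 :=
      Pool.Agent.H39.Q1.odd_plab _
    rw [hL, mem_insert, mem_insert, mem_union, mem_sdiff, mem_union, mem_union] at hLt
    rcases hLt with h1 | h1 | ⟨(h1 | h1) | h1, -⟩ | h1
    · exact h.cz_ne hq (fun t ht => (hm t ht).1) ht h1
    · exact (hm t ht.le).2 h1
    · exact hnG h1
    · exact (hm t ht.le).1 (h.eqτ hvt hend h1)
    · exact disjoint_left.1 Y.disj (h.free_cz t) h1
    · exact h.notkap hoddt hvt hend (kw_kap h1))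
  obtain ⟨M4, d4⟩ := ring_dual' (X := Y) h.beta (Nat.zero_le i) hQ hi2 hj2 (by rw [hi1]; exact hq)
    (by rw [hj1]; exact hs) (Or.inl le_rfl) (Or.inl hlt) hi2.le
  rw [hi1, hj1, ← hL] at d4
  have v1 : Co ((G ∪ τ ∪ Y.W) \ star K) (vx Y.α) (vx (cz G a0 q)) :=
    (h.co_τ.mono hτQ).trans ((h.Gconn _ hcG).mono hGQ)
  exact core_gen h.conn h.beta hQ hcK hq v1 hi1 hs hse hu h.alpha huc
    (du_union_left (du_union_left (du_union_left d3.symm d1.symm) d2.symm) d4)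

/-- two labels of `perp K` between `G` and `K` in the order of the contour -/
theorem ring_lt' {p q : ℕ} (hq : plab (cz G a0 q) ∈ perp K) (hp : plab (cz G a0 p) ∈ perp K)
    (hpq : q < p) (hm : ∀ t ≤ p, plab (cz G a0 t) ≠ plab a0) {i j : ℕ}
    (hi : RPos Y K (plab (cz G a0 q)) i) (hj : RPos Y K (plab (cz G a0 p)) j) : j < i := by
  have hcG := h.vl_cz p
  refine h.ring_lt hq hp (mem_union_left _ (h.free_cz p)) (fun t ht => ⟨hm t (by omega), ?_⟩)
    (end_plab _) ?_ hi hj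
  · exact h.cz_ne hp hm (by omega)
  · refine (h.co_τ.mono fun a ha => ?_).trans ((h.Gconn _ hcG).mono fun a ha => ?_)
    · exact mem_sdiff.2 ⟨mem_union_left _ (mem_union_right _ ha), h.τst a ha⟩
    · exact mem_sdiff.2 ⟨mem_union_left _ (mem_union_left _ ha), h.Gst a ha⟩

/-- no label at a vertex of `K` is in `G` -/
lemma lb_K {v d : ℤ × ℤ} (hv : v ∈ K) (hd : IsUnit4 d) : lb v d ∉ G := fun h1 =>
  h.Gst _ h1 ((lb_star_iff v hd).2 (Or.inl hv))

/-- the face of `β` is joined off `G` to the face of every corner in `K` -/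
lemma dual_K {z : ℤ × ℤ} (hz : vx z ∈ K) : ∃ M, Co (du M G) (fi Y.β) (fi z) := by
  have key : ∀ v, Co (kw Y K) (vx Y.β) v → v ∈ K ∧
      ∀ z, vx z = v → ∃ M, Co (du M G) (fi Y.β) (fi z) := by
    intro v hv
    induction hv with
    | refl => exact ⟨h.beta, fun z hz => dual_vertex (fun d hd => h.lb_K h.beta hd) rfl hz⟩
    | @tail b c hb hbc ih =>
      obtain ⟨hbK, ih⟩ := ih
      have hd : IsUnit4 (c - b) := hbc.1
      have hbc' : b + (c - b) = c := by abel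
      have hlb : lb b (c - b) = b + c := by rw [lb_add, hbc']
      have hck := (lb_kap_iff (K := K) b hd).1 (by rw [hlb]; exact kw_kap hbc.2)
      rw [hbc'] at hck
      refine ⟨hck.2, fun z hz => ?_⟩
      -- the corner of `b` before the label; the next corner of `kw` is at `c`
      obtain ⟨M1, h1⟩ := ih (cr b (c - b)) (vx_cr b hd)
      have hop := pv_cr_open (L := kw Y K) b hd (by rw [hlb]; exact hbc.2)
      rw [hbc'] at hop
      have hfi : fi (cr b (c - b)) = fi (cr c (lt (c - b))) := by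
        rw [← hop]
        exact (vx_of_open (by rw [plab_cr b hd, hlb]; exact hbc.2)).2
      obtain ⟨M2, h2⟩ := dual_vertex (G := G) (fun d hd => h.lb_K hck.2 hd)
        (vx_cr c (unit_lt hd)) hz
      rw [hfi] at h1
      exact ⟨_, du_union_left h1 h2⟩
  exact (key _ (h.conn _ h.beta _ hz)).2 z rfl

/-- the faces of the labels between `G` and `K` are on the contour of `G` -/
lemma cz_of_perp {c : ℤ × ℤ} (hc : plab c ∈ perp K) (hcG : Vl G (vx c)) : ∃ t, cz G a0 t = c := by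
  obtain ⟨z, hzK, hfz, -⟩ := exists_in c hc (h.vlK hcG)
  obtain ⟨M1, h1⟩ := h.dual_K hzK
  rw [hfz] at h1
  obtain ⟨M2, h2⟩ := h.inv.clJ
  have hGE : G ⊆ Y.E ∪ Y.W := fun a ha => mem_union_left _ (h.GE ha)
  obtain ⟨M3, h3⟩ := h.leftd
  have h3' : Co (du M3 G) (fi Y.α) (fi (cz G a0 0)) := h3.mono (du_anti fun a ha =>
    mem_sdiff.2 ⟨hGE ha, fun h1 => disjoint_left.1 h.AG h1 ha⟩)
  have hv : Co G (vx (cz G a0 0)) (vx c) :=
    (h.Gconn _ (h.vl_cz 0)).symm.trans (h.Gconn _ hcG)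
  obtain ⟨t, ht⟩ := inOrb_pv_iff.2 (inOrb_of_co _ hv
    (du_union_left (du_union_left h3'.symm (h2.symm.mono (du_anti hGE))) h1))
  exact ⟨t, by rw [← cz_pv]; exact ht⟩

/-- Every label between `G` and `K` is on the ring. -/
theorem exists_pos {e : ℤ × ℤ} (he : e ∈ perp K)
    (hv : ∃ u, (u = eu e ∨ u = ev e) ∧ Vl G u) : ∃ i, RPos Y K e i := by
  obtain ⟨u, hu, huG⟩ := hv
  have hodd : (e.1 + e.2) % 2 = 1 := odd_star (perp_star he)
  -- the corner at `u` before `e`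
  obtain ⟨d, hd, hlb⟩ : ∃ d, IsUnit4 d ∧ lb u d = e := by
    have hea := Pool.Agent.H75.Four.PivAux.eu_ev hodd
    rcases hu with rfl | rfl
    · exact ⟨ev e - eu e, hea.1, by rw [lb_add]; convert hea.2 using 1; abel⟩
    · exact ⟨eu e - ev e, by rw [← neg_sub]; exact isUnit4_neg hea.1, by
        rw [lb_add]; convert hea.2 using 1; abel⟩
  have hpc : plab (cr u d) = e := by rw [plab_cr u hd, hlb]
  obtain ⟨t, ht⟩ := h.cz_of_perp (c := cr u d) (by rw [hpc]; exact he) (by rw [vx_cr u hd]; exact huG)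
  -- the contour of `G` as a dual path off `kw`
  obtain ⟨M3, d3⟩ := dual_cz (G := G) (a0 := a0) (m := t) (L := kw Y K) (fun s _ _ h1 =>
    h.notkap (Pool.Agent.H39.Q1.odd_plab _) (h.vl_cz s) (end_plab _) (kw_kap h1))
  obtain ⟨M1, hM1⟩ := h.leftd
  have d1 : Co (du M1 (kw Y K)) (fi Y.α) (fi (cz G a0 0)) :=
    hM1.mono (du_anti fun a ha => mem_sdiff.2 ⟨(mem_inter.1 ha).2, fun h1 =>
      h.Ast a h1 (kw_star ha)⟩)
  obtain ⟨M2, d2⟩ := co_of_clJ K h.inv.clJ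
  obtain ⟨i, hi, h1⟩ := on_ring h.conn (c := cz G a0 t) h.beta (by rw [ht, hpc]; exact he)
    (du_union_left (du_union_left d2 d1) d3)
  exact ⟨i, rpos_iff.2 ⟨by rw [h1, ht, hpc], hi⟩⟩

end Ctx

end Pool.Agent.Q1.M3.Pg
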