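import Pool.Agent.Q1.M3.Pg.TAL
import Pool.Agent.Q1.M5.Defs
import Pool.Agent.H29.Q1.Pos

set_option autoImplicit false
open Finset

/-! Module M3: if no vertex of the closed sides `n1 ≤ n < n2` is connected to the wired arc, then there
is a closed dual path between a side before `n1` and a side after `n2`. -/

namespace Pool.Agent.Q1.M3.Pg

open Pool.Agent.H75.Perc Pool.Agent.H75.TwoArm Pool.Agent.H75.Four
open Pool.Agent.H69.Q1 (exists_orb_nx inOrb_symm inOrb_trans)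
open Pool.Agent.H75.TwoArm.StrandAux hiding vx_nxC
open Pool.Agent.H49.Q1 (gcell gs mem_gs CJ)
open Pool.Agent.Q1.M4 (Adj4 Conn4 Good IsSide inV inRect nextSide tail head PType head_eq_tail_next)
open Pool.Agent.Q1.M5 (sV sL WL TV CT CI)
open Pool.Agent.H5.Q1
open Pool.Agent.H29.Q1 (sV_sp sp_of_sV exists_side)

/-! ### Corners of the contour -/

lemma lab_oc' (v : ℤ × ℤ) (k : ℤ) : lab (oc v k) = v + (v + dir (k - 1)) := by
  obtain ⟨x, y⟩ := v
  rcases oc_cases (x, y) k with ⟨a, h⟩ | ⟨a, h⟩ | ⟨a, h⟩ | ⟨a, h⟩ <;>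
  rcases dir_cases (k - 1) with ⟨b, g⟩ | ⟨b, g⟩ | ⟨b, g⟩ | ⟨b, g⟩ <;>
  first
  | (exfalso; omega)
  | (rw [h, g]
     unfold lab
     simp only
     split_ifs <;> first
      | (exfalso; omega)
      | (ext <;> simp <;> ring))

/-- the `j`-th label of a side -/
def sl' (X Y : ℤ → ℤ) (t : (ℤ × ℤ) × ℤ) (j : ℕ) : ℤ × ℤ := sp X Y t j + sp X Y t (j + 1)

lemma lab_second (X Y : ℤ → ℤ) (t : (ℤ × ℤ) × ℤ) (j : ℕ) :
    lab (oc (sp X Y t j) (t.2 + 1)) = sl' X Y t j := by
  unfold sl'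
  rw [lab_oc', sp_succ, add_sub_cancel_right]

lemma sl'_ends (X Y : ℤ → ℤ) (t : (ℤ × ℤ) × ℤ) (j : ℕ) :
    ((sl' X Y t j).1 + (sl' X Y t j).2) % 2 = 1 ∧
    ((sp X Y t j = eu (sl' X Y t j) ∧ sp X Y t (j + 1) = ev (sl' X Y t j)) ∨
      (sp X Y t j = ev (sl' X Y t j) ∧ sp X Y t (j + 1) = eu (sl' X Y t j))) :=
  ends_add (sp_unit X Y t j)

/-- formula for the outer face of a side label -/
lemma ofc_eq (X Y : ℤ → ℤ) (t : (ℤ × ℤ) × ℤ) (j : ℕ) :
    ofc X Y t j = (((sl' X Y t j).1 + (dir (t.2 - 1)).1 + 1) / 2,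
      ((sl' X Y t j).2 + (dir (t.2 - 1)).2 + 1) / 2) := by
  unfold ofc sl'
  rw [sp_succ]
  obtain ⟨x, y⟩ := sp X Y t j
  have hd : (t.2 % 4 = 0 ∧ dir t.2 = (1, 0) ∧ dir (t.2 - 1) = (0, -1)) ∨
      (t.2 % 4 = 1 ∧ dir t.2 = (0, 1) ∧ dir (t.2 - 1) = (1, 0)) ∨
      (t.2 % 4 = 2 ∧ dir t.2 = (-1, 0) ∧ dir (t.2 - 1) = (0, 1)) ∨
      (t.2 % 4 = 3 ∧ dir t.2 = (0, -1) ∧ dir (t.2 - 1) = (-1, 0)) := by
    rcases dir_cases t.2 with ⟨p, q⟩ | ⟨p, q⟩ | ⟨p, q⟩ | ⟨p, q⟩ <;>
    rcases dir_cases (t.2 - 1) with ⟨p', q'⟩ | ⟨p', q'⟩ | ⟨p', q'⟩ | ⟨p', q'⟩ <;>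
    first
    | (exfalso; omega)
    | (rw [q, q']; simp; omega)
  obtain ⟨f0, f1, f2, f3⟩ := fi_oc (x, y) (t.2 + 1)
  rcases hd with ⟨e, e1, e2⟩ | ⟨e, e1, e2⟩ | ⟨e, e1, e2⟩ | ⟨e, e1, e2⟩
  · rw [f1 (by omega), e1, e2]
    simp only [Prod.mk_add_mk, Prod.mk.injEq]
    omega
  · rw [f2 (by omega), e1, e2]
    simp only [Prod.mk_add_mk, Prod.mk.injEq]
    omega
  · rw [f3 (by omega), e1, e2]
    simp only [Prod.mk_add_mk, Prod.mk.injEq]
    omega
  · rw [f0 (by omega), e1, e2]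
    simp only [Prod.mk_add_mk, Prod.mk.injEq]
    omega

/-- every label of a side is one of its `sl'` -/
lemma exists_sl' {X Y : ℤ → ℤ} (hX : StrictMono X) (hY : StrictMono Y) (t : (ℤ × ℤ) × ℤ)
    {e : ℤ × ℤ} (hodd : (e.1 + e.2) % 2 = 1) (h : sV X Y t (eu e) ∧ sV X Y t (ev e)) :
    ∃ j < slen X Y t, sl' X Y t j = e := by
  obtain ⟨i, hi, h1⟩ := sp_of_sV hX hY t h.1
  obtain ⟨j, hj, h2⟩ := sp_of_sV hX hY t h.2
  have hs := (Pool.Agent.H75.Four.PivAux.eu_ev hodd)
  have key : ∀ a b : ℕ, IsUnit4 (sp X Y t b - sp X Y t a) → a + 1 = b ∨ b + 1 = a := by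
    intro a b hu
    unfold sp at hu
    unfold IsUnit4 at hu
    rcases dir_cases t.2 with ⟨p, q⟩ | ⟨p, q⟩ | ⟨p, q⟩ | ⟨p, q⟩ <;> rw [q] at hu <;>
      simp [Prod.ext_iff] at hu <;> omega
  have hu : IsUnit4 (sp X Y t j - sp X Y t i) := by rw [← h1, ← h2]; exact hs.1
  rcases key i j hu with h3 | h3
  · refine ⟨i, by omega, ?_⟩
    unfold sl'
    rw [h3, ← h1, ← h2]; exact hs.2
  · refine ⟨j, by omega, ?_⟩
    unfold sl'
    rw [h3, ← h1, ← h2, add_comm]; exact hs.2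

lemma sL_iff' {X Y : ℤ → ℤ} (s : (ℤ × ℤ) × ℤ) {l : ℤ × ℤ} (hl : (l.1 + l.2) % 2 = 1) :
    l ∈ sL X Y s ↔ sV X Y s (eu l) ∧ sV X Y s (ev l) := by
  unfold sL sV
  rw [mem_filter, mem_gcell_iff hl]
  unfold Pool.Agent.H49.Q1.onCell inB inRect eu ev
  simp only
  constructor
  · rintro ⟨⟨⟨⟨h1, h2⟩, h3, h4⟩, ⟨h5, h6⟩, h7, h8⟩, h9, h10, h11, h12⟩
    omega
  · rintro ⟨⟨⟨⟨h1, h2⟩, h3, h4⟩, h5, h6, h7, h8⟩, ⟨⟨h9, h10⟩, h11, h12⟩, h13, h14, h15, h16⟩
    omega

variable {Q : Finset (ℤ × ℤ)} {X Y : ℤ → ℤ} {s : (ℤ × ℤ) × ℤ}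

lemma sl'_mem (hX : StrictMono X) (hY : StrictMono Y) (t : (ℤ × ℤ) × ℤ) {j : ℕ}
    (hj : j < slen X Y t) : sl' X Y t j ∈ sL X Y t := by
  obtain ⟨h1, h2⟩ := sl'_ends X Y t j
  rw [sL_iff' t h1]
  have v1 := sV_sp hX hY t (j := j) (by omega)
  have v2 := sV_sp hX hY t (j := j + 1) (by omega)
  rcases h2 with ⟨e1, e2⟩ | ⟨e1, e2⟩
  · rw [← e1, ← e2]; exact ⟨v1, v2⟩
  · rw [← e1, ← e2]; exact ⟨v2, v1⟩

section

variable (hQ : Good Q) (hX : StrictMono X) (hY : StrictMono Y) (hs : IsSide Q s)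

include hX hY in
lemma slen_pos2 (t : (ℤ × ℤ) × ℤ) : 0 < slen X Y t := slen_pos hX hY t

include hX hY hs in
/-- The corners of the contour on the side `n`. -/
lemma CC_cases {n p : ℕ} (h1 : SS Q X Y s n ≤ p) (h2 : p < SS Q X Y s (n + 1)) :
    (∃ j < slen X Y (sd Q s n), p = SS Q X Y s n + 2 * j ∧
      CC Q X Y s p = oc (sp X Y (sd Q s n) j) ((sd Q s n).2 + 1)) ∨
    (lab (CC Q X Y s p) ∉ gs X Y Q ∧ ∃ j ≤ slen X Y (sd Q s n),
      vx (CC Q X Y s p) = sp X Y (sd Q s n) j) := by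
  have hsn : IsSide Q (sd Q s n) := isSide_iter hs n
  have hp := slen_pos hX hY (sd Q s n)
  rw [SS_succ] at h2
  change p < SS Q X Y s n + stp Q X Y (sd Q s n) at h2
  unfold stp at h2
  obtain ⟨hh1, hh2⟩ := cell_head hX hY (sd Q s n)
  have h0 := (cell_side hX hY (sd Q s n) (j := slen X Y (sd Q s n))).2 hp le_rfl
  rw [sp_len hX hY] at h0
  by_cases h3 : p - SS Q X Y s n < 2 * slen X Y (sd Q s n)
  · by_cases h4 : (p - SS Q X Y s n) % 2 = 0
    · left
      refine ⟨(p - SS Q X Y s n) / 2, by omega, by omega, ?_⟩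
      have h5 := CC_second (Q := Q) hX hY hs n (j := (p - SS Q X Y s n) / 2) (by omega)
      rwa [show SS Q X Y s n + 2 * ((p - SS Q X Y s n) / 2) = p by omega] at h5
    · right
      have h5 := CC_first (Q := Q) hX hY hs n (j := (p - SS Q X Y s n) / 2) (by omega)
      rw [show SS Q X Y s n + (2 * ((p - SS Q X Y s n) / 2) + 1) = p by omega] at h5
      refine ⟨?_, (p - SS Q X Y s n) / 2 + 1, by omega, by rw [h5, vx_oc]⟩
      rw [h5]
      by_cases h6 : (p - SS Q X Y s n) / 2 + 1 < slen X Y (sd Q s n)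
      · exact outl_notMem (Q := Q) hX hY hs n (Nat.succ_pos _) h6
      · have h7 : (p - SS Q X Y s n) / 2 + 1 = slen X Y (sd Q s n) := by omega
        rw [h7, sp_len hX hY, ← EF_LF_eq_gs hX hY, lab_oc_mem hX hY, h0, hh1]
        rintro (h8 | h8)
        · exact hsn.2 h8
        · have e : nextSide Q (sd Q s n) = ((sd Q s n).1 + dir (sd Q s n).2 +
              dir ((sd Q s n).2 - 1), (sd Q s n).2 - 1) := by
            unfold nextSide; rw [if_pos h8]
          have e' : tn Q (sd Q s n) = 0 := by unfold tn; rw [e]; simp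
          omega
  · right
    have ht := tn_cast (Q := Q) (sd Q s n)
    rcases nextSide_snd (Q := Q) (sd Q s n) with h4 | h4 | h4
    · omega
    · omega
    · have h5 := (walk_middle (X := X) (Y := Y) hX hY hs n h4).1
      rw [EF_LF_eq_gs hX hY] at h5
      change CC Q X Y s (SS Q X Y s n + 2 * slen X Y (sd Q s n)) =
        oc (gp X Y (head (sd Q s n))) ((sd Q s n).2 + 1) at h5
      rw [show SS Q X Y s n + 2 * slen X Y (sd Q s n) = p by omega] at h5
      refine ⟨?_, slen X Y (sd Q s n), le_rfl, by rw [h5, vx_oc, sp_len hX hY]⟩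
      rw [h5, ← EF_LF_eq_gs hX hY, lab_oc_mem hX hY, hh1,
        show (sd Q s n).2 + 1 + 1 = (sd Q s n).2 + 2 by ring, hh2]
      have h6 : (sd Q s n).1 + dir (sd Q s n).2 + dir ((sd Q s n).2 - 1) ∉ Q := by
        intro h8
        have e : nextSide Q (sd Q s n) = ((sd Q s n).1 + dir (sd Q s n).2 +
              dir ((sd Q s n).2 - 1), (sd Q s n).2 - 1) := by
          unfold nextSide; rw [if_pos h8]
        rw [e] at h4; simp only at h4; omega
      rintro (h8 | h8)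
      · exact h6 h8
      · have e : nextSide Q (sd Q s n) = ((sd Q s n).1 + dir (sd Q s n).2, (sd Q s n).2) := by
          unfold nextSide; rw [if_neg h6, if_pos h8]
        rw [e] at h4; simp only at h4; omega

include hX hY hs in
lemma CC_sV {n p : ℕ} (h1 : SS Q X Y s n ≤ p) (h2 : p < SS Q X Y s (n + 1)) :
    sV X Y (sd Q s n) (vx (CC Q X Y s p)) := by
  rcases CC_cases hX hY hs h1 h2 with ⟨j, hj, -, h3⟩ | ⟨-, j, hj, h3⟩
  · rw [h3, vx_oc]; exact sV_sp hX hY _ hj.le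
  · rw [h3]; exact sV_sp hX hY _ hj

include hX hY hs in
/-- the beginning of a side is the end of the side before -/
lemma CC_sV' (n : ℕ) : sV X Y (sd Q s n) (vx (CC Q X Y s (SS Q X Y s (n + 1)))) := by
  have h2 := CC_second (Q := Q) hX hY hs (n + 1) (j := 0) (slen_pos hX hY _)
  rw [mul_zero, add_zero] at h2
  rw [h2, vx_oc, sp_zero]
  have h3 : sd Q s (n + 1) = nextSide Q (sd Q s n) := Function.iterate_succ_apply' _ _ _
  rw [h3, head_eq_tail_next, ← sp_len hX hY]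
  exact sV_sp hX hY _ le_rfl

include hX hY in
lemma SS_lt {m n : ℕ} (h : m < n) : SS Q X Y s m < SS Q X Y s n := by
  have h1 := SS_mono (Q := Q) (X := X) (Y := Y) s (show m + 1 ≤ n from h)
  rw [SS_succ] at h1
  have := stp_pos (Q := Q) hX hY ((nextSide Q)^[m] s)
  omega

include hQ hX hY hs in
/-- Corners of `Out` are corners of the contour. -/
lemma out_iff_CC {N : ℕ} (hper : (nextSide Q)^[N] s = (s.1, s.2 + 4)) {c : ℤ × ℤ} :
    Out (gs X Y Q) c ↔ ∃ p < SS Q X Y s N, CC Q X Y s p = c := by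
  have hO := orb_SS hQ hX hY hs hper
  have ho := out_sc hQ hX hY hs
  rw [← EF_LF_eq_gs hX hY]
  constructor
  · intro h
    obtain ⟨i, hi, hiz⟩ := (hO.inOrb_iff c).1 ((domG_grid hQ hX hY).out_loop ho h)
    refine ⟨i, hi, ?_⟩
    unfold CC
    rw [← EF_LF_eq_gs hX hY]
    exact hiz
  · rintro ⟨p, -, rfl⟩
    unfold CC
    rw [← EF_LF_eq_gs hX hY]
    exact ho.inOrb ⟨p, rfl⟩

end

lemma fi_nx_mem {G : Finset (ℤ × ℤ)} {c : ℤ × ℤ} (h : lab c ∈ G) : fi (nx G c) = fi c := by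
  have h1 : plab (nx G c) ∈ G := by rw [← lab_pv G, pv_nx]; exact h
  have h2 := (Pool.Agent.H28.Q1.vx_of_open h1).2
  rw [pv_nx] at h2
  exact h2

lemma plab_nx (L : Finset (ℤ × ℤ)) (c : ℤ × ℤ) : plab (nx L c) = lab c := by
  rw [← lab_pv L, pv_nx]

/-- **Duality in a polygon.** -/
theorem poly_dual (P : PType) (hX : StrictMono X) (hY : StrictMono Y) {n1 n2 : ℕ} (h1 : 0 < n1)
    (h12 : n1 < n2) (h2 : n2 < P.m) {w : Finset (ℤ × ℤ)} (hw : w ⊆ gs X Y P.Q)
    (hCI : ¬ CI P X Y n1 n2 w) :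
    ∃ i < n1, ∃ j < slen X Y (P.side i), sl' X Y (P.side i) j ∉ w ∪ WL P X Y ∧
      ∃ i', n2 ≤ i' ∧ i' < P.m ∧ ∃ j' < slen X Y (P.side i'),
        sl' X Y (P.side i') j' ∉ w ∪ WL P X Y ∧
        Co (du (gs X Y P.Q \ (Finset.Ico n1 n2).biUnion (fun n => sL X Y (P.side n)))
          (w ∪ WL P X Y)) (ofc X Y (P.side i) j) (ofc X Y (P.side i') j') := by
  classical
  set s := P.s0 with hsdef
  set Q := P.Q with hQdef
  have hQ : Good Q := P.good
  have hs : IsSide Q s := P.side0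
  have hper : (nextSide Q)^[P.N] s = (s.1, s.2 + 4) := P.period
  have hsd : ∀ n, P.side n = sd Q s n := fun n => rfl
  set G := gs X Y Q with hG
  set L := w ∪ WL P X Y with hL
  have hWLG : WL P X Y ⊆ G := by
    intro e he
    unfold Pool.Agent.Q1.M5.WL at he
    obtain ⟨n, -, he⟩ := mem_biUnion.1 he
    unfold sL at he
    exact mem_gs.2 ⟨_, (isSide_iter hs n).1, (mem_filter.1 he).1⟩
  have hLG : L ⊆ G := union_subset hw hWLG
  set b := SS Q X Y s P.m with hb
  set Nn := SS Q X Y s P.N with hNn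
  have hbN : b < Nn := SS_lt hX hY P.hmN
  have hS0 : SS Q X Y s 0 = 0 := by unfold SS; simp
  have hb0 : 0 < b := by have := SS_lt (Q := Q) (s := s) hX hY P.hm0; omega
  -- labels of the wired arc
  have side_of : ∀ p < Nn, ∃ n < P.N, SS Q X Y s n ≤ p ∧ p < SS Q X Y s (n + 1) := fun p hp =>
    exists_side hp
  have inG : ∀ p < Nn, lab (CC Q X Y s p) ∈ G → ∃ n < P.N, ∃ j < slen X Y (sd Q s n),
      p = SS Q X Y s n + 2 * j ∧ CC Q X Y s p = oc (sp X Y (sd Q s n) j) ((sd Q s n).2 + 1) := by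
    intro p hp hpG
    obtain ⟨n, hn, g1, g2⟩ := side_of p hp
    rcases CC_cases hX hY hs g1 g2 with ⟨j, hj, g3, g4⟩ | ⟨g3, -⟩
    · exact ⟨n, hn, j, hj, g3, g4⟩
    · exact absurd hpG g3
  have wired : ∀ p, b ≤ p → p < Nn → lab (CC Q X Y s p) ∈ G → lab (CC Q X Y s p) ∈ L := by
    intro p hp1 hp2 hpG
    obtain ⟨n, hn, j, hj, g3, g4⟩ := inG p hp2 hpG
    have hmn : P.m ≤ n := by
      by_contra hcon
      push Not at hcon
      have g5 := SS_mono (Q := Q) (X := X) (Y := Y) s (show n + 1 ≤ P.m from hcon)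
      have g6 := SS_succ (Q := Q) (X := X) (Y := Y) s n
      have g7 : stp Q X Y ((nextSide Q)^[n] s) = 2 * slen X Y (sd Q s n) - 1 + tn Q (sd Q s n) :=
        rfl
      omega
    rw [g4, lab_second]
    refine mem_union_right _ ?_
    unfold Pool.Agent.Q1.M5.WL
    exact mem_biUnion.2 ⟨n, by rw [Finset.mem_Ico]; exact ⟨hmn, hn⟩, sl'_mem hX hY _ hj⟩
  -- steps along the contour
  have step : ∀ p, (lab (CC Q X Y s p) ∈ G → lab (CC Q X Y s p) ∈ L) →
      nx L (CC Q X Y s p) = CC Q X Y s (p + 1) := by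
    intro p hp
    rw [CC_succ]
    unfold nx
    by_cases h5 : lab (CC Q X Y s p) ∈ G
    · rw [if_pos (hp h5), if_pos h5]
    · rw [if_neg (fun h6 => h5 (hLG h6)), if_neg h5]
  set c : ℕ → ℤ × ℤ := fun t => (nx L)^[t] (CC Q X Y s 0) with hc
  have csucc : ∀ t, c (t + 1) = nx L (c t) := fun t => Function.iterate_succ_apply' _ _ _
  obtain ⟨M, hM⟩ := exists_orb_nx L (CC Q X Y s 0)
  have hCN : CC Q X Y s Nn = CC Q X Y s 0 := by
    have := CC_add hQ hX hY hs hper 0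
    rwa [zero_add] at this
  -- the end of the exploration
  have back : ∀ i, i ≤ Nn - b → i ≤ M ∧ c (M - i) = CC Q X Y s (Nn - i) := by
    intro i
    induction i with
    | zero =>
      intro _
      refine ⟨Nat.zero_le _, ?_⟩
      rw [Nat.sub_zero, Nat.sub_zero, hCN]
      exact hM.per
    | succ i ih =>
      intro hi
      obtain ⟨ih1, ih2⟩ := ih (by omega)
      have h5 : i ≠ M := by
        rintro rfl
        rw [Nat.sub_self] at ih2
        change CC Q X Y s 0 = _ at ih2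
        rcases Nat.eq_zero_or_pos i with h6 | h6
        · exact absurd hM.pos (by omega)
        · have := CC_inj hQ hX hY hs hper (p := 0) (q := Nn - i) (by omega) (by omega) ih2
          omega
      refine ⟨by omega, ?_⟩
      have h6 := step (Nn - (i + 1)) (wired _ (by omega) (by omega))
      rw [show Nn - (i + 1) + 1 = Nn - i by omega, ← ih2,
        show M - i = (M - (i + 1)) + 1 by omega, csucc] at h6
      exact (nx_injective L h6).symm
  obtain ⟨hle, hte⟩ := back (Nn - b) le_rfl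
  set te := M - (Nn - b) with htedef
  rw [show Nn - (Nn - b) = b by omega] at hte
  -- vertices of the exploration
  have hc0 : vx (CC Q X Y s 0) = vx (CC Q X Y s Nn) := by rw [hCN]
  have hTV : TV P X Y (vx (CC Q X Y s 0)) := by
    refine ⟨P.N - 1, by have := P.hmN; omega, by have := P.hmN; omega, ?_⟩
    have h5 := CC_sV' (Q := Q) hX hY hs (P.N - 1)
    rw [show P.N - 1 + 1 = P.N by have := P.hmN; omega, ← hNn, ← hc0] at h5
    exact h5
  have hpvc : ∀ t, (pv L)^[t] (c t) = CC Q X Y s 0 := by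
    intro t
    induction t with
    | zero => rfl
    | succ t ih => rw [Function.iterate_succ_apply, csucc, pv_nx, ih]
  have hCT : ∀ t, CT P X Y (vx (c t)) w := by
    intro t
    refine ⟨_, hTV, ?_⟩
    have h5 := Pool.Agent.H39.Q1.side_open L (c t) (Nat.zero_le t)
    rw [hpvc] at h5
    exact h5.mono inter_subset_left
  have hfree : ∀ t n, n1 ≤ n → n < n2 → ¬ sV X Y (sd Q s n) (vx (c t)) := by
    intro t n g1 g2 g3
    exact hCI ⟨n, g1, g2, _, g3, hCT t⟩
  -- outer corners of the exploration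
  have excl : ∀ t p, c t = CC Q X Y s p → SS Q X Y s n1 ≤ p → p ≤ SS Q X Y s n2 → False := by
    intro t p g1 g2 g3
    rcases Nat.lt_or_ge p (SS Q X Y s n2) with g4 | g4
    · obtain ⟨n, hn, g5, g6⟩ := exists_side g4
      have g7 : n1 ≤ n := by
        by_contra hcon
        push Not at hcon
        have := SS_mono (Q := Q) (X := X) (Y := Y) s (show n + 1 ≤ n1 from hcon)
        omega
      refine hfree t n g7 hn ?_
      rw [g1]
      exact CC_sV hX hY hs g5 g6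
    · have g5 : p = SS Q X Y s (n2 - 1 + 1) := by
        rw [show n2 - 1 + 1 = n2 by omega]; omega
      refine hfree t (n2 - 1) (by omega) (by omega) ?_
      rw [g1, g5]
      exact CC_sV' hX hY hs _
  have outCC : ∀ z, Out G z → ∃ p < Nn, CC Q X Y s p = z := fun z hz =>
    (out_iff_CC hQ hX hY hs hper).1 hz
  have hvG : ∀ t, vx (c t) ∈ VE G := by
    intro t
    have h5 : Out G (CC Q X Y s 0) := (out_iff_CC hQ hX hY hs hper).2 ⟨0, by omega, rfl⟩
    exact iter_VE hLG h5.vert t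
  -- the last corner before the gap
  set A : ℕ → Prop := fun t => ∃ p < SS Q X Y s n1, c t = CC Q X Y s p with hA
  have hn1b : SS Q X Y s n2 < b := SS_lt hX hY h2
  have hn12 : SS Q X Y s n1 < SS Q X Y s n2 := SS_lt hX hY h12
  have hn10 : 0 < SS Q X Y s n1 := by have := SS_lt (Q := Q) (s := s) hX hY h1; omega
  have hA0 : A 0 := ⟨0, hn10, rfl⟩
  have hAte : ¬ A te := by
    rintro ⟨p, hp, h5⟩
    rw [hte] at h5
    have := CC_inj hQ hX hY hs hper hbN (by omega) h5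
    omega
  obtain ⟨t1, ht1, hA1, hmax⟩ : ∃ t1 < te, A t1 ∧ ∀ t, t1 < t → t ≤ te → ¬ A t := by
    have key : ∀ k t, te - t = k → t ≤ te → A t → ∃ t1 < te, A t1 ∧ ∀ t, t1 < t → t ≤ te → ¬ A t := by
      intro k
      induction k using Nat.strong_induction_on with
      | _ k ih =>
        intro t hk ht hAt
        by_cases h5 : ∃ t', t < t' ∧ t' ≤ te ∧ A t'
        · obtain ⟨t', g1, g2, g3⟩ := h5
          exact ih (te - t') (by omega) t' rfl g2 g3
        · push Not at h5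
          refine ⟨t, ?_, hAt, h5⟩
          rcases Nat.lt_or_ge t te with g | g
          · exact g
          · have : t = te := by omega
            rw [this] at hAt
            exact absurd hAt hAte
    exact key _ 0 rfl (Nat.zero_le _) hA0
  obtain ⟨p1, hp1, hcp1⟩ := hA1
  -- the next outer corner
  have hex : ∃ t, t1 < t ∧ Out G (c t) := ⟨te, ht1, by
    rw [hte]; exact (out_iff_CC hQ hX hY hs hper).2 ⟨b, hbN, rfl⟩⟩
  obtain ⟨t2, ht12, hout2, hmin', hle2⟩ : ∃ t2, t1 < t2 ∧ Out G (c t2) ∧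
      (∀ t < t2, ¬ (t1 < t ∧ Out G (c t))) ∧ ∀ t, t1 < t ∧ Out G (c t) → t2 ≤ t :=
    ⟨Nat.find hex, (Nat.find_spec hex).1, (Nat.find_spec hex).2, fun t g1 => Nat.find_min hex g1,
      fun t g1 => Nat.find_min' hex g1⟩
  have hmin : ∀ t, t1 < t → t < t2 → ¬ Out G (c t) := fun t g1 g2 g3 => hmin' t g2 ⟨g1, g3⟩
  have ht2e : t2 ≤ te := hle2 te ⟨ht1, by
    rw [hte]; exact (out_iff_CC hQ hX hY hs hper).2 ⟨b, hbN, rfl⟩⟩
  obtain ⟨q2, hq2, hcq2⟩ := outCC _ hout2
  have hq2n : SS Q X Y s n2 < q2 := by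
    by_contra hcon
    push Not at hcon
    rcases Nat.lt_or_ge q2 (SS Q X Y s n1) with g | g
    · exact hmax t2 ht12 ht2e ⟨q2, g, hcq2.symm⟩
    · exact excl t2 q2 hcq2.symm g hcon
  -- the label after the corner `p1`
  have hl1 : lab (CC Q X Y s p1) ∈ G ∧ lab (CC Q X Y s p1) ∉ L := by
    by_contra hcon
    have g1 : lab (CC Q X Y s p1) ∈ G → lab (CC Q X Y s p1) ∈ L := by
      intro g; by_contra g'; exact hcon ⟨g, g'⟩
    have g2 := step p1 g1
    rw [← hcp1, ← csucc] at g2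
    have g3 : t2 = t1 + 1 := by
      have : t2 ≤ t1 + 1 := hle2 _ ⟨by omega, by
        rw [g2]; exact (out_iff_CC hQ hX hY hs hper).2 ⟨p1 + 1, by omega, rfl⟩⟩
      omega
    rw [g3, g2] at hcq2
    have := CC_inj hQ hX hY hs hper hq2 (by omega) hcq2
    omega
  -- labels met in the gap
  have hgap : ∀ t, t1 ≤ t → t < t2 → lab (c t) ∈ G := by
    intro t g1 g2
    rcases Nat.eq_or_lt_of_le g1 with rfl | g3
    · rw [hcp1]; exact hl1.1
    · by_contra g4
      exact hmin t g3 g2 (Bd.out ⟨hvG t, g4⟩)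
  have hq20 : 0 < q2 := by omega
  have hl2 : lab (c (t2 - 1)) ∉ L := by
    rcases Nat.eq_or_lt_of_le (show t1 ≤ t2 - 1 by omega) with g | g
    · rw [← g, hcp1]; exact hl1.2
    · intro g1
      refine hmin (t2 - 1) g (by omega) ?_
      have g2 : nx L (c (t2 - 1)) = nx G (c (t2 - 1)) := by
        unfold nx; rw [if_pos g1, if_pos (hLG g1)]
      have g3 : c t2 = nx L (c (t2 - 1)) := by
        rw [← csucc, show t2 - 1 + 1 = t2 by omega]
      have g4 : CC Q X Y s q2 = nx G (CC Q X Y s (q2 - 1)) := by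
        rw [← CC_succ, show q2 - 1 + 1 = q2 by omega]
      have g5 : c (t2 - 1) = CC Q X Y s (q2 - 1) := by
        apply nx_injective G
        rw [← g2, ← g3, ← g4, hcq2]
      rw [g5]
      exact (out_iff_CC hQ hX hY hs hper).2 ⟨q2 - 1, by omega, rfl⟩
  have hlq : lab (CC Q X Y s (q2 - 1)) = lab (c (t2 - 1)) := by
    have g3 : c t2 = nx L (c (t2 - 1)) := by
      rw [← csucc, show t2 - 1 + 1 = t2 by omega]
    have g4 : CC Q X Y s q2 = nx G (CC Q X Y s (q2 - 1)) := by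
      rw [← CC_succ, show q2 - 1 + 1 = q2 by omega]
    rw [← plab_nx G, ← g4, hcq2, g3, plab_nx]
  have hq1G : lab (CC Q X Y s (q2 - 1)) ∈ G := by
    rw [hlq]; exact hgap _ (by omega) (by omega)
  -- the two sides
  obtain ⟨i, hiN, j, hj, e1, e2⟩ := inG p1 (by omega) hl1.1
  obtain ⟨i', hiN', j', hj', e1', e2'⟩ := inG (q2 - 1) (by omega) hq1G
  have hi : i < n1 := by
    by_contra hcon
    push Not at hcon
    have := SS_mono (Q := Q) (X := X) (Y := Y) s hcon
    omega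
  have hi1 : n2 ≤ i' := by
    by_contra hcon
    push Not at hcon
    have g5 := SS_mono (Q := Q) (X := X) (Y := Y) s (show i' + 1 ≤ n2 from hcon)
    have g6 := SS_succ (Q := Q) (X := X) (Y := Y) s i'
    have g7 : stp Q X Y ((nextSide Q)^[i'] s) = 2 * slen X Y (sd Q s i') - 1 + tn Q (sd Q s i') :=
      rfl
    omega
  have hi2 : i' < P.m := by
    by_contra hcon
    push Not at hcon
    have g5 := SS_mono (Q := Q) (X := X) (Y := Y) s hcon
    have g6 := wired (q2 - 1) (by omega) (by omega) hq1G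
    rw [hlq] at g6
    exact hl2 g6
  refine ⟨i, hi, j, hj, ?_, i', hi1, hi2, j', hj', ?_, ?_⟩
  · rw [hsd, ← lab_second, ← e2]; exact hl1.2
  · rw [hsd, ← lab_second, ← e2', hlq]; exact hl2
  · have f1 : ofc X Y (P.side i) j = fi (c t1) := by
      rw [hcp1, e2]; rfl
    have f2 : ofc X Y (P.side i') j' = fi (c t2) := by
      rw [← hcq2]
      have g4 : CC Q X Y s q2 = nx G (CC Q X Y s (q2 - 1)) := by
        rw [← CC_succ, show q2 - 1 + 1 = q2 by omega]
      rw [g4, fi_nx_mem hq1G, e2']; rfl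
    rw [f1, f2]
    have path : ∀ t, t1 ≤ t → t ≤ t2 →
        Co (du (G \ (Finset.Ico n1 n2).biUnion (fun n => sL X Y (P.side n))) L)
          (fi (c t1)) (fi (c t)) := by
      intro t g1
      induction t, g1 using Nat.le_induction with
      | base => intro _; exact Co.refl _ _
      | succ t g1 ih =>
        intro g2
        refine (ih (by omega)).trans ?_
        rw [csucc]
        by_cases g3 : lab (c t) ∈ L
        · rw [fi_nx_mem g3]; exact Co.refl _ _
        · refine (nx_dual (G := L) (L := L) (c := c t) (Or.inr g3)).mono ?_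
          refine Pool.Agent.H69.Q1.du_mono_left ?_
          rw [singleton_subset_iff]
          refine mem_sdiff.2 ⟨hgap t g1 (by omega), fun g4 => ?_⟩
          obtain ⟨n, hn, g5⟩ := mem_biUnion.1 g4
          rw [Finset.mem_Ico] at hn
          have hst := lab_star1 (c t)
          have hodd := odd_star1 hst
          have g6 := (sL_iff' (P.side n) hodd).1 g5
          rcases (mem_star1_iff hodd).1 hst with g7 | g7
          · exact hfree t n hn.1 hn.2 (by rw [g7]; exact g6.1)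
          · exact hfree t n hn.1 hn.2 (by rw [g7]; exact g6.2)
    exact path t2 (by omega) le_rfl

end Pool.Agent.Q1.M3.Pg
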