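import Pool.Agent.Q1.M3.Pg.Bx
import Pool.Agent.Q1.M3.Pg.Ctx
import Pool.Agent.H5.Q1.GridEq

set_option autoImplicit false
open Finset

/-! Module M3: the labels and the sides of the lattice region of a component of `P \ H`. -/

namespace Pool.Agent.Q1.M3.Pg

open Pool.Agent.H75.Perc Pool.Agent.H75.TwoArm Pool.Agent.H75.Four
open Pool.Agent.H49.Q1 (gcell gs mem_gs)
open Pool.Agent.Q1.M4 (Adj4 Conn4 Good IsSide inV inRect nextSide tail head)
open Pool.Agent.H5.Q1 (sp slen gp)

/-- Label of two neighbours. -/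
lemma ends_add {u v : ℤ × ℤ} (h : IsUnit4 (v - u)) : ((u + v).1 + (u + v).2) % 2 = 1 ∧
    ((u = eu (u + v) ∧ v = ev (u + v)) ∨ (u = ev (u + v) ∧ v = eu (u + v))) := by
  obtain ⟨a, b⟩ := v
  obtain ⟨c, d⟩ := u
  unfold IsUnit4 at h
  unfold eu ev
  simp only [Prod.mk_sub_mk, Prod.mk.injEq, Prod.mk_add_mk] at h ⊢
  omega

lemma LP.co {T : Set (ℤ × ℤ)} {G : Finset (ℤ × ℤ)} {u v : ℤ × ℤ} (hu : u ∈ T)
    (hG : ∀ a b, IsUnit4 (b - a) → a ∈ T → b ∈ T → a + b ∈ G) (h : LP T u v) : Co G u v := by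
  induction h with
  | refl => exact Co.refl _ _
  | @tail a b hb h1 ih =>
    exact Relation.ReflTransGen.tail ih ⟨h1.1, hG a b h1.1 (LP.mem hb hu) h1.2⟩

variable {K : ℕ} {o : ℂ} {δ : ℝ}

/-- Two neighbouring coordinates in the same column. -/
lemma exists_col2 {o : ℝ} (hδ : 0 < δ) (hm : 3 * δ ≤ mesh (K + 1)) (a : ℤ) :
    col K o δ (a + 1) = col K o δ a ∨ col K o δ (a - 1) = col K o δ a := by
  have hp := mesh_pos (K + 1)
  by_contra hcon
  push Not at hcon
  obtain ⟨h1, h2⟩ := hcon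
  have h3 := col_mono (K := K) (o := o) hδ (show a ≤ a + 1 by omega)
  have h4 := col_mono (K := K) (o := o) hδ (show a - 1 ≤ a by omega)
  have h5 : col K o δ (a - 1) + 2 ≤ col K o δ (a + 1) := by omega
  unfold col at h5
  have h6 := Int.floor_le ((δ * ((a + 1 : ℤ) : ℝ) - o) / mesh (K + 1))
  have h7 := Int.lt_floor_add_one ((δ * ((a - 1 : ℤ) : ℝ) - o) / mesh (K + 1))
  have h8 : ((⌊(δ * ((a - 1 : ℤ) : ℝ) - o) / mesh (K + 1)⌋ : ℤ) : ℝ) + 2 ≤
      ((⌊(δ * ((a + 1 : ℤ) : ℝ) - o) / mesh (K + 1)⌋ : ℤ) : ℝ) := by exact_mod_cast h5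
  have h9 : 1 < (δ * ((a + 1 : ℤ) : ℝ) - o) / mesh (K + 1) -
      (δ * ((a - 1 : ℤ) : ℝ) - o) / mesh (K + 1) := by linarith
  rw [div_sub_div_same, one_lt_div hp] at h9
  push_cast at h9
  nlinarith

variable {P H : Finset (ℤ × ℤ)} {ct : ℤ × ℤ}

section

variable (hδ : 0 < δ) (hm : 3 * δ ≤ mesh (K + 1)) (hg : Gen2 K o δ) (hT : Typed lty P H)

include hδ hm hg hT

/-- The labels of the region: both ends in the region. -/
lemma add_mem_gs {u v : ℤ × ℤ} (h : IsUnit4 (v - u)) (hu : box δ o K u ∈ comp (P \ H) ct)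
    (hv : box δ o K v ∈ comp (P \ H) ct) :
    u + v ∈ gs (LX K o.re δ) (LX K o.im δ) (comp (P \ H) ct) := by
  obtain ⟨h1, h2⟩ := ends_add h
  rw [mem_gs_iff hδ hm hg hT h1]
  rcases h2 with ⟨h3, h4⟩ | ⟨h3, h4⟩
  · rw [← h3, ← h4]; exact ⟨hu, hv⟩
  · rw [← h3, ← h4]; exact ⟨hv, hu⟩

/-- The vertices of the labels of the region. -/
lemma vl_gs_iff {u : ℤ × ℤ} : Vl (gs (LX K o.re δ) (LX K o.im δ) (comp (P \ H) ct)) u ↔
    box δ o K u ∈ comp (P \ H) ct := by
  constructor
  · rintro ⟨e, he, h⟩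
    have h1 := (mem_gs_iff hδ hm hg hT (odd_gs he)).1 he
    rcases h with rfl | rfl
    · exact h1.1
    · exact h1.2
  · intro h
    obtain ⟨x, y⟩ := u
    have key : ∀ a : ℤ, (a = x + 1 ∨ a = x - 1) → col K o.re δ a = col K o.re δ x →
        Vl (gs (LX K o.re δ) (LX K o.im δ) (comp (P \ H) ct)) (x, y) := by
      intro a ha hc
      have h2 : IsUnit4 (((a, y) : ℤ × ℤ) - (x, y)) := by
        unfold IsUnit4
        simp only [Prod.mk_sub_mk, Prod.mk.injEq]
        omega
      have h3 : box δ o K (a, y) ∈ comp (P \ H) ct := by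
        rw [box_eq] at h ⊢
        simp only at h ⊢
        rw [hc]; exact h
      refine ⟨_, add_mem_gs hδ hm hg hT h2 h h3, ?_⟩
      obtain ⟨-, h5⟩ := ends_add h2
      tauto
    rcases exists_col2 (o := o.re) hδ hm x with h1 | h1
    · exact key (x + 1) (Or.inl rfl) h1
    · exact key (x - 1) (Or.inr rfl) h1

/-- The region is connected. -/
lemma gs_conn {u v : ℤ × ℤ} (hct : ct ∈ P \ H)
    (hu : Vl (gs (LX K o.re δ) (LX K o.im δ) (comp (P \ H) ct)) u)
    (hv : Vl (gs (LX K o.re δ) (LX K o.im δ) (comp (P \ H) ct)) v) :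
    Co (gs (LX K o.re δ) (LX K o.im δ) (comp (P \ H) ct)) u v := by
  rw [vl_gs_iff hδ hm hg hT] at hu hv
  have h1 := comp_conn hct _ hu _ hv
  have h2 : LP {a | box δ o K a ∈ (comp (P \ H) ct : Set (ℤ × ℤ))} u v :=
    LP.of_J4 hδ hm h1 hu rfl rfl
  refine LP.co (T := {a | box δ o K a ∈ (comp (P \ H) ct : Set (ℤ × ℤ))}) hu ?_ h2
  intro a b hab ha hb
  exact add_mem_gs hδ hm hg hT hab ha hb

/-- **Sides.** The interior lattice points of a side of the region are in the box of its inner cell, the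
points behind them in the box of the outer cell. -/
theorem side_box {s : (ℤ × ℤ) × ℤ} (hs : IsSide (comp (P \ H) ct) s) {j : ℕ} (hj : 0 < j)
    (hj' : j < slen (LX K o.re δ) (LX K o.im δ) s) :
    box δ o K (sp (LX K o.re δ) (LX K o.im δ) s j) = s.1 ∧
      box δ o K (sp (LX K o.re δ) (LX K o.im δ) s j + dir (s.2 - 1)) = outc s := by
  have hX := LX_mono (K := K) (o := o.re) hδ hm
  have hY := LX_mono (K := K) (o := o.im) hδ hm
  obtain ⟨⟨a, b⟩, k⟩ := s
  have hc := outc_cases hs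
  have hcP := mem_sdiff.1 (comp_subset _ _ hs.1)
  have hsc := Pool.Agent.H5.Q1.side_cases hX hY a b k
  -- columns strictly between two lines
  have colx : ∀ N x : ℤ, LX K o.re δ N < x → x < LX K o.re δ (N + 1) → col K o.re δ x = N := by
    intro N x h1 h2
    have e1 : N ≤ col K o.re δ x := by
      by_contra hcon
      have := le_LX hδ hg.1 (N := N) (a := x) (by omega)
      omega
    have e2 : col K o.re δ x < N + 1 := by
      by_contra hcon
      have := LX_le hδ hg.1 (N := N + 1) (a := x) (by omega)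
      omega
    omega
  have coly : ∀ N x : ℤ, LX K o.im δ N < x → x < LX K o.im δ (N + 1) → col K o.im δ x = N := by
    intro N x h1 h2
    have e1 : N ≤ col K o.im δ x := by
      by_contra hcon
      have := le_LX hδ hg.2 (N := N) (a := x) (by omega)
      omega
    have e2 : col K o.im δ x < N + 1 := by
      by_contra hcon
      have := LX_le hδ hg.2 (N := N + 1) (a := x) (by omega)
      omega
    omega
  -- the coordinate on a line and its neighbour
  have rtx : ∀ N : ℤ, RT (lty N) → col K o.re δ (LX K o.re δ N) = N ∧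
      col K o.re δ (LX K o.re δ N - 1) = N - 1 := by
    intro N ht
    have h1 := (LX_right hδ hg.1 ht (a := LX K o.re δ N)).1 le_rfl
    have h2 : ¬ N ≤ col K o.re δ (LX K o.re δ N - 1) := by
      rw [← LX_right hδ hg.1 ht]; omega
    have h3 := col_succ (K := K) (o := o.re) hδ hm hg.1 (LX K o.re δ N - 1)
    rw [sub_add_cancel] at h3
    omega
  have ltx : ∀ N : ℤ, ¬ RT (lty N) → col K o.re δ (LX K o.re δ N) = N - 1 ∧
      col K o.re δ (LX K o.re δ N + 1) = N := by
    intro N ht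
    have h1 := (LX_left hδ hg.1 ht (a := LX K o.re δ N)).1 le_rfl
    have h2 : ¬ col K o.re δ (LX K o.re δ N + 1) < N := by
      rw [← LX_left hδ hg.1 ht]; omega
    have h3 := col_succ (K := K) (o := o.re) hδ hm hg.1 (LX K o.re δ N)
    omega
  have rty : ∀ N : ℤ, RT (lty N) → col K o.im δ (LX K o.im δ N) = N ∧
      col K o.im δ (LX K o.im δ N - 1) = N - 1 := by
    intro N ht
    have h1 := (LX_right hδ hg.2 ht (a := LX K o.im δ N)).1 le_rfl
    have h2 : ¬ N ≤ col K o.im δ (LX K o.im δ N - 1) := by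
      rw [← LX_right hδ hg.2 ht]; omega
    have h3 := col_succ (K := K) (o := o.im) hδ hm hg.2 (LX K o.im δ N - 1)
    rw [sub_add_cancel] at h3
    omega
  have lty' : ∀ N : ℤ, ¬ RT (lty N) → col K o.im δ (LX K o.im δ N) = N - 1 ∧
      col K o.im δ (LX K o.im δ N + 1) = N := by
    intro N ht
    have h1 := (LX_left hδ hg.2 ht (a := LX K o.im δ N)).1 le_rfl
    have h2 : ¬ col K o.im δ (LX K o.im δ N + 1) < N := by
      rw [← LX_left hδ hg.2 ht]; omega
    have h3 := col_succ (K := K) (o := o.im) hδ hm hg.2 (LX K o.im δ N)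
    omega
  rw [box_eq, box_eq]
  unfold sp gp outc at *
  rcases hsc with ⟨e, h1, h2, h3, h4⟩ | ⟨e, h1, h2, h3, h4⟩ | ⟨e, h1, h2, h3, h4⟩ |
    ⟨e, h1, h2, h3, h4⟩
  · rw [h1, h3, h4]
    simp only at hc ⊢
    rw [h4] at hc
    simp only [Prod.mk_add_mk, add_zero] at hc ⊢
    have ht : RT (lty b) := by
      rcases hc with hc | hc
      · exact Or.inl (hT.yO1 a b hcP.1 hcP.2 (by rwa [← sub_eq_add_neg] at hc))
      · exact Or.inr (hT.yH2 a b hcP.1 hcP.2 (by rwa [← sub_eq_add_neg] at hc))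
    have q1 := colx a (LX K o.re δ a + (j : ℤ) * 1) (by omega) (by omega)
    have q2 := rty b ht
    simp only [mul_zero, add_zero]
    rw [q1, q2.1, ← sub_eq_add_neg, q2.2]
    exact ⟨rfl, by rw [sub_eq_add_neg]⟩
  · rw [h1, h3, h4]
    simp only at hc ⊢
    rw [h4] at hc
    simp only [Prod.mk_add_mk, add_zero] at hc ⊢
    have k1 := hT.xO2 (a + 1) b
    have k2 := hT.xH1 (a + 1) b
    rw [add_sub_cancel_right] at k1 k2
    have ht : ¬ RT (lty (a + 1)) := by
      intro hr
      rcases hc with hc | hc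
      · have := k1 hcP.1 hcP.2 hc
        rw [this] at hr
        rcases hr with h | h <;> exact absurd h (by decide)
      · have := k2 hcP.1 hcP.2 hc
        rw [this] at hr
        rcases hr with h | h <;> exact absurd h (by decide)
    have q1 := coly b (LX K o.im δ b + (j : ℤ) * 1) (by omega) (by omega)
    have q2 := ltx (a + 1) ht
    simp only [mul_zero, add_zero]
    rw [q1, q2.1, q2.2]
    exact ⟨by simp, rfl⟩
  · rw [h1, h3, h4]
    simp only at hc ⊢
    rw [h4] at hc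
    simp only [Prod.mk_add_mk, add_zero] at hc ⊢
    have k1 := hT.yO2 a (b + 1)
    have k2 := hT.yH1 a (b + 1)
    rw [add_sub_cancel_right] at k1 k2
    have ht : ¬ RT (lty (b + 1)) := by
      intro hr
      rcases hc with hc | hc
      · have := k1 hcP.1 hcP.2 hc
        rw [this] at hr
        rcases hr with h | h <;> exact absurd h (by decide)
      · have := k2 hcP.1 hcP.2 hc
        rw [this] at hr
        rcases hr with h | h <;> exact absurd h (by decide)
    have q1 := colx a (LX K o.re δ (a + 1) + (j : ℤ) * (-1)) (by omega) (by omega)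
    have q2 := lty' (b + 1) ht
    simp only [mul_zero, add_zero]
    rw [q1, q2.1, q2.2]
    exact ⟨by simp, rfl⟩
  · rw [h1, h3, h4]
    simp only at hc ⊢
    rw [h4] at hc
    simp only [Prod.mk_add_mk, add_zero] at hc ⊢
    have ht : RT (lty a) := by
      rcases hc with hc | hc
      · exact Or.inl (hT.xO1 a b hcP.1 hcP.2 (by rwa [← sub_eq_add_neg] at hc))
      · exact Or.inr (hT.xH2 a b hcP.1 hcP.2 (by rwa [← sub_eq_add_neg] at hc))
    have q1 := coly b (LX K o.im δ (b + 1) + (j : ℤ) * (-1)) (by omega) (by omega)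
    have q2 := rtx a ht
    simp only [mul_zero, add_zero]
    rw [q1, q2.1, ← sub_eq_add_neg, q2.2]
    exact ⟨rfl, by rw [sub_eq_add_neg]⟩

end

end Pool.Agent.Q1.M3.Pg
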