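import Pool.Agent.Q1.M3.Pg.Ties
import Pool.Agent.Q1.M3.Pg.Step

set_option autoImplicit false
open Finset

/-! Module M3: the search for ties from a connected set of boxes outside `P`. -/

namespace Pool.Agent.Q1.M3.Pg

open Pool.Agent.H75.Perc Pool.Agent.H75.TwoArm Pool.Agent.H75.Four
open Pool.Agent.H69.Q1 Pool.Agent.H28.Q1
open Pool.Agent.H75.TwoArm.StrandAux hiding vx_nxC
open Pool.Agent.H49.Q1 (gcell gs mem_gs)
open Pool.Agent.Q1.M4 (Adj4 Conn4 Good IsSide inV inRect nextSide tail head)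
open Pool.Agent.H5.Q1

variable {K : ℕ} {o : ℂ} {δ : ℝ}

/-- All corners of the face are in the box `c`. -/
def Deep (K : ℕ) (o : ℂ) (δ : ℝ) (c f : ℤ × ℤ) : Prop := ∀ u, Cf f u → box δ o K u = c

lemma cf_mk {a b x y : ℤ} : Cf (a, b) (x, y) ↔ (x = a ∨ x = a - 1) ∧ (y = b ∨ y = b - 1) := Iff.rfl

lemma deep_iff {c : ℤ × ℤ} {a b : ℤ} : Deep K o δ c (a, b) ↔
    (col K o.re δ a = c.1 ∧ col K o.re δ (a - 1) = c.1) ∧
    (col K o.im δ b = c.2 ∧ col K o.im δ (b - 1) = c.2) := by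
  unfold Deep
  constructor
  · intro h
    have h1 := h (a, b) (cf_mk.2 ⟨Or.inl rfl, Or.inl rfl⟩)
    have h2 := h (a - 1, b - 1) (cf_mk.2 ⟨Or.inr rfl, Or.inr rfl⟩)
    rw [box_eq] at h1 h2
    exact ⟨⟨congrArg Prod.fst h1, congrArg Prod.fst h2⟩, congrArg Prod.snd h1,
      congrArg Prod.snd h2⟩
  · rintro ⟨⟨h1, h2⟩, h3, h4⟩ ⟨x, y⟩ hu
    rw [cf_mk] at hu
    rw [box_eq]
    refine Prod.ext ?_ ?_
    · rcases hu.1 with rfl | rfl
      · exact h1
      · exact h2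
    · rcases hu.2 with rfl | rfl
      · exact h3
      · exact h4

/-- A deep face at a vertex. -/
lemma exists_deep (hδ : 0 < δ) (hm : 3 * δ ≤ mesh (K + 1)) (v : ℤ × ℤ) :
    ∃ f, Cf f v ∧ Deep K o δ (box δ o K v) f := by
  obtain ⟨x, y⟩ := v
  obtain ⟨a, ha, ha1, ha2⟩ : ∃ a, (x = a ∨ x = a - 1) ∧ col K o.re δ a = col K o.re δ x ∧
      col K o.re δ (a - 1) = col K o.re δ x := by
    rcases exists_col2 (o := o.re) hδ hm x with h | h
    · exact ⟨x + 1, by omega, h, by rw [add_sub_cancel_right]⟩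
    · exact ⟨x, Or.inl rfl, rfl, h⟩
  obtain ⟨b, hb, hb1, hb2⟩ : ∃ b, (y = b ∨ y = b - 1) ∧ col K o.im δ b = col K o.im δ y ∧
      col K o.im δ (b - 1) = col K o.im δ y := by
    rcases exists_col2 (o := o.im) hδ hm y with h | h
    · exact ⟨y + 1, by omega, h, by rw [add_sub_cancel_right]⟩
    · exact ⟨y, Or.inl rfl, rfl, h⟩
  exact ⟨(a, b), cf_mk.2 ⟨ha, hb⟩, deep_iff.2 ⟨⟨ha1, ha2⟩, hb1, hb2⟩⟩

/-- Deep faces in the same box or in adjacent boxes are joined. -/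
lemma faces_adj (hδ : 0 < δ) {S : Set (ℤ × ℤ)} {c c' f g : ℤ × ℤ} (hc : c ∈ S) (hc' : c' ∈ S)
    (hf : Deep K o δ c f) (hg : Deep K o δ c' g) (h : c' = c ∨ Adj4 c c') :
    LP (TF {a | box δ o K a ∈ S}) f g := by
  obtain ⟨f1, f2⟩ := f
  obtain ⟨g1, g2⟩ := g
  rw [deep_iff] at hf hg
  obtain ⟨⟨p1, p2⟩, p3, p4⟩ := hf
  obtain ⟨⟨q1, q2⟩, q3, q4⟩ := hg
  have hcc : (c'.1 = c.1 ∧ c'.2 = c.2) ∨ (c'.2 = c.2 ∧ (c'.1 = c.1 + 1 ∨ c'.1 = c.1 - 1)) ∨
      (c'.1 = c.1 ∧ (c'.2 = c.2 + 1 ∨ c'.2 = c.2 - 1)) := by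
    rcases h with h | ⟨j, h⟩
    · left; rw [h]; exact ⟨rfl, rfl⟩
    · right
      have h1 := congrArg Prod.fst h
      have h2 := congrArg Prod.snd h
      rcases dir_cases j with ⟨-, e⟩ | ⟨-, e⟩ | ⟨-, e⟩ | ⟨-, e⟩ <;> rw [e] at h1 h2 <;>
        simp at h1 h2 <;> omega
  have mem : ∀ a b : ℤ, (a = c.1 ∨ a = c'.1) → (b = c.2) → ((c'.2 = c.2) ∨ a = c.1) →
      ((a, b) : ℤ × ℤ) ∈ S := by
    intro a b h1 h2 h3
    rcases h1 with h1 | h1
    · have : ((a, b) : ℤ × ℤ) = c := Prod.ext h1 h2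
      rw [this]; exact hc
    · rcases h3 with h3 | h3
      · have : ((a, b) : ℤ × ℤ) = c' := Prod.ext h1 (by simp only; omega)
        rw [this]; exact hc'
      · have : ((a, b) : ℤ × ℤ) = c := Prod.ext h3 h2
        rw [this]; exact hc
  have mem' : ∀ a b : ℤ, a = c'.1 → (b = c.2 ∨ b = c'.2) → ((c'.1 = c.1) ∨ b = c'.2) →
      ((a, b) : ℤ × ℤ) ∈ S := by
    intro a b h1 h2 h3
    rcases h2 with h2 | h2
    · rcases h3 with h3 | h3
      · have : ((a, b) : ℤ × ℤ) = c := Prod.ext (by simp only; omega) h2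
        rw [this]; exact hc
      · have : ((a, b) : ℤ × ℤ) = c' := Prod.ext h1 h3
        rw [this]; exact hc'
    · have : ((a, b) : ℤ × ℤ) = c' := Prod.ext h1 h2
      rw [this]; exact hc'
  have betx : ∀ x y z : ℤ, min x y ≤ z → z ≤ max x y → min (col K o.re δ x) (col K o.re δ y) ≤
      col K o.re δ z ∧ col K o.re δ z ≤ max (col K o.re δ x) (col K o.re δ y) := by
    intro x y z h1 h2
    rcases le_total x y with hle | hle
    · rw [min_eq_left hle] at h1
      rw [max_eq_right hle] at h2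
      exact ⟨(min_le_left _ _).trans (col_mono hδ h1), (col_mono hδ h2).trans (le_max_right _ _)⟩
    · rw [min_eq_right hle] at h1
      rw [max_eq_left hle] at h2
      exact ⟨(min_le_right _ _).trans (col_mono hδ h1), (col_mono hδ h2).trans (le_max_left _ _)⟩
  have bety : ∀ x y z : ℤ, min x y ≤ z → z ≤ max x y → min (col K o.im δ x) (col K o.im δ y) ≤
      col K o.im δ z ∧ col K o.im δ z ≤ max (col K o.im δ x) (col K o.im δ y) := by
    intro x y z h1 h2
    rcases le_total x y with hle | hle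
    · rw [min_eq_left hle] at h1
      rw [max_eq_right hle] at h2
      exact ⟨(min_le_left _ _).trans (col_mono hδ h1), (col_mono hδ h2).trans (le_max_right _ _)⟩
    · rw [min_eq_right hle] at h1
      rw [max_eq_left hle] at h2
      exact ⟨(min_le_right _ _).trans (col_mono hδ h1), (col_mono hδ h2).trans (le_max_left _ _)⟩
  have h1 : LP (TF {a | box δ o K a ∈ S}) (f1, f2) (g1, f2) := by
    refine LP.hor fun a ha1 ha2 => ?_
    rintro ⟨x, y⟩ hu
    rw [cf_mk] at hu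
    change ((col K o.re δ x, col K o.im δ y) : ℤ × ℤ) ∈ S
    have hy : col K o.im δ y = c.2 := by
      rcases hu.2 with rfl | rfl
      · exact p3
      · exact p4
    have hx : min c.1 c'.1 ≤ col K o.re δ x ∧ col K o.re δ x ≤ max c.1 c'.1 := by
      rcases hu.1 with rfl | rfl
      · have := betx f1 g1 x ha1 ha2
        rwa [p1, q1] at this
      · have := betx (f1 - 1) (g1 - 1) (a - 1) (by omega) (by omega)
        rwa [p2, q2] at this
    apply mem
    · simp only [min_le_iff, le_max_iff] at hx; omega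
    · exact hy
    · simp only [min_le_iff, le_max_iff] at hx; omega
  have h2 : LP (TF {a | box δ o K a ∈ S}) (g1, f2) (g1, g2) := by
    refine LP.ver fun a ha1 ha2 => ?_
    rintro ⟨x, y⟩ hu
    rw [cf_mk] at hu
    change ((col K o.re δ x, col K o.im δ y) : ℤ × ℤ) ∈ S
    have hx : col K o.re δ x = c'.1 := by
      rcases hu.1 with rfl | rfl
      · exact q1
      · exact q2
    have hy : min c.2 c'.2 ≤ col K o.im δ y ∧ col K o.im δ y ≤ max c.2 c'.2 := by
      rcases hu.2 with rfl | rfl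
      · have := bety f2 g2 y ha1 ha2
        rwa [p3, q3] at this
      · have := bety (f2 - 1) (g2 - 1) (a - 1) (by omega) (by omega)
        rwa [p4, q4] at this
    apply mem'
    · exact hx
    · simp only [min_le_iff, le_max_iff] at hy; omega
    · simp only [min_le_iff, le_max_iff] at hy; omega
  exact h1.trans h2

/-- **Paths of boxes give paths of faces.** -/
theorem faces_J4 (hδ : 0 < δ) (hm : 3 * δ ≤ mesh (K + 1)) {S : Set (ℤ × ℤ)} {c c' f g : ℤ × ℤ}
    (h : J4 S c c') (hc : c ∈ S) (hf : Deep K o δ c f) (hg : Deep K o δ c' g) :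
    LP (TF {a | box δ o K a ∈ S}) f g := by
  have key : ∀ c', J4 S c c' → ∀ g, Deep K o δ c' g → LP (TF {a | box δ o K a ∈ S}) f g := by
    intro c' h
    induction h with
    | refl =>
      intro g hg
      exact faces_adj hδ hc hc hf hg (Or.inl rfl)
    | @tail b d hb h1 ih =>
      intro g hg
      have hbS : b ∈ S := J4.mem hb hc
      obtain ⟨x, hx⟩ := exists_col (o := o.re) hδ hm b.1
      obtain ⟨y, hy⟩ := exists_col (o := o.im) hδ hm b.2
      have hu : box δ o K (x, y) = b := by rw [box_eq, hx, hy]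
      obtain ⟨f', -, hf'⟩ := exists_deep (K := K) (o := o) hδ hm (x, y)
      rw [hu] at hf'
      exact (ih f' hf').trans (faces_adj hδ hbS h1.2 hf' hg (Or.inr h1.1))
  exact key c' h g hg

/-- The vertices with box in a finite set. -/
lemma finite_boxes (hδ : 0 < δ) (Z : Finset (ℤ × ℤ)) : {v | box δ o K v ∈ Z}.Finite := by
  have hcol : ∀ (o' : ℝ) (N : ℤ), {a : ℤ | col K o' δ a = N}.Finite := by
    intro o' N
    have hp := mesh_pos (K + 1)
    refine (Set.finite_Icc ⌊(o' + N * mesh (K + 1)) / δ⌋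
      ⌈(o' + (N + 1) * mesh (K + 1)) / δ⌉).subset ?_
    intro a ha
    have ha' : ⌊(δ * a - o') / mesh (K + 1)⌋ = N := ha
    rw [Int.floor_eq_iff, le_div_iff₀ hp, div_lt_iff₀ hp] at ha'
    constructor
    · have h1 : (o' + N * mesh (K + 1)) / δ ≤ a := by
        rw [div_le_iff₀ hδ]; linarith [ha'.1]
      exact_mod_cast (Int.floor_le _).trans h1
    · have h1 : (a : ℝ) ≤ (o' + (N + 1) * mesh (K + 1)) / δ := by
        rw [le_div_iff₀ hδ]; linarith [ha'.2]
      exact_mod_cast h1.trans (Int.le_ceil _)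
  have : {v | box δ o K v ∈ Z} ⊆ ⋃ z ∈ Z, ({a : ℤ | col K o.re δ a = z.1} ×ˢ
      {a : ℤ | col K o.im δ a = z.2}) := by
    intro v hv
    have hv' : box δ o K v ∈ Z := hv
    rw [box_eq] at hv'
    simp only [Set.mem_iUnion]
    exact ⟨_, hv', rfl, rfl⟩
  refine Set.Finite.subset (Set.Finite.biUnion Z.finite_toSet fun z _ => ?_) this
  exact (hcol _ _).prod (hcol _ _)

/-- The vertices with box in `Z`. -/
noncomputable def vB (K : ℕ) (o : ℂ) (δ : ℝ) (Z : Finset (ℤ × ℤ)) : Finset (ℤ × ℤ) :=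
  open Classical in
  if h : {v | box δ o K v ∈ Z}.Finite then h.toFinset else ∅

lemma mem_vB (hδ : 0 < δ) {Z : Finset (ℤ × ℤ)} {v : ℤ × ℤ} :
    v ∈ vB K o δ Z ↔ box δ o K v ∈ Z := by
  unfold vB
  rw [dif_pos (finite_boxes hδ Z), Set.Finite.mem_toFinset]
  rfl

/-! ### The data of a search -/

variable {P H : Finset (ℤ × ℤ)} {ct : ℤ × ℤ}

lemma slen_ge (hδ : 0 < δ) (h5 : 5 * δ ≤ mesh (K + 1)) (s : (ℤ × ℤ) × ℤ) :
    3 ≤ slen (LX K o.re δ) (LX K o.im δ) s := by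
  have h1 := LX_step (K := K) (o := o.re) (c := 3) hδ (by linarith) s.1.1
  have h2 := LX_step (K := K) (o := o.im) (c := 3) hδ (by linarith) s.1.2
  have h3 : 3 ≤ LX K o.re δ (s.1.1 + 1) - LX K o.re δ s.1.1 := by exact_mod_cast h1
  have h4 : 3 ≤ LX K o.im δ (s.1.2 + 1) - LX K o.im δ s.1.2 := by exact_mod_cast h2
  unfold slen
  split_ifs <;> omega

/-- The face behind an interior label of a side is deep in the outer box. -/
lemma deep_out (hδ : 0 < δ) (hm : 3 * δ ≤ mesh (K + 1)) (hg : Gen2 K o δ) (hT : Typed lty P H)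
    {s : (ℤ × ℤ) × ℤ} (hs : IsSide (comp (P \ H) ct) s) {j : ℕ} (hj : 0 < j)
    (hj' : j + 1 < slen (LX K o.re δ) (LX K o.im δ) s) :
    Deep K o δ (outc s) (ofc (LX K o.re δ) (LX K o.im δ) s j + dir (s.2 - 1)) ∧
      IsUnit4 (ofc (LX K o.re δ) (LX K o.im δ) s j + dir (s.2 - 1) -
        ofc (LX K o.re δ) (LX K o.im δ) s j) := by
  refine ⟨?_, by rw [add_sub_cancel_left]; exact isUnit4_dir _⟩
  obtain ⟨b1, b2⟩ := side_box hδ hm hg hT hs hj (by omega)
  obtain ⟨b3, b4⟩ := side_box hδ hm hg hT hs (j := j + 1) (by omega) hj'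
  set X := LX K o.re δ with hX
  set Y := LX K o.im δ with hY
  have hne : outc s ≠ s.1 := by
    unfold outc
    rcases dir_cases (s.2 - 1) with ⟨-, e⟩ | ⟨-, e⟩ | ⟨-, e⟩ | ⟨-, e⟩ <;> rw [e] <;> intro h <;>
      simp [Prod.ext_iff] at h
  -- the third row
  have third : ∀ u : ℤ × ℤ, box δ o K u = s.1 → box δ o K (u + dir (s.2 - 1)) = outc s →
      box δ o K (u + dir (s.2 - 1) + dir (s.2 - 1)) = outc s := by
    rintro ⟨x, y⟩ h1 h2
    rw [box_eq] at h1 h2 ⊢
    rw [← h1] at hne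
    rw [← h2] at hne ⊢
    rcases dir_cases (s.2 - 1) with ⟨-, e⟩ | ⟨-, e⟩ | ⟨-, e⟩ | ⟨-, e⟩ <;> rw [e] at hne ⊢ <;>
      simp only [Prod.mk_add_mk, add_zero] at hne ⊢
    · rcases exists_col2 (K := K) (o := o.re) hδ hm (x + 1) with h | h
      · rw [h]
      · rw [add_sub_cancel_right] at h
        exact absurd (by rw [h]) hne
    · rcases exists_col2 (K := K) (o := o.im) hδ hm (y + 1) with h | h
      · rw [h]
      · rw [add_sub_cancel_right] at h
        exact absurd (by rw [h]) hne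
    · rcases exists_col2 (K := K) (o := o.re) hδ hm (x + -1) with h | h
      · rw [show x + -1 + 1 = x by ring] at h
        exact absurd (by rw [h]) hne
      · rw [show x + -1 + -1 = x + -1 - 1 by ring, h]
    · rcases exists_col2 (K := K) (o := o.im) hδ hm (y + -1) with h | h
      · rw [show y + -1 + 1 = y by ring] at h
        exact absurd (by rw [h]) hne
      · rw [show y + -1 + -1 = y + -1 - 1 by ring, h]
  intro u hu
  have hcf : Cf (ofc X Y s j) (u - dir (s.2 - 1)) := by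
    unfold Cf at hu ⊢
    simp only [Prod.fst_add, Prod.snd_add, Prod.fst_sub, Prod.snd_sub] at hu ⊢
    omega
  rw [cf_ofc] at hcf
  rcases hcf with h | h | h | h
  · rw [show u = sp X Y s j + dir (s.2 - 1) by rw [← h, sub_add_cancel]]; exact b2
  · rw [show u = sp X Y s (j + 1) + dir (s.2 - 1) by rw [← h, sub_add_cancel]]; exact b4
  · rw [show u = sp X Y s j + dir (s.2 - 1) + dir (s.2 - 1) by rw [← h, sub_add_cancel]]
    exact third _ b1 b2
  · rw [show u = sp X Y s (j + 1) + dir (s.2 - 1) + dir (s.2 - 1) by rw [← h, sub_add_cancel]]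
    exact third _ b3 b4

/-- **Search from a set of boxes.** -/
theorem exists_srch (hδ : 0 < δ) (hm : 5 * δ ≤ mesh (K + 1)) (hg : Gen2 K o δ)
    (hT : Typed lty P H) (hct : ct ∈ P \ H) {s : (ℤ × ℤ) × ℤ} {N : ℕ}
    (hs : IsSide (comp (P \ H) ct) s) {Yn : DEnv} {Kv τ A Z : Finset (ℤ × ℤ)} {n : ℕ}
    (hn : n < N) (hZP : ∀ z ∈ Z, z ∉ P)
    (hout : outc (sd (comp (P \ H) ct) s n) ∈ Z)
    (hKv : ∀ v ∈ Kv, box δ o K v ∉ Z) (hτ : ∀ v, Vl τ v → box δ o K v ∉ Z)
    (hA : ∀ e ∈ A, box δ o K (eu e) ∉ Z ∧ box δ o K (ev e) ∉ Z)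
    {z : ℤ × ℤ} (hz : J4 (Z : Set (ℤ × ℤ)) (outc (sd (comp (P \ H) ct) s n)) z)
    {v : ℤ × ℤ} (hv : box δ o K v = z) (hvE : ¬ star1 v ⊆ Yn.E) :
    ∃ gn, LPol.Srch (comp (P \ H) ct) (LX K o.re δ) (LX K o.im δ) s N Yn Kv τ A (vB K o δ Z) n 1
      gn := by
  have hm3 : 3 * δ ≤ mesh (K + 1) := by linarith
  have hsn : IsSide (comp (P \ H) ct) (sd (comp (P \ H) ct) s n) :=
    Pool.Agent.Q1.M4.isSide_iter hs n
  have hl := slen_ge (K := K) (o := o) hδ hm (sd (comp (P \ H) ct) s n)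
  obtain ⟨hd1, hd2⟩ := deep_out hδ hm3 hg hT hsn (j := 1) one_pos (by omega)
  obtain ⟨f, hf1, hf2⟩ := exists_deep (K := K) (o := o) hδ hm3 v
  rw [hv] at hf2
  have hsub : TF {a | box δ o K a ∈ (Z : Set (ℤ × ℤ))} ⊆ TF ((vB K o δ Z : Finset (ℤ × ℤ)) :
      Set (ℤ × ℤ)) := by
    intro g hg' u hu
    have := hg' u hu
    rw [mem_coe, mem_vB hδ]
    exact_mod_cast this
  refine ⟨f, hn, one_pos, by omega, ?_, ?_, ?_, ?_, ?_, ?_, ?_, v, hf1, hvE⟩
  · rw [Finset.disjoint_left]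
    intro a ha haK
    exact hKv a haK ((mem_vB hδ).1 ha)
  · intro u hu hvl
    rw [vl_gs_iff hδ hm3 hg hT] at hvl
    exact hZP _ ((mem_vB hδ).1 hu) (mem_sdiff.1 (comp_subset _ _ hvl)).1
  · intro u hu hvl
    exact hτ u hvl ((mem_vB hδ).1 hu)
  · intro e he
    rw [mem_vB hδ, mem_vB hδ]
    exact hA e he
  · rw [mem_vB hδ, (side_box hδ hm3 hg hT hsn one_pos (by omega)).2]; exact hout
  · rw [mem_vB hδ, (side_box hδ hm3 hg hT hsn (j := 1 + 1) (by omega) (by omega)).2]; exact hout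
  · have h1 : LP (TF ((vB K o δ Z : Finset (ℤ × ℤ)) : Set (ℤ × ℤ)))
        (ofc (LX K o.re δ) (LX K o.im δ) (sd (comp (P \ H) ct) s n) 1)
        (ofc (LX K o.re δ) (LX K o.im δ) (sd (comp (P \ H) ct) s n) 1 +
          dir ((sd (comp (P \ H) ct) s n).2 - 1)) := by
      refine Relation.ReflTransGen.single ⟨hd2, fun u hu => ?_⟩
      rw [mem_coe, mem_vB hδ, hd1 u hu]
      exact hout
    exact h1.trans (LP.mono hsub (faces_J4 hδ hm3 hz (by exact_mod_cast hout) hd1 hf2))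

end Pool.Agent.Q1.M3.Pg
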