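import Pool.Agent.Q1.M3.Pg.Srch
import Pool.Agent.Q1.M3.Pg.MainF

set_option autoImplicit false
open Finset

/-! Module M3: ties of all vertices of the wired sides and of all labels of the free sides. -/

namespace Pool.Agent.Q1.M3.Pg

open Pool.Agent.H75.Perc Pool.Agent.H75.TwoArm Pool.Agent.H75.Four
open Pool.Agent.H69.Q1 Pool.Agent.H28.Q1
open Pool.Agent.H75.TwoArm.StrandAux hiding vx_nxC
open Pool.Agent.H49.Q1 (gcell gs mem_gs)
open Pool.Agent.Q1.M4 (Adj4 Conn4 Good IsSide inV inRect nextSide tail head)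
open Pool.Agent.H5.Q1

variable {K : ℕ} {o : ℂ} {δ : ℝ}

/-! ### Distances of boxes -/

/-- At most `r` columns and rows apart. -/
def NB (r : ℤ) (c z : ℤ × ℤ) : Prop := |z.1 - c.1| ≤ r ∧ |z.2 - c.2| ≤ r

lemma NB.refl {r : ℤ} (hr : 0 ≤ r) (c : ℤ × ℤ) : NB r c c := by
  unfold NB; simp [hr]

lemma NB.symm {r : ℤ} {c z : ℤ × ℤ} (h : NB r c z) : NB r z c := by
  unfold NB at h ⊢
  rwa [abs_sub_comm, abs_sub_comm (c.2)]

lemma NB.trans {r r' : ℤ} {c z w : ℤ × ℤ} (h : NB r c z) (h' : NB r' z w) : NB (r + r') c w := by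
  unfold NB at h h' ⊢
  rw [abs_le, abs_le] at h h' ⊢
  omega

lemma NB.mono {r r' : ℤ} (hr : r ≤ r') {c z : ℤ × ℤ} (h : NB r c z) : NB r' c z :=
  ⟨h.1.trans hr, h.2.trans hr⟩

lemma NB.of_adj {c z : ℤ × ℤ} (h : Adj4 c z) : NB 1 c z := by
  obtain ⟨j, h⟩ := h
  have h1 := congrArg Prod.fst h
  have h2 := congrArg Prod.snd h
  unfold NB
  rw [abs_le, abs_le]
  rcases dir_cases j with ⟨-, e⟩ | ⟨-, e⟩ | ⟨-, e⟩ | ⟨-, e⟩ <;> rw [e] at h1 h2 <;>
    simp at h1 h2 <;> omega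

lemma NB.box_step (hδ : 0 < δ) (hm : 3 * δ ≤ mesh (K + 1)) (hg : Gen2 K o δ) {u v : ℤ × ℤ}
    (h : IsUnit4 (v - u)) : NB 1 (box δ o K u) (box δ o K v) := by
  obtain ⟨h1, h2⟩ := ends_add h
  have h3 := box_adj hδ hm hg h1
  have h4 : NB 1 (box δ o K (eu (u + v))) (box δ o K (ev (u + v))) := by
    rcases h3 with h3 | h3
    · rw [h3]; exact NB.refl (by norm_num) _
    · exact NB.of_adj h3
  rcases h2 with ⟨e1, e2⟩ | ⟨e1, e2⟩
  · rw [← e1, ← e2] at h4; exact h4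
  · rw [← e1, ← e2] at h4; exact h4.symm

/-- A set of boxes outside `P` which joins `c'` to a box with a vertex at which a label is not in `E`. -/
def DeadAt (K : ℕ) (o : ℂ) (δ : ℝ) (P E : Finset (ℤ × ℤ)) (c' : ℤ × ℤ) : Prop :=
  ∃ Z : Finset (ℤ × ℤ), c' ∈ Z ∧ (∀ z ∈ Z, z ∉ P ∧ NB 8 c' z) ∧
    ∃ z', J4 (Z : Set (ℤ × ℤ)) c' z' ∧ ∃ v, box δ o K v = z' ∧ ¬ star1 v ⊆ E

/-! ### Lattice facts for sides -/

lemma unit_dir (n : ℤ) : IsUnit4 (dir n) := isUnit4_dir n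

lemma ofc_succ (X Y : ℤ → ℤ) (t : (ℤ × ℤ) × ℤ) (j : ℕ) :
    IsUnit4 (ofc X Y t (j + 1) - ofc X Y t j) ∧
      lf2 (ofc X Y t j) (ofc X Y t (j + 1)) = outl X Y t (j + 1) := by
  rw [outl_eq]
  unfold ofc lf2
  rw [sp_succ]
  obtain ⟨x, y⟩ := sp X Y t j
  have hd : (t.2 % 4 = 0 ∧ dir t.2 = (1, 0) ∧ dir (t.2 - 1) = (0, -1)) ∨
      (t.2 % 4 = 1 ∧ dir t.2 = (0, 1) ∧ dir (t.2 - 1) = (1, 0)) ∨
      (t.2 % 4 = 2 ∧ dir t.2 = (-1, 0) ∧ dir (t.2 - 1) = (0, 1)) ∨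
      (t.2 % 4 = 3 ∧ dir t.2 = (0, -1) ∧ dir (t.2 - 1) = (-1, 0)) := by
    rcases dir_cases t.2 with ⟨p, q⟩ | ⟨p, q⟩ | ⟨p, q⟩ | ⟨p, q⟩ <;>
    rcases dir_cases (t.2 - 1) with ⟨p', q'⟩ | ⟨p', q'⟩ | ⟨p', q'⟩ | ⟨p', q'⟩ <;>
    first
    | (exfalso; omega)
    | (rw [q, q']; simp; omega)
  obtain ⟨f0, f1, f2, f3⟩ := fi_oc (x, y) (t.2 + 1)
  obtain ⟨g0, g1, g2, g3⟩ := fi_oc ((x, y) + dir t.2) (t.2 + 1)
  rcases hd with ⟨e, e1, e2⟩ | ⟨e, e1, e2⟩ | ⟨e, e1, e2⟩ | ⟨e, e1, e2⟩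
  · rw [f1 (by omega), g1 (by omega), e1, e2]
    unfold IsUnit4
    simp only [Prod.mk_add_mk, Prod.mk_sub_mk, Prod.mk.injEq]
    omega
  · rw [f2 (by omega), g2 (by omega), e1, e2]
    unfold IsUnit4
    simp only [Prod.mk_add_mk, Prod.mk_sub_mk, Prod.mk.injEq]
    omega
  · rw [f3 (by omega), g3 (by omega), e1, e2]
    unfold IsUnit4
    simp only [Prod.mk_add_mk, Prod.mk_sub_mk, Prod.mk.injEq]
    omega
  · rw [f0 (by omega), g0 (by omega), e1, e2]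
    unfold IsUnit4
    simp only [Prod.mk_add_mk, Prod.mk_sub_mk, Prod.mk.injEq]
    omega

/-- the labels of a side -/
noncomputable def sideL (X Y : ℤ → ℤ) (t : (ℤ × ℤ) × ℤ) : Finset (ℤ × ℤ) :=
  (range (slen X Y t)).image fun j => sp X Y t j + sp X Y t (j + 1)

/-- the outward labels of a side -/
noncomputable def outL (X Y : ℤ → ℤ) (t : (ℤ × ℤ) × ℤ) : Finset (ℤ × ℤ) :=
  ((range (slen X Y t)).filter fun j => 0 < j).image fun j => outl X Y t j

lemma mem_sideL {X Y : ℤ → ℤ} {t : (ℤ × ℤ) × ℤ} {e : ℤ × ℤ} : e ∈ sideL X Y t ↔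
    ∃ j < slen X Y t, sp X Y t j + sp X Y t (j + 1) = e := by
  unfold sideL
  simp only [mem_image, mem_range]

lemma mem_outL {X Y : ℤ → ℤ} {t : (ℤ × ℤ) × ℤ} {e : ℤ × ℤ} : e ∈ outL X Y t ↔
    ∃ j, 0 < j ∧ j < slen X Y t ∧ outl X Y t j = e := by
  unfold outL
  simp only [mem_image, mem_filter, mem_range]
  constructor
  · rintro ⟨j, ⟨h1, h2⟩, h3⟩; exact ⟨j, h2, h1, h3⟩
  · rintro ⟨j, h1, h2, h3⟩; exact ⟨j, ⟨h2, h1⟩, h3⟩

lemma sp_unit (X Y : ℤ → ℤ) (t : (ℤ × ℤ) × ℤ) (j : ℕ) :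
    IsUnit4 (sp X Y t (j + 1) - sp X Y t j) := by
  rw [sp_succ, add_sub_cancel_left]
  exact isUnit4_dir _

/-- the points of a side are joined by its labels -/
lemma sideL_co (X Y : ℤ → ℤ) (t : (ℤ × ℤ) × ℤ) {i j : ℕ} (hij : i ≤ j) (hj : j ≤ slen X Y t) :
    Co (sideL X Y t) (sp X Y t i) (sp X Y t j) := by
  induction j, hij using Nat.le_induction with
  | base => exact Co.refl _ _
  | succ j hij ih =>
    refine (ih (by omega)).trans (primal_step (sp_unit _ _ _ _) ?_)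
    rw [mem_sideL]
    exact ⟨j, by omega, rfl⟩

/-- the outer faces of a side are joined by its outward labels -/
lemma outL_co (X Y : ℤ → ℤ) (t : (ℤ × ℤ) × ℤ) {i j : ℕ} (hij : i ≤ j) (hj : j < slen X Y t) :
    Co (du (outL X Y t) ∅) (ofc X Y t i) (ofc X Y t j) := by
  induction j, hij using Nat.le_induction with
  | base => exact Co.refl _ _
  | succ j hij ih =>
    obtain ⟨h1, h2⟩ := ofc_succ X Y t j
    refine (ih (by omega)).trans (dual_step h1 ?_ (notMem_empty _))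
    rw [h2, mem_outL]
    exact ⟨j + 1, by omega, hj, rfl⟩

/-! ### The final form of the ties -/

variable {P H : Finset (ℤ × ℤ)} {ct : ℤ × ℤ} {s : (ℤ × ℤ) × ℤ} {N p0 : ℕ} {Yn : DEnv}
  {Kv τ A E Wt : Finset (ℤ × ℤ)}

/-- All data of a step. -/
structure Stp (K : ℕ) (o : ℂ) (δ : ℝ) (P H : Finset (ℤ × ℤ)) (ct : ℤ × ℤ) (s : (ℤ × ℤ) × ℤ)
    (N p0 : ℕ) (Yn : DEnv) (Kv τ A E Wt : Finset (ℤ × ℤ)) (nh jh : ℕ) : Prop where
  hδ : 0 < δ
  hm : 5 * δ ≤ mesh (K + 1)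
  gen : Gen2 K o δ
  typed : Typed lty P H
  mem : ct ∈ P \ H
  pol : LPol (comp (P \ H) ct) (LX K o.re δ) (LX K o.im δ) s N p0
  ctx : Ctx Yn Kv (gs (LX K o.re δ) (LX K o.im δ) (comp (P \ H) ct)) τ A
    (CC (comp (P \ H) ct) (LX K o.re δ) (LX K o.im δ) s p0)
  main : MainFace Yn Kv Wt
  hlab : LPol.HLab (comp (P \ H) ct) (LX K o.re δ) (LX K o.im δ) s N Kv nh jh
  sub : Yn.E ⊆ E ∪ τ

/-- The side `n` is far from the tip and from the vertices of `Kv` outside `P`. -/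
structure Fr (K : ℕ) (o : ℂ) (δ : ℝ) (P Kv τ A E : Finset (ℤ × ℤ)) (c' : ℤ × ℤ) : Prop where
  hK : ∀ v ∈ Kv, NB 8 c' (box δ o K v) → box δ o K v ∈ P
  hτ : ∀ v, Vl τ v → ¬ NB 8 c' (box δ o K v)
  hA : ∀ e ∈ A, ¬ NB 8 c' (box δ o K (eu e)) ∧ ¬ NB 8 c' (box δ o K (ev e))
  dead : DeadAt K o δ P E c'

/-- A set of labels near a box. -/
structure Nr (K : ℕ) (o : ℂ) (δ : ℝ) (Kv E : Finset (ℤ × ℤ)) (c' : ℤ × ℤ) (T : Finset (ℤ × ℤ)) :
    Prop where
  sub : T ⊆ E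
  st : ∀ e ∈ T, e ∉ star Kv
  near : ∀ e ∈ T, NB 9 c' (box δ o K (eu e)) ∧ NB 9 c' (box δ o K (ev e))

lemma Nr.union {c' : ℤ × ℤ} {T T' : Finset (ℤ × ℤ)} (h : Nr K o δ Kv E c' T)
    (h' : Nr K o δ Kv E c' T') : Nr K o δ Kv E c' (T ∪ T') := by
  refine ⟨union_subset h.sub h'.sub, fun e he => ?_, fun e he => ?_⟩ <;>
    rcases mem_union.1 he with h1 | h1
  exacts [h.st e h1, h'.st e h1, h.near e h1, h'.near e h1]

namespace Stp

variable {nh jh : ℕ} (h : Stp K o δ P H ct s N p0 Yn Kv τ A E Wt nh jh)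

include h

lemma hm3 : 3 * δ ≤ mesh (K + 1) := by have := h.hδ; have := h.hm; linarith

/-- the labels of the region are in `E` -/
lemma gsE {e : ℤ × ℤ} (he : e ∈ gs (LX K o.re δ) (LX K o.im δ) (comp (P \ H) ct)) : e ∈ E := by
  rcases mem_union.1 (h.sub (h.ctx.GE he)) with h1 | h1
  · exact h1
  · exfalso
    refine h.ctx.τG (eu e) ⟨e, mem_erase.2 ⟨fun h2 => h.ctx.e1G (h2 ▸ he), h1⟩, Or.inl rfl⟩
      ⟨e, he, Or.inl rfl⟩

lemma isSide (n : ℕ) : IsSide (comp (P \ H) ct) (sd (comp (P \ H) ct) s n) :=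
  Pool.Agent.Q1.M4.isSide_iter h.pol.side n

lemma vl_sp' {n j : ℕ} (hj : j ≤ slen (LX K o.re δ) (LX K o.im δ) (sd (comp (P \ H) ct) s n)) :
    Vl (gs (LX K o.re δ) (LX K o.im δ) (comp (P \ H) ct))
      (sp (LX K o.re δ) (LX K o.im δ) (sd (comp (P \ H) ct) s n) j) := by
  have hl := slen_ge (K := K) (o := o) h.hδ h.hm (sd (comp (P \ H) ct) s n)
  rcases Nat.lt_or_ge j (slen (LX K o.re δ) (LX K o.im δ) (sd (comp (P \ H) ct) s n)) with h1 | h1
  · have h3 := CC_second (Q := comp (P \ H) ct) h.pol.monoX h.pol.monoY h.pol.side n h1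
    have h4 := CC_vl h.pol.good h.pol.monoX h.pol.monoY h.pol.side
      (SS (comp (P \ H) ct) (LX K o.re δ) (LX K o.im δ) s n + 2 * j)
    rwa [h3, vx_oc] at h4
  · obtain ⟨i, rfl⟩ : ∃ i, j = i + 1 := ⟨j - 1, by omega⟩
    have h3 := CC_first (Q := comp (P \ H) ct) h.pol.monoX h.pol.monoY h.pol.side n (j := i)
      (by omega)
    have h4 := CC_vl h.pol.good h.pol.monoX h.pol.monoY h.pol.side
      (SS (comp (P \ H) ct) (LX K o.re δ) (LX K o.im δ) s n + (2 * i + 1))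
    rwa [h3, vx_oc] at h4

/-- all points of a side are near the outer cell -/
lemma sp_near {n j : ℕ} (hj : j ≤ slen (LX K o.re δ) (LX K o.im δ) (sd (comp (P \ H) ct) s n)) :
    NB 2 (outc (sd (comp (P \ H) ct) s n))
      (box δ o K (sp (LX K o.re δ) (LX K o.im δ) (sd (comp (P \ H) ct) s n) j)) := by
  have hl := slen_ge (K := K) (o := o) h.hδ h.hm (sd (comp (P \ H) ct) s n)
  have hs1 : NB 1 (outc (sd (comp (P \ H) ct) s n)) (sd (comp (P \ H) ct) s n).1 :=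
    (NB.of_adj ⟨_, rfl⟩).symm
  have hin : ∀ i, 0 < i → i < slen (LX K o.re δ) (LX K o.im δ) (sd (comp (P \ H) ct) s n) →
      box δ o K (sp (LX K o.re δ) (LX K o.im δ) (sd (comp (P \ H) ct) s n) i) =
        (sd (comp (P \ H) ct) s n).1 := fun i h1 h2 =>
    (side_box h.hδ h.hm3 h.gen h.typed (h.isSide n) h1 h2).1
  rcases Nat.eq_zero_or_pos j with h1 | h1
  · subst h1
    have h2 := NB.box_step h.hδ h.hm3 h.gen (sp_unit (LX K o.re δ) (LX K o.im δ)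
      (sd (comp (P \ H) ct) s n) 0)
    rw [hin (0 + 1) (by omega) (by omega)] at h2
    exact hs1.trans h2.symm
  · rcases Nat.lt_or_ge j (slen (LX K o.re δ) (LX K o.im δ) (sd (comp (P \ H) ct) s n)) with h3 | h3
    · rw [hin j h1 h3]; exact hs1.mono (by norm_num)
    · obtain ⟨i, rfl⟩ : ∃ i, j = i + 1 := ⟨j - 1, by omega⟩
      have h2 := NB.box_step h.hδ h.hm3 h.gen (sp_unit (LX K o.re δ) (LX K o.im δ)
        (sd (comp (P \ H) ct) s n) i)
      rw [hin i (by omega) (by omega)] at h2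
      exact hs1.trans h2

/-- the labels of a side -/
lemma sideL_nr (n : ℕ) : Nr K o δ Kv E (outc (sd (comp (P \ H) ct) s n))
    (sideL (LX K o.re δ) (LX K o.im δ) (sd (comp (P \ H) ct) s n)) := by
  have key : ∀ e ∈ sideL (LX K o.re δ) (LX K o.im δ) (sd (comp (P \ H) ct) s n),
      e ∈ gs (LX K o.re δ) (LX K o.im δ) (comp (P \ H) ct) ∧
      NB 9 (outc (sd (comp (P \ H) ct) s n)) (box δ o K (eu e)) ∧
      NB 9 (outc (sd (comp (P \ H) ct) s n)) (box δ o K (ev e)) := by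
    intro e he
    obtain ⟨j, hj, rfl⟩ := mem_sideL.1 he
    obtain ⟨h1, h2⟩ := ends_add (sp_unit (LX K o.re δ) (LX K o.im δ)
      (sd (comp (P \ H) ct) s n) j)
    have v1 := h.vl_sp' (n := n) (j := j) (by omega)
    have v2 := h.vl_sp' (n := n) (j := j + 1) (by omega)
    have n1 := (h.sp_near (n := n) (j := j) (by omega)).mono (r' := 9) (by norm_num)
    have n2 := (h.sp_near (n := n) (j := j + 1) (by omega)).mono (r' := 9) (by norm_num)
    rcases h2 with ⟨e1, e2⟩ | ⟨e1, e2⟩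
    · refine ⟨h.pol.full _ h1 (e1 ▸ v1) (e2 ▸ v2), ?_, ?_⟩
      · rw [← e1]; exact n1
      · rw [← e2]; exact n2
    · refine ⟨h.pol.full _ h1 (e2 ▸ v2) (e1 ▸ v1), ?_, ?_⟩
      · rw [← e2]; exact n2
      · rw [← e1]; exact n1
  exact ⟨fun e he => h.gsE (key e he).1, fun e he => h.ctx.Gst e (key e he).1,
    fun e he => (key e he).2⟩

/-- the outward labels of a side -/
lemma outL_nr {n : ℕ} (hP : outc (sd (comp (P \ H) ct) s n) ∉ P)
    (hF : Fr K o δ P Kv τ A E (outc (sd (comp (P \ H) ct) s n))) :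
    Nr K o δ Kv E (outc (sd (comp (P \ H) ct) s n))
      (outL (LX K o.re δ) (LX K o.im δ) (sd (comp (P \ H) ct) s n)) := by
  have key : ∀ e ∈ outL (LX K o.re δ) (LX K o.im δ) (sd (comp (P \ H) ct) s n),
      e ∈ E ∧ e ∉ star Kv ∧
      NB 9 (outc (sd (comp (P \ H) ct) s n)) (box δ o K (eu e)) ∧
      NB 9 (outc (sd (comp (P \ H) ct) s n)) (box δ o K (ev e)) := by
    intro e he
    obtain ⟨j, hj, hj', rfl⟩ := mem_outL.1 he
    rw [outl_eq]
    have hu : IsUnit4 (sp (LX K o.re δ) (LX K o.im δ) (sd (comp (P \ H) ct) s n) j +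
        dir ((sd (comp (P \ H) ct) s n).2 - 1) -
        sp (LX K o.re δ) (LX K o.im δ) (sd (comp (P \ H) ct) s n) j) := by
      rw [add_sub_cancel_left]; exact isUnit4_dir _
    obtain ⟨h1, h2⟩ := ends_add hu
    obtain ⟨b1, b2⟩ := side_box h.hδ h.hm3 h.gen h.typed (h.isSide n) hj hj'
    have v1 := h.vl_sp' (n := n) (j := j) (by omega)
    have n1 := (h.sp_near (n := n) (j := j) (by omega)).mono (r' := 9) (by norm_num)
    have n2 : NB 9 (outc (sd (comp (P \ H) ct) s n)) (box δ o K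
        (sp (LX K o.re δ) (LX K o.im δ) (sd (comp (P \ H) ct) s n) j +
        dir ((sd (comp (P \ H) ct) s n).2 - 1))) := by
      rw [b2]; exact NB.refl (by norm_num) _
    set u := sp (LX K o.re δ) (LX K o.im δ) (sd (comp (P \ H) ct) s n) j with hu'
    set w := u + dir ((sd (comp (P \ H) ct) s n).2 - 1) with hw
    have hwK : w ∉ Kv := by
      intro hwK
      have := hF.hK w hwK (by rw [b2]; exact NB.refl (by norm_num) _)
      rw [b2] at this
      exact hP this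
    have huK : u ∉ Kv := h.ctx.vl_notMem v1
    have hYE : u + w ∈ Yn.E := by
      apply h.ctx.fresh _ v1
      rw [mem_star1_iff h1]
      rcases h2 with h2 | h2
      · exact Or.inl h2.1
      · exact Or.inr h2.1
    have hE : u + w ∈ E := by
      rcases mem_union.1 (h.sub hYE) with h3 | h3
      · exact h3
      · exfalso
        refine hF.hτ w ⟨u + w, h3, ?_⟩ (by rw [b2]; exact NB.refl (by norm_num) _)
        rcases h2 with h2 | h2
        · exact Or.inr h2.2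
        · exact Or.inl h2.2
    refine ⟨hE, ?_, ?_, ?_⟩
    · rw [mem_star_iff h1, not_or]
      rcases h2 with h2 | h2
      · rw [← h2.1, ← h2.2]; exact ⟨huK, hwK⟩
      · rw [← h2.1, ← h2.2]; exact ⟨hwK, huK⟩
    · rcases h2 with h2 | h2
      · rw [← h2.1]; exact n1
      · rw [← h2.2]; exact n2
    · rcases h2 with h2 | h2
      · rw [← h2.2]; exact n2
      · rw [← h2.1]; exact n1
  exact ⟨fun e he => (key e he).1, fun e he => (key e he).2.1, fun e he => (key e he).2.2⟩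

/-- the search at a side -/
lemma srch {n : ℕ} (hn : n < N) (hF : Fr K o δ P Kv τ A E (outc (sd (comp (P \ H) ct) s n))) :
    ∃ Z : Finset (ℤ × ℤ), (∀ z ∈ Z, z ∉ P ∧ NB 8 (outc (sd (comp (P \ H) ct) s n)) z) ∧
      ∃ gn, LPol.Srch (comp (P \ H) ct) (LX K o.re δ) (LX K o.im δ) s N Yn Kv τ A (vB K o δ Z) n 1
        gn := by
  obtain ⟨Z, hcZ, hZ, z', hJ, v, hv, hvE⟩ := hF.dead
  refine ⟨Z, hZ, exists_srch h.hδ h.hm h.gen h.typed h.mem h.pol.side hn (fun z hz => (hZ z hz).1)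
    hcZ ?_ ?_ ?_ hJ hv ?_⟩
  · intro w hw hwZ
    exact (hZ _ hwZ).1 (hF.hK w hw (hZ _ hwZ).2)
  · intro w hw hwZ
    exact hF.hτ w hw (hZ _ hwZ).2
  · intro e he
    exact ⟨fun h1 => (hF.hA e he).1 (hZ _ h1).2, fun h1 => (hF.hA e he).2 (hZ _ h1).2⟩
  · intro hsub
    apply hvE
    intro e he
    rcases mem_union.1 (h.sub (hsub he)) with h1 | h1
    · exact h1
    · exfalso
      have h2 := (mem_star1_iff (odd_star1 he)).1 he
      refine hF.hτ v ⟨e, h1, h2⟩ ?_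
      rw [hv]
      have hz' : z' ∈ (Z : Set (ℤ × ℤ)) := J4.mem hJ (by exact_mod_cast hcZ)
      exact (hZ z' (by exact_mod_cast hz')).2

lemma mt2_nr {n : ℕ} (hF : Fr K o δ P Kv τ A E (outc (sd (comp (P \ H) ct) s n)))
    {Z : Finset (ℤ × ℤ)} (hZ : ∀ z ∈ Z, z ∉ P ∧ NB 8 (outc (sd (comp (P \ H) ct) s n)) z)
    {T : Finset (ℤ × ℤ)} (hT : ∀ e ∈ T, e ∈ Yn.E ∧ (eu e ∈ vB K o δ Z ∨ ev e ∈ vB K o δ Z) ∧
      (∀ u, (u = eu e ∨ u = ev e) → u ∈ vB K o δ Z ∨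
        Vl (gs (LX K o.re δ) (LX K o.im δ) (comp (P \ H) ct)) u)) :
    Nr K o δ Kv E (outc (sd (comp (P \ H) ct) s n)) T := by
  have hK : ∀ u, u ∈ vB K o δ Z → u ∉ Kv := by
    intro u hu huK
    have h1 := hZ _ ((mem_vB h.hδ).1 hu)
    exact h1.1 (hF.hK u huK h1.2)
  have hK2 : ∀ u, (u ∈ vB K o δ Z ∨
      Vl (gs (LX K o.re δ) (LX K o.im δ) (comp (P \ H) ct)) u) → u ∉ Kv := by
    intro u hu
    rcases hu with hu | hu
    · exact hK u hu
    · exact h.ctx.vl_notMem hu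
  have hn8 : ∀ u, u ∈ vB K o δ Z → NB 8 (outc (sd (comp (P \ H) ct) s n)) (box δ o K u) :=
    fun u hu => (hZ _ ((mem_vB h.hδ).1 hu)).2
  refine ⟨fun e he => ?_, fun e he => ?_, fun e he => ?_⟩
  · obtain ⟨h1, h2, h3⟩ := hT e he
    rcases mem_union.1 (h.sub h1) with h4 | h4
    · exact h4
    · exfalso
      rcases h2 with h2 | h2
      · exact hF.hτ _ ⟨e, h4, Or.inl rfl⟩ (hn8 _ h2)
      · exact hF.hτ _ ⟨e, h4, Or.inr rfl⟩ (hn8 _ h2)
  · obtain ⟨h1, h2, h3⟩ := hT e he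
    rw [mem_star_iff (h.ctx.oddE e h1), not_or]
    exact ⟨hK2 _ (h3 _ (Or.inl rfl)), hK2 _ (h3 _ (Or.inr rfl))⟩
  · obtain ⟨h1, h2, h3⟩ := hT e he
    have hodd := h.ctx.oddE e h1
    have hb := box_adj (K := K) (o := o) h.hδ h.hm3 h.gen hodd
    have hb' : NB 1 (box δ o K (eu e)) (box δ o K (ev e)) := by
      rcases hb with hb | hb
      · rw [hb]; exact NB.refl (by norm_num) _
      · exact NB.of_adj hb
    rcases h2 with h2 | h2
    · exact ⟨(hn8 _ h2).mono (by norm_num), (hn8 _ h2).trans hb'⟩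
    · exact ⟨(hn8 _ h2).trans hb'.symm, (hn8 _ h2).mono (by norm_num)⟩

/-- **Ties of the vertices of the wired sides.** -/
theorem tA {n : ℕ} (hn0 : 0 < n) (hn : n < nh)
    (hF : Fr K o δ P Kv τ A E (outc (sd (comp (P \ H) ct) s n))) {j : ℕ}
    (hj : j ≤ slen (LX K o.re δ) (LX K o.im δ) (sd (comp (P \ H) ct) s n)) :
    ∃ T, Nr K o δ Kv E (outc (sd (comp (P \ H) ct) s n)) T ∧ ∃ w,
      Co T (sp (LX K o.re δ) (LX K o.im δ) (sd (comp (P \ H) ct) s n) j) w ∧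
      Co Wt (vx Yn.α) w := by
  have hnN : n < N := lt_trans hn h.hlab.hn
  obtain ⟨Z, hZ, gn, hS⟩ := h.srch hnN hF
  have hl := slen_ge (K := K) (o := o) h.hδ h.hm (sd (comp (P \ H) ct) s n)
  have hP : outc (sd (comp (P \ H) ct) s n) ∉ P := by
    obtain ⟨Z', hcZ', hZ', -⟩ := hF.dead
    exact (hZ' _ hcZ').1
  -- positions
  have hpos1 : p0 ≤ SS (comp (P \ H) ct) (LX K o.re δ) (LX K o.im δ) s n := h.pol.lenle hn0
  have hpos2 := SS_pos (Q := comp (P \ H) ct) (X := LX K o.re δ) (Y := LX K o.im δ) (s := s) hn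
    (j := 1) (by omega)
  obtain ⟨b, hb, w, hw, hWt, hbT, hco⟩ := h.pol.tieA h.ctx h.main hS h.hlab (by omega) (by
    have := h.hlab.hj; omega)
  -- the index of `b`
  obtain ⟨i, hi0, hi1, hbi⟩ : ∃ i, 0 < i ∧
      i < slen (LX K o.re δ) (LX K o.im δ) (sd (comp (P \ H) ct) s n) ∧
      b = sp (LX K o.re δ) (LX K o.im δ) (sd (comp (P \ H) ct) s n) i := by
    unfold LPol.base at hb
    rw [mem_insert, mem_singleton] at hb
    rcases hb with rfl | rfl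
    · exact ⟨1, one_pos, by omega, rfl⟩
    · exact ⟨1 + 1, by omega, by omega, rfl⟩
  refine ⟨sideL (LX K o.re δ) (LX K o.im δ) (sd (comp (P \ H) ct) s n) ∪
    (outL (LX K o.re δ) (LX K o.im δ) (sd (comp (P \ H) ct) s n) ∪ mt Yn.E (vB K o δ Z)),
    (h.sideL_nr n).union ((h.outL_nr hP hF).union (h.mt2_nr hF hZ ?_)), w, ?_, hWt⟩
  · intro e he
    unfold mt at he
    rw [mem_filter] at he
    refine ⟨he.1, Or.inl he.2.1, fun u hu => Or.inl ?_⟩
    rcases hu with rfl | rfl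
    · exact he.2.1
    · exact he.2.2
  · have c1 : Co (sideL (LX K o.re δ) (LX K o.im δ) (sd (comp (P \ H) ct) s n))
        (sp (LX K o.re δ) (LX K o.im δ) (sd (comp (P \ H) ct) s n) j) b := by
      rw [hbi]
      rcases le_total i j with h1 | h1
      · exact (sideL_co _ _ _ h1 hj).symm
      · exact sideL_co _ _ _ h1 hi1.le
    have c2 : Co (outL (LX K o.re δ) (LX K o.im δ) (sd (comp (P \ H) ct) s n)) b
        (b + dir ((sd (comp (P \ H) ct) s n).2 - 1)) := by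
      refine primal_step (by rw [add_sub_cancel_left]; exact isUnit4_dir _) ?_
      rw [mem_outL]
      exact ⟨i, hi0, hi1, by rw [outl_eq, hbi]⟩
    exact (c1.mono subset_union_left).trans ((c2.mono (subset_union_left.trans
      subset_union_right)).trans (hco.mono (subset_union_right.trans subset_union_right)))

/-- **Ties of the labels of the free sides.** -/
theorem tL {n : ℕ} (hn : nh < n) (hnN : n < N)
    (hF : Fr K o δ P Kv τ A E (outc (sd (comp (P \ H) ct) s n))) {j : ℕ}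
    (hj : j < slen (LX K o.re δ) (LX K o.im δ) (sd (comp (P \ H) ct) s n)) :
    ∃ T, Nr K o δ Kv E (outc (sd (comp (P \ H) ct) s n)) T ∧ ∃ g,
      Co (du T ∅) (ofc (LX K o.re δ) (LX K o.im δ) (sd (comp (P \ H) ct) s n) j) g ∧
      ClJ Yn (fi Yn.α) g := by
  obtain ⟨Z, hZ, gn, hS⟩ := h.srch hnN hF
  have hl := slen_ge (K := K) (o := o) h.hδ h.hm (sd (comp (P \ H) ct) s n)
  have hP : outc (sd (comp (P \ H) ct) s n) ∉ P := by
    obtain ⟨Z', hcZ', hZ', -⟩ := hF.dead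
    exact (hZ' _ hcZ').1
  have hpos := SS_pos (Q := comp (P \ H) ct) (X := LX K o.re δ) (Y := LX K o.im δ) (s := s) hn
    (j := jh) h.hlab.hj'
  obtain ⟨c, hcT, hcl, hd⟩ := h.pol.tieL h.ctx h.main hS h.hlab (by omega)
  refine ⟨outL (LX K o.re δ) (LX K o.im δ) (sd (comp (P \ H) ct) s n) ∪
    mt2 Yn.E (vB K o δ Z) (LPol.base (comp (P \ H) ct) (LX K o.re δ) (LX K o.im δ) s n 1),
    (h.outL_nr hP hF).union (h.mt2_nr hF hZ ?_), fi c, ?_, hcl⟩
  · intro e he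
    unfold mt2 at he
    rw [mem_filter] at he
    refine ⟨he.1, he.2.1, fun u hu => ?_⟩
    have hu' : u ∈ vB K o δ Z ∪ LPol.base (comp (P \ H) ct) (LX K o.re δ) (LX K o.im δ) s n 1 := by
      rcases hu with rfl | rfl
      · exact he.2.2.1
      · exact he.2.2.2
    rcases mem_union.1 hu' with h1 | h1
    · exact Or.inl h1
    · right
      unfold LPol.base at h1
      rw [mem_insert, mem_singleton] at h1
      rcases h1 with rfl | rfl
      · exact h.vl_sp' (by omega)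
      · exact h.vl_sp' (by omega)
  · have c1 : Co (du (outL (LX K o.re δ) (LX K o.im δ) (sd (comp (P \ H) ct) s n)) ∅)
        (ofc (LX K o.re δ) (LX K o.im δ) (sd (comp (P \ H) ct) s n) j)
        (ofc (LX K o.re δ) (LX K o.im δ) (sd (comp (P \ H) ct) s n) 1) := by
      rcases le_total 1 j with h1 | h1
      · exact (outL_co _ _ _ h1 hj).symm
      · exact outL_co _ _ _ h1 (by omega)
    exact (c1.mono (du_mono_left subset_union_left)).trans
      (hd.mono (du_mono_left subset_union_right))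

end Stp

end Pool.Agent.Q1.M3.Pg
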