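import Pool.Agent.Q1.M3.Pg.Col2

set_option autoImplicit false
open Finset

/-! Module M3: ties of both colours. -/

namespace Pool.Agent.Q1.M3.Pg

open Pool.Agent.H75.Perc Pool.Agent.H75.TwoArm Pool.Agent.H75.Four
open Pool.Agent.H69.Q1 Pool.Agent.H28.Q1
open Pool.Agent.H75.TwoArm.StrandAux hiding vx_nxC
open Pool.Agent.H49.Q1 (gcell gs mem_gs)
open Pool.Agent.Q1.M4 (Adj4 Conn4 Good IsSide inV inRect nextSide tail head)
open Pool.Agent.H5.Q1

/-- A label outside `E` at a corner whose face is joined to the face of `β`: it is wired and the vertex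
is joined to the tip by labels of `Wt`, or the face is joined to the face of `α` by labels outside
`E ∪ W`. -/
def MainFace (Y : DEnv) (K Wt : Finset (ℤ × ℤ)) : Prop :=
  ∀ c e', vx c ∉ K → (e' = lab c ∨ e' = plab c) → e' ∉ Y.E →
    (∃ M, Co (du M (kap K ∩ (Y.E ∪ Y.W) ∪ Y.W)) (fi Y.β) (fi c)) →
    (e' ∈ Y.W ∧ Co Wt (vx Y.α) (vx c)) ∨ ClJ Y (fi Y.α) (fi c)

variable {Yn : DEnv} {K G τ A : Finset (ℤ × ℤ)} {a0 : ℤ × ℤ}

lemma Ctx.vl_notMem (h : Ctx Yn K G τ A a0) {u : ℤ × ℤ} (hu : Vl G u) : u ∉ K := by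
  intro hK
  obtain ⟨e, he, h1⟩ := hu
  have hodd := h.oddE e (h.GE he)
  exact h.Gst e he ((mem_star_iff hodd).2 (by rcases h1 with h1 | h1 <;> rw [← h1] <;> tauto))

/-- one step along a contour -/
lemma nx_dual {G L : Finset (ℤ × ℤ)} {c : ℤ × ℤ} (h : lab c ∈ G ∨ lab c ∉ L) :
    Co (du {lab c} L) (fi c) (fi (nx G c)) := by
  by_cases hG : lab c ∈ G
  · have h1 : plab (nx G c) ∈ G := by rw [← lab_pv G, pv_nx]; exact hG
    have h2 := (vx_of_open h1).2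
    rw [pv_nx] at h2
    rw [h2]
    exact Co.refl _ _
  · have hL := h.resolve_left hG
    have h1 : nx G c = nxC c := by unfold nx; rw [if_neg hG]
    rw [h1]
    obtain ⟨h3, h4⟩ := Pool.Agent.H75.TwoArm.StrandAux.fi_nxC c
    have h5 : lf2 (fi c) (fi (nxC c)) = lab c := by unfold lf2; rw [h4]; simp
    exact dual_step h3 (by rw [h5]; exact mem_singleton_self _) (by rw [h5]; exact hL)

/-- faces joined off a set of labels -/
def FJ (L : Finset (ℤ × ℤ)) (f g : ℤ × ℤ) : Prop := ∃ M, Co (du M L) f g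

lemma FJ.refl (L : Finset (ℤ × ℤ)) (f : ℤ × ℤ) : FJ L f f := ⟨∅, Co.refl _ _⟩

lemma FJ.symm {L : Finset (ℤ × ℤ)} {f g : ℤ × ℤ} (h : FJ L f g) : FJ L g f := by
  obtain ⟨M, h⟩ := h; exact ⟨M, h.symm⟩

lemma FJ.trans {L : Finset (ℤ × ℤ)} {f g k : ℤ × ℤ} (h : FJ L f g) (h' : FJ L g k) : FJ L f k := by
  obtain ⟨M, h⟩ := h
  obtain ⟨M', h'⟩ := h'
  exact ⟨M ∪ M', (h.mono (du_mono_left subset_union_left)).trans
    (h'.mono (du_mono_left subset_union_right))⟩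

lemma FJ.anti {L L' : Finset (ℤ × ℤ)} (hL : L' ⊆ L) {f g : ℤ × ℤ} (h : FJ L f g) : FJ L' f g := by
  obtain ⟨M, h⟩ := h; exact ⟨M, h.mono (du_anti hL)⟩

/-- **All faces of the contour are joined to the face of `β` off `kap K` and the wired labels.** -/
theorem Ctx.face_contour (h : Ctx Yn K G τ A a0) (m : ℕ)
    (hvl : ∀ t, Vl G (vx (ca G a0 t))) :
    FJ (kap K ∩ (Yn.E ∪ Yn.W) ∪ Yn.W) (fi Yn.β) (fi (ca G a0 m)) := by
  set L := kap K ∩ (Yn.E ∪ Yn.W) ∪ Yn.W with hL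
  have hLEW : L ⊆ Yn.E ∪ Yn.W := union_subset inter_subset_right subset_union_right
  have h1 : FJ L (fi Yn.β) (fi Yn.α) := by
    obtain ⟨F, hF⟩ := h.inv.clJ
    exact ⟨F, hF.mono (du_anti hLEW)⟩
  have h2 : FJ L (fi Yn.α) (fi (cz G a0 0)) := by
    obtain ⟨M, hM⟩ := h.leftd
    refine ⟨M, hM.mono (du_anti ?_)⟩
    intro e he
    refine mem_sdiff.2 ⟨hLEW he, fun hA => ?_⟩
    rcases mem_union.1 he with h3 | h3
    · exact h.Ast e hA ((filter_subset _ _ : kap K ⊆ star K) (mem_inter.1 h3).1)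
    · exact (Finset.disjoint_left.1 Yn.disj) (h.AE hA) h3
  have notL : ∀ u e, Vl G u → e ∈ star1 u → e ∉ L := by
    intro u e hu he hin
    have hE : e ∈ Yn.E := h.fresh u hu he
    rcases mem_union.1 hin with h3 | h3
    · have h4 := (mem_kap_iff (odd_star1 he)).1 (mem_inter.1 h3).1
      rcases (mem_star1_iff (odd_star1 he)).1 he with h5 | h5
      · exact h.vl_notMem hu (h5 ▸ h4.1)
      · exact h.vl_notMem hu (h5 ▸ h4.2)
    · exact (Finset.disjoint_left.1 Yn.disj) hE h3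
  have h3 : FJ L (fi (cz G a0 0)) (fi a0) := by
    have h4 : cz G a0 0 = pv G a0 := rfl
    have h5 : nx G (pv G a0) = a0 := nx_pv G a0
    have h6 : lab (pv G a0) = plab a0 := lab_pv G a0
    refine ⟨{plab a0}, ?_⟩
    have := nx_dual (G := G) (L := L) (c := pv G a0) (Or.inr (by
      rw [h6]; exact notL _ _ h.a0G (plab_star1 a0)))
    rw [h5, h6] at this
    rw [h4]; exact this
  have h4 : ∀ m, FJ L (fi a0) (fi (ca G a0 m)) := by
    intro m
    induction m with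
    | zero => exact FJ.refl _ _
    | succ m ih =>
      refine ih.trans ⟨{lab (ca G a0 m)}, ?_⟩
      have e : ca G a0 (m + 1) = nx G (ca G a0 m) := Function.iterate_succ_apply' _ _ _
      rw [e]
      exact nx_dual (Or.inr (notL _ _ (hvl m) (lab_star1 _)))
  exact (h1.trans h2).trans (h3.trans (h4 m))

namespace LPol

variable {Q : Finset (ℤ × ℤ)} {X Y : ℤ → ℤ} {s : (ℤ × ℤ) × ℤ} {N p0 : ℕ}

/-- outer face of a label of a side -/
noncomputable def _root_.Pool.Agent.Q1.M3.Pg.ofc (X Y : ℤ → ℤ) (t : (ℤ × ℤ) × ℤ) (j : ℕ) : ℤ × ℤ :=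
  fi (oc (sp X Y t j) (t.2 + 1))

lemma _root_.Pool.Agent.Q1.M3.Pg.cf_ofc (X Y : ℤ → ℤ) (t : (ℤ × ℤ) × ℤ) (j : ℕ) (u : ℤ × ℤ) :
    Cf (ofc X Y t j) u ↔ u = sp X Y t j ∨ u = sp X Y t (j + 1) ∨
      u = sp X Y t j + dir (t.2 - 1) ∨ u = sp X Y t (j + 1) + dir (t.2 - 1) := by
  rw [sp_succ]
  unfold ofc
  obtain ⟨x, y⟩ := sp X Y t j
  obtain ⟨a, b⟩ := u
  obtain ⟨f0, f1, f2, f3⟩ := fi_oc (x, y) (t.2 + 1)
  have hd : (t.2 % 4 = 0 ∧ dir t.2 = (1, 0) ∧ dir (t.2 - 1) = (0, -1)) ∨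
      (t.2 % 4 = 1 ∧ dir t.2 = (0, 1) ∧ dir (t.2 - 1) = (1, 0)) ∨
      (t.2 % 4 = 2 ∧ dir t.2 = (-1, 0) ∧ dir (t.2 - 1) = (0, 1)) ∨
      (t.2 % 4 = 3 ∧ dir t.2 = (0, -1) ∧ dir (t.2 - 1) = (-1, 0)) := by
    rcases dir_cases t.2 with ⟨p, q⟩ | ⟨p, q⟩ | ⟨p, q⟩ | ⟨p, q⟩ <;>
    rcases dir_cases (t.2 - 1) with ⟨p', q'⟩ | ⟨p', q'⟩ | ⟨p', q'⟩ | ⟨p', q'⟩ <;>
    first
    | (exfalso; omega)
    | (rw [q, q']; simp; omega)
  rcases hd with ⟨e, e1, e2⟩ | ⟨e, e1, e2⟩ | ⟨e, e1, e2⟩ | ⟨e, e1, e2⟩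
  · rw [f1 (by omega), e1, e2]
    unfold Cf
    simp only [Prod.mk_add_mk, Prod.mk.injEq]
    omega
  · rw [f2 (by omega), e1, e2]
    unfold Cf
    simp only [Prod.mk_add_mk, Prod.mk.injEq]
    omega
  · rw [f3 (by omega), e1, e2]
    unfold Cf
    simp only [Prod.mk_add_mk, Prod.mk.injEq]
    omega
  · rw [f0 (by omega), e1, e2]
    unfold Cf
    simp only [Prod.mk_add_mk, Prod.mk.injEq]
    omega

variable {Wt : Finset (ℤ × ℤ)} {nh jh n j : ℕ} {T : Finset (ℤ × ℤ)} {gn : ℤ × ℤ}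

/-- Data of the search for a tie at the side `n`. -/
structure Srch (Q : Finset (ℤ × ℤ)) (X Y : ℤ → ℤ) (s : (ℤ × ℤ) × ℤ) (N : ℕ) (Yn : DEnv)
    (K τ A T : Finset (ℤ × ℤ)) (n j : ℕ) (gn : ℤ × ℤ) : Prop where
  hn : n < N
  hj : 0 < j
  hj' : j + 1 < slen X Y (sd Q s n)
  TK : Disjoint T K
  TG : ∀ u ∈ T, ¬ Vl (gs X Y Q) u
  Tτ : ∀ u ∈ T, ¬ Vl τ u
  TA : ∀ e ∈ A, eu e ∉ T ∧ ev e ∉ T
  y0 : sp X Y (sd Q s n) j + dir ((sd Q s n).2 - 1) ∈ T
  y1 : sp X Y (sd Q s n) (j + 1) + dir ((sd Q s n).2 - 1) ∈ T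
  path : LP (TF (T : Set (ℤ × ℤ))) (ofc X Y (sd Q s n) j) gn
  hgn : ∃ u, Cf gn u ∧ ¬ star1 u ⊆ Yn.E

/-- the base vertices of the search -/
noncomputable def base (Q : Finset (ℤ × ℤ)) (X Y : ℤ → ℤ) (s : (ℤ × ℤ) × ℤ) (n j : ℕ) :
    Finset (ℤ × ℤ) := {sp X Y (sd Q s n) j, sp X Y (sd Q s n) (j + 1)}

/-- the target label -/
structure HLab (Q : Finset (ℤ × ℤ)) (X Y : ℤ → ℤ) (s : (ℤ × ℤ) × ℤ) (N : ℕ)
    (K : Finset (ℤ × ℤ)) (nh jh : ℕ) : Prop where
  hn : nh < N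
  h0 : 0 < nh
  hj : 0 < jh
  hj' : jh < slen X Y (sd Q s nh)
  perp : outl X Y (sd Q s nh) jh ∈ perp K

variable (h : LPol Q X Y s N p0) (hc : Ctx Yn K (gs X Y Q) τ A (CC Q X Y s p0))

include h

lemma vl_sp {n j : ℕ} (hj : 0 < j) (hj' : j < slen X Y (sd Q s n)) :
    Vl (gs X Y Q) (sp X Y (sd Q s n) j) := by
  obtain ⟨i, rfl⟩ : ∃ i, j = i + 1 := ⟨j - 1, by omega⟩
  have h3 := CC_first (Q := Q) h.monoX h.monoY h.side n (j := i) (by omega)
  have h4 := CC_vl h.good h.monoX h.monoY h.side (SS Q X Y s n + (2 * i + 1))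
  rwa [h3, vx_oc] at h4

include hc

/-- The search finds a tie. -/
lemma tieF (hS : Srch Q X Y s N Yn K τ A T n j gn) :
    TieF Yn.E T (base Q X Y s n j) (ofc X Y (sd Q s n) j) := by
  have v1 := h.vl_sp (n := n) hS.hj (by have := hS.hj'; omega)
  have v2 := h.vl_sp (n := n) (j := j + 1) (by omega) hS.hj'
  refine tie_exists (gn := gn) ?_ ?_ ?_ hS.path hS.hgn
  · intro b hb
    unfold base at hb
    rw [mem_insert, mem_singleton] at hb
    rcases hb with rfl | rfl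
    · exact hc.fresh _ v1
    · exact hc.fresh _ v2
  · intro u hu
    rw [cf_ofc] at hu
    unfold base
    rw [mem_union, mem_insert, mem_singleton]
    rcases hu with rfl | rfl | rfl | rfl
    · tauto
    · tauto
    · exact Or.inl hS.y0
    · exact Or.inl hS.y1
  · intro y hy hyc
    rw [cf_ofc] at hyc
    unfold base
    rcases hyc with rfl | rfl | rfl | rfl
    · exact absurd v1 (hS.TG _ hy)
    · exact absurd v2 (hS.TG _ hy)
    · refine ⟨sp X Y (sd Q s n) j, by simp, ?_, ?_⟩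
      · rw [cf_ofc]; tauto
      · rw [add_sub_cancel_left]; exact isUnit4_dir _
    · refine ⟨sp X Y (sd Q s n) (j + 1), by simp, ?_, ?_⟩
      · rw [cf_ofc]; tauto
      · rw [add_sub_cancel_left]; exact isUnit4_dir _

/-- labels of the search are off the relevant sets -/
lemma mt2_off (hS : Srch Q X Y s N Yn K τ A T n j gn) {B : Finset (ℤ × ℤ)}
    (hH : HLab Q X Y s N K nh jh) {e : ℤ × ℤ} (he : e ∈ mt2 Yn.E T B) :
    e ∉ Yn.W ∪ kap K ∪ gs X Y Q ∪ τ ∪ {outl X Y (sd Q s nh) jh} := by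
  unfold mt2 at he
  rw [mem_filter] at he
  obtain ⟨heE, hT, -⟩ := he
  have hodd := hc.oddE e heE
  have hTK := Finset.disjoint_left.1 hS.TK
  simp only [mem_union, mem_singleton, not_or]
  refine ⟨⟨⟨⟨?_, ?_⟩, ?_⟩, ?_⟩, ?_⟩
  · exact fun hW => (Finset.disjoint_left.1 Yn.disj) heE hW
  · intro hk
    have := (mem_kap_iff hodd).1 hk
    rcases hT with hT | hT
    · exact hTK hT this.1
    · exact hTK hT this.2
  · intro hG
    rcases hT with hT | hT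
    · exact hS.TG _ hT ⟨e, hG, Or.inl rfl⟩
    · exact hS.TG _ hT ⟨e, hG, Or.inr rfl⟩
  · intro hG
    rcases hT with hT | hT
    · exact hS.Tτ _ hT ⟨e, hG, Or.inl rfl⟩
    · exact hS.Tτ _ hT ⟨e, hG, Or.inr rfl⟩
  · intro heq
    have hperp := hH.perp
    rw [← heq] at hperp
    have h1 := (mem_perp_iff hodd).1 hperp
    -- one end is in the region
    have h2 := h.vl_sp (n := nh) hH.hj hH.hj'
    have h3 : e ∈ star1 (sp X Y (sd Q s nh) jh) := by
      rw [heq]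
      have := lab_star1 (oc (sp X Y (sd Q s nh) jh) (sd Q s nh).2)
      rwa [vx_oc] at this
    have h4 := (mem_star1_iff hodd).1 h3
    have h5 : sp X Y (sd Q s nh) jh ∉ K := hc.vl_notMem h2
    rcases hT with hT | hT
    · have t1 := hTK hT
      have t2 := hS.TG _ hT
      rcases h4 with h4 | h4
      · exact t2 (h4 ▸ h2)
      · rw [h4] at h5; tauto
    · have t1 := hTK hT
      have t2 := hS.TG _ hT
      rcases h4 with h4 | h4
      · rw [h4] at h5; tauto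
      · exact t2 (h4 ▸ h2)

lemma face_beta (hS : Srch Q X Y s N Yn K τ A T n j gn) {c : ℤ × ℤ}
    (hd : Co (du (mt2 Yn.E T (base Q X Y s n j)) ∅) (ofc X Y (sd Q s n) j) (fi c)) :
    ∃ M, Co (du M (kap K ∩ (Yn.E ∪ Yn.W) ∪ Yn.W)) (fi Yn.β) (fi c) := by
  have hj1 := h.p0pos
  have h1 : FJ (kap K ∩ (Yn.E ∪ Yn.W) ∪ Yn.W) (fi Yn.β) (ofc X Y (sd Q s n) j) := by
    -- the corner on the contour
    have h2 := CC_second (Q := Q) h.monoX h.monoY h.side n (j := j) (by have := hS.hj'; omega)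
    have hL := h.len
    have h3 := CC_add h.good h.monoX h.monoY h.side h.per (SS Q X Y s n + 2 * j)
    obtain ⟨m, hm⟩ : ∃ m, SS Q X Y s n + 2 * j + SS Q X Y s N = p0 + m :=
      ⟨SS Q X Y s n + 2 * j + SS Q X Y s N - p0, by omega⟩
    have h4 := hc.face_contour m (fun t => by
      rw [ca_CC]; exact CC_vl h.good h.monoX h.monoY h.side _)
    rw [ca_CC, ← hm, h3, h2] at h4
    exact h4
  have h2 : FJ (kap K ∩ (Yn.E ∪ Yn.W) ∪ Yn.W) (ofc X Y (sd Q s n) j) (fi c) := by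
    refine ⟨_, hd.mono (du_sub_of fun e he _ => ?_)⟩
    unfold mt2 at he
    rw [mem_filter] at he
    obtain ⟨heE, hT, -⟩ := he
    rw [mem_union, mem_inter, not_or]
    constructor
    · rintro ⟨hk, -⟩
      have := (mem_kap_iff (hc.oddE e heE)).1 hk
      rcases hT with hT | hT
      · exact (Finset.disjoint_left.1 hS.TK) hT this.1
      · exact (Finset.disjoint_left.1 hS.TK) hT this.2
    · exact fun hW => (Finset.disjoint_left.1 Yn.disj) heE hW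
  exact h1.trans h2

omit hc in
/-- The vertex `y` is behind `b`. -/
lemma base_eq (hS : Srch Q X Y s N Yn K τ A T n j gn) {b y : ℤ × ℤ}
    (hb : b ∈ base Q X Y s n j) (hy : y ∈ T) (hby : IsUnit4 (y - b))
    (hy0 : Cf (ofc X Y (sd Q s n) j) y) : y = b + dir ((sd Q s n).2 - 1) := by
  have v1 := h.vl_sp (n := n) hS.hj (by have := hS.hj'; omega)
  have v2 := h.vl_sp (n := n) (j := j + 1) (by omega) hS.hj'
  have hd4 : (dir (sd Q s n).2 = (1, 0) ∧ dir ((sd Q s n).2 - 1) = (0, -1)) ∨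
    (dir (sd Q s n).2 = (0, 1) ∧ dir ((sd Q s n).2 - 1) = (1, 0)) ∨
    (dir (sd Q s n).2 = (-1, 0) ∧ dir ((sd Q s n).2 - 1) = (0, 1)) ∨
    (dir (sd Q s n).2 = (0, -1) ∧ dir ((sd Q s n).2 - 1) = (-1, 0)) := by
    rcases dir_cases (sd Q s n).2 with ⟨p, q⟩ | ⟨p, q⟩ | ⟨p, q⟩ | ⟨p, q⟩ <;>
    rcases dir_cases ((sd Q s n).2 - 1) with ⟨p', q'⟩ | ⟨p', q'⟩ | ⟨p', q'⟩ | ⟨p', q'⟩ <;>
    first
    | (exfalso; omega)
    | (rw [q, q']; simp)
  rw [cf_ofc] at hy0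
  unfold base at hb
  rw [mem_insert, mem_singleton] at hb
  rcases hy0 with rfl | rfl | rfl | rfl
  · exact absurd v1 (hS.TG _ hy)
  · exact absurd v2 (hS.TG _ hy)
  · rcases hb with rfl | rfl
    · rfl
    · exfalso
      rw [sp_succ] at hby
      unfold IsUnit4 at hby
      rcases hd4 with ⟨q, q'⟩ | ⟨q, q'⟩ | ⟨q, q'⟩ | ⟨q, q'⟩ <;> rw [q, q'] at hby <;>
        simp at hby
  · rcases hb with rfl | rfl
    · exfalso
      rw [sp_succ] at hby
      unfold IsUnit4 at hby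
      rcases hd4 with ⟨q, q'⟩ | ⟨q, q'⟩ | ⟨q, q'⟩ | ⟨q, q'⟩ <;> rw [q, q'] at hby <;>
        simp [Prod.ext_iff] at hby
    · rfl

/-- **Ties of the wired side.** -/
theorem tieA (hMF : MainFace Yn K Wt) (hS : Srch Q X Y s N Yn K τ A T n j gn)
    (hH : HLab Q X Y s N K nh jh) (hp1 : p0 ≤ SS Q X Y s n + 2 * j)
    (hp2 : SS Q X Y s n + 2 * j + 1 ≤ SS Q X Y s nh + 2 * jh) :
    ∃ b ∈ base Q X Y s n j, ∃ w ∈ T, Co Wt (vx Yn.α) w ∧
      b + dir ((sd Q s n).2 - 1) ∈ T ∧ Co (mt Yn.E T) (b + dir ((sd Q s n).2 - 1)) w := by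
  obtain ⟨c, e', hcT, he', he'E, hd, b, hb, y, hy, hby, hb0, hy0, hco⟩ := h.tieF hc hS
  have hcK : vx c ∉ K := fun hK => (Finset.disjoint_left.1 hS.TK) hcT hK
  have h1 := hMF c e' hcK he' he'E (h.face_beta hc hS hd)
  have h2 : e' ∈ Yn.W ∧ Co Wt (vx Yn.α) (vx c) := by
    refine h1.resolve_right fun hcl => ?_
    have h3 := h.claimA hc hH.hn hH.hj hH.hj' hH.perp hp1 hp2 hcl
      (M := mt2 Yn.E T (base Q X Y s n j))
    apply h3
    rw [CC_second (Q := Q) h.monoX h.monoY h.side n (j := j) (by have := hS.hj'; omega)]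
    refine hd.mono (du_sub_of fun e he _ => ?_)
    exact h.mt2_off hc hS hH he
  have hyb := h.base_eq hS hb hy hby hy0
  exact ⟨b, hb, vx c, hcT, h2.2, hyb ▸ hy, hyb ▸ hco⟩

/-- **Ties of the free side.** -/
theorem tieL (hMF : MainFace Yn K Wt) (hS : Srch Q X Y s N Yn K τ A T n j gn)
    (hH : HLab Q X Y s N K nh jh)
    (hp : SS Q X Y s nh + 2 * jh < SS Q X Y s n + 2 * j) :
    ∃ c, vx c ∈ T ∧ ClJ Yn (fi Yn.α) (fi c) ∧
      Co (du (mt2 Yn.E T (base Q X Y s n j)) ∅) (ofc X Y (sd Q s n) j) (fi c) := by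
  obtain ⟨c, e', hcT, he', he'E, hd, b, hb, y, hy, hby, hb0, hy0, hco⟩ := h.tieF hc hS
  have hcK : vx c ∉ K := fun hK => (Finset.disjoint_left.1 hS.TK) hcT hK
  have h1 := hMF c e' hcK he' he'E (h.face_beta hc hS hd)
  refine ⟨c, hcT, h1.resolve_left fun he'W => ?_, hd⟩
  replace he'W := he'W.1
  have hyb := h.base_eq hS hb hy hby hy0
  -- the index of `b`
  obtain ⟨i, hi0, hi1, hi2, hbi⟩ : ∃ i, j ≤ i ∧ 0 < i ∧ i < slen X Y (sd Q s n) ∧
      b = sp X Y (sd Q s n) i := by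
    have hj := hS.hj
    have hj' := hS.hj'
    unfold base at hb
    rw [mem_insert, mem_singleton] at hb
    rcases hb with rfl | rfl
    · exact ⟨j, le_rfl, hj, by omega, rfl⟩
    · exact ⟨j + 1, by omega, by omega, hj', rfl⟩
  have hvb : Vl (gs X Y Q) b := by rw [hbi]; exact h.vl_sp hi1 hi2
  have hbT : b ∉ T := fun hbT => hS.TG _ hbT hvb
  have hout : outl X Y (sd Q s n) i = b + y := by rw [outl_eq, hbi, hyb, hbi]
  have hends := ends_add hby
  have hoE : b + y ∈ Yn.E := by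
    apply hc.fresh _ hvb
    rw [mem_star1_iff hends.1]
    rcases hends.2 with h2 | h2
    · exact Or.inl h2.1
    · exact Or.inr h2.1
  have hmt : ∀ e ∈ mt Yn.E T, e ∈ Yn.E ∧ eu e ∈ T ∧ ev e ∈ T := by
    intro e he
    unfold mt at he
    rw [mem_filter] at he
    exact he
  have hne : ∀ e ∈ mt Yn.E T, e ≠ b + y := by
    intro e he heq
    obtain ⟨-, h3, h4⟩ := hmt e he
    rw [heq] at h3 h4
    rcases hends.2 with h2 | h2
    · exact hbT (h2.1 ▸ h3)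
    · exact hbT (h2.1 ▸ h4)
  have hcl := h.claimL hc hH.hn hH.hj hH.hj' hH.h0 hH.perp hS.hn hi1 hi2 (by omega)
    (S := T) (κ := insert (b + y) (mt Yn.E T)) hS.TK hS.TG hS.Tτ
    (by
      intro e he
      rcases mem_insert.1 he with rfl | he
      · exact hoE
      · exact (hmt e he).1)
    (by
      rw [Finset.disjoint_left]
      intro e he heA
      obtain ⟨t1, t2⟩ := hS.TA e heA
      rcases mem_insert.1 he with rfl | he
      · rcases hends.2 with h2 | h2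
        · exact t2 (h2.2 ▸ hy)
        · exact t1 (h2.2 ▸ hy)
      · exact t1 (hmt e he).2.1)
    (by rw [hout]; exact mem_insert_self _ _)
    (by
      intro e he hne'
      rw [hout] at hne'
      exact (hmt e ((mem_insert.1 he).resolve_left hne')).2)
    (s0 := y) (by
      rw [hout]
      rcases hends.2 with h2 | h2
      · exact Or.inr h2.2
      · exact Or.inl h2.2)
    hy (y := vx c) hcT (by
      rw [hout]
      refine hco.mono fun e he => mem_erase.2 ⟨hne e he, mem_insert_of_mem he⟩)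
  refine hcl e' he'W ?_
  rcases he' with rfl | rfl
  · exact lab_star1 c
  · exact plab_star1 c

end LPol

end Pool.Agent.Q1.M3.Pg
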